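import Pool.Agent.H45.Nev.Kernel

/-!
# Jensen's formula for `C²` functions
-/

open MeasureTheory Set Metric Filter Topology
open scoped ContDiff ENNReal

namespace Pool.Agent.H45.Nev

lemma measurable_lap (w : ℂ → ℝ) : Measurable (lap w) := by
  unfold lap
  have h := measurable_fderiv ℝ (fderiv ℝ w)
  have h1 : ∀ v : ℂ, Measurable (fun z => fderiv ℝ (fderiv ℝ w) z v v) := by
    intro v
    have e : (fun z => fderiv ℝ (fderiv ℝ w) z v v) =
        (fun A : ℂ →L[ℝ] ℂ →L[ℝ] ℝ => A v v) ∘ (fderiv ℝ (fderiv ℝ w)) := rfl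
    rw [e]
    apply Measurable.comp _ h
    have : Continuous (fun A : ℂ →L[ℝ] ℂ →L[ℝ] ℝ => A v v) := by fun_prop
    exact this.measurable
  exact (h1 1).add (h1 Complex.I)

/-- rotational invariance of the Laplacian -/
lemma lap_rot (w : ℂ → ℝ) (z : ℂ) (hsymm : ∀ a b : ℂ, fderiv ℝ (fderiv ℝ w) z a b =
      fderiv ℝ (fderiv ℝ w) z b a) (e : ℂ) :
    fderiv ℝ (fderiv ℝ w) z e e + fderiv ℝ (fderiv ℝ w) z (Complex.I * e) (Complex.I * e) =
      ‖e‖ ^ 2 * lap w z := by
  set A := fderiv ℝ (fderiv ℝ w) z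
  have he : e = (e.re : ℝ) • (1 : ℂ) + (e.im : ℝ) • Complex.I := by
    apply Complex.ext <;> simp
  have hIe : Complex.I * e = (-e.im : ℝ) • (1 : ℂ) + (e.re : ℝ) • Complex.I := by
    apply Complex.ext <;> simp
  have h1 : A e e = e.re ^ 2 * A 1 1 + 2 * (e.re * e.im) * A 1 Complex.I +
      e.im ^ 2 * A Complex.I Complex.I := by
    have hI := hsymm Complex.I 1
    nth_rewrite 1 2 [he]
    simp only [map_add, map_smul, add_apply, smul_apply,
      smul_eq_mul]
    rw [hI]; ring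
  have h2 : A (Complex.I * e) (Complex.I * e) = e.im ^ 2 * A 1 1 -
      2 * (e.re * e.im) * A 1 Complex.I + e.re ^ 2 * A Complex.I Complex.I := by
    have hI := hsymm Complex.I 1
    rw [hIe]
    simp only [map_add, map_smul, add_apply, smul_apply,
      smul_eq_mul]
    rw [hI]; ring
  rw [h1, h2]
  have : ‖e‖ ^ 2 = e.re ^ 2 + e.im ^ 2 := by
    rw [← Complex.normSq_eq_norm_sq, Complex.normSq_apply]; ring
  rw [this]
  unfold lap
  ring

section

variable {w : ℂ → ℝ} {R : ℝ}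

private noncomputable def ee (θ : ℝ) : ℂ := circleMap 0 1 θ

private lemma cm_eq (r θ : ℝ) : circleMap 0 r θ = r • ee θ := by
  unfold ee
  rw [circleMap_zero, circleMap_zero]
  simp

private lemma norm_ee (θ : ℝ) : ‖ee θ‖ = 1 := by
  unfold ee; simp

private lemma cont_ee : Continuous ee := continuous_circleMap 0 1

private lemma cm_mem {r θ : ℝ} (hr : |r| < R) : circleMap 0 r θ ∈ ball (0 : ℂ) R := by
  simpa using hr

private lemma hasDerivAt_cm_r (r θ : ℝ) :
    HasDerivAt (fun r : ℝ => circleMap 0 r θ) (ee θ) r := by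
  simp only [cm_eq]
  simpa using (hasDerivAt_id r).smul_const (ee θ)

private lemma hasDerivAt_ee (θ : ℝ) : HasDerivAt ee (Complex.I * ee θ) θ := by
  have := hasDerivAt_circleMap 0 1 θ
  rw [mul_comm] at this
  exact this

private lemma hasDerivAt_cm_θ (r θ : ℝ) :
    HasDerivAt (fun θ : ℝ => circleMap 0 r θ) (r • (Complex.I * ee θ)) θ := by
  simp only [cm_eq]
  exact (hasDerivAt_ee θ).const_smul r

private lemma F0_deriv (hw : ContDiffOn ℝ 2 w (ball 0 R)) {r θ : ℝ} (hr : |r| < R) :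
    HasDerivAt (fun r : ℝ => w (circleMap 0 r θ)) (fderiv ℝ w (circleMap 0 r θ) (ee θ)) r := by
  have h1 : DifferentiableAt ℝ w (circleMap 0 r θ) :=
    (hw.differentiableOn (by norm_num)).differentiableAt (isOpen_ball.mem_nhds (cm_mem hr))
  exact h1.hasFDerivAt.comp_hasDerivAt r (hasDerivAt_cm_r r θ)

private lemma fderiv_diff (hw : ContDiffOn ℝ 2 w (ball 0 R)) {z : ℂ} (hz : z ∈ ball (0 : ℂ) R) :
    DifferentiableAt ℝ (fderiv ℝ w) z := by
  have h : ContDiffOn ℝ 1 (fderiv ℝ w) (ball 0 R) :=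
    hw.fderiv_of_isOpen isOpen_ball (by norm_num)
  exact (h.differentiableOn (by norm_num)).differentiableAt (isOpen_ball.mem_nhds hz)

private lemma F1_deriv (hw : ContDiffOn ℝ 2 w (ball 0 R)) {r θ : ℝ} (hr : |r| < R) :
    HasDerivAt (fun r : ℝ => fderiv ℝ w (circleMap 0 r θ) (ee θ))
      (fderiv ℝ (fderiv ℝ w) (circleMap 0 r θ) (ee θ) (ee θ)) r := by
  have h1 := fderiv_diff hw (cm_mem hr (θ := θ))
  have h2 := h1.hasFDerivAt.comp_hasDerivAt r (hasDerivAt_cm_r r θ)
  exact h2.clm_apply (hasDerivAt_const r (ee θ)) |>.congr_deriv (by simp)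

private lemma K_deriv (hw : ContDiffOn ℝ 2 w (ball 0 R)) {r θ : ℝ} (hr : |r| < R) :
    HasDerivAt (fun θ : ℝ => fderiv ℝ w (circleMap 0 r θ) (Complex.I * ee θ))
      (r * fderiv ℝ (fderiv ℝ w) (circleMap 0 r θ) (Complex.I * ee θ) (Complex.I * ee θ) -
        fderiv ℝ w (circleMap 0 r θ) (ee θ)) θ := by
  have h1 := fderiv_diff hw (cm_mem hr (θ := θ))
  have h2 := h1.hasFDerivAt.comp_hasDerivAt θ (hasDerivAt_cm_θ r θ)
  have h3 : HasDerivAt (fun θ => Complex.I * ee θ) (-ee θ) θ := by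
    have := (hasDerivAt_ee θ).const_mul Complex.I
    refine this.congr_deriv ?_
    rw [← mul_assoc, Complex.I_mul_I]; ring
  refine (h2.clm_apply h3).congr_deriv ?_
  simp only [map_smul, smul_apply, smul_eq_mul, map_neg]
  rfl

private lemma cont_D1 (hw : ContDiffOn ℝ 2 w (ball 0 R)) {s : ℝ} (hs : s < R) :
    ContinuousOn (fun p : ℝ × ℝ => fderiv ℝ w (circleMap 0 p.1 p.2) (ee p.2))
      (Icc 0 s ×ˢ univ) := by
  have h : ContinuousOn (fderiv ℝ w) (ball 0 R) :=
    hw.continuousOn_fderiv_of_isOpen isOpen_ball (by norm_num)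
  have hc : Continuous (fun x : ℝ × ℝ => circleMap 0 x.1 x.2) := by
    unfold circleMap; fun_prop
  have h2 : ContinuousOn (fun p : ℝ × ℝ => fderiv ℝ w (circleMap 0 p.1 p.2)) (Icc 0 s ×ˢ univ) := by
    apply h.comp hc.continuousOn
    rintro ⟨r, θ⟩ ⟨hr, -⟩
    exact cm_mem (by rw [abs_of_nonneg hr.1]; exact hr.2.trans_lt hs)
  exact h2.clm_apply (cont_ee.comp continuous_snd).continuousOn

private lemma cont_D2 (hw : ContDiffOn ℝ 2 w (ball 0 R)) {s : ℝ} (hs : s < R) :
    ContinuousOn (fun p : ℝ × ℝ => fderiv ℝ (fderiv ℝ w) (circleMap 0 p.1 p.2))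
      (Icc 0 s ×ˢ univ) := by
  have h : ContinuousOn (fderiv ℝ (fderiv ℝ w)) (ball 0 R) :=
    (hw.fderiv_of_isOpen isOpen_ball (m := 1) (by norm_num)).continuousOn_fderiv_of_isOpen
      isOpen_ball (by norm_num)
  have hc : Continuous (fun x : ℝ × ℝ => circleMap 0 x.1 x.2) := by
    unfold circleMap; fun_prop
  apply h.comp hc.continuousOn
  rintro ⟨r, θ⟩ ⟨hr, -⟩
  exact cm_mem (by rw [abs_of_nonneg hr.1]; exact hr.2.trans_lt hs)

lemma cont_lap (hw : ContDiffOn ℝ 2 w (ball 0 R)) : ContinuousOn (lap w) (ball 0 R) := by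
  have h : ContinuousOn (fderiv ℝ (fderiv ℝ w)) (ball 0 R) :=
    (hw.fderiv_of_isOpen isOpen_ball (m := 1) (by norm_num)).continuousOn_fderiv_of_isOpen
      isOpen_ball (by norm_num)
  unfold lap
  exact ((h.clm_apply continuousOn_const).clm_apply continuousOn_const).add
    ((h.clm_apply continuousOn_const).clm_apply continuousOn_const)

/-- the flux identity -/
private lemma flux (hw : ContDiffOn ℝ 2 w (ball 0 R)) {t : ℝ} (ht0 : 0 < t) (ht : t < R) :
    t * ∫ θ in (0 : ℝ)..(2 * Real.pi), fderiv ℝ w (circleMap 0 t θ) (ee θ) =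
      ∫ z in ball (0 : ℂ) t, lap w z := by
  have hpi : (0 : ℝ) ≤ 2 * Real.pi := by positivity
  -- FTC in r
  have h1 : ∀ θ : ℝ, t * fderiv ℝ w (circleMap 0 t θ) (ee θ) =
      ∫ r in (0 : ℝ)..t, (fderiv ℝ w (circleMap 0 r θ) (ee θ) +
        r * fderiv ℝ (fderiv ℝ w) (circleMap 0 r θ) (ee θ) (ee θ)) := by
    intro θ
    have hderiv : ∀ r ∈ uIcc 0 t, HasDerivAt
        (fun r : ℝ => r * fderiv ℝ w (circleMap 0 r θ) (ee θ))
        (fderiv ℝ w (circleMap 0 r θ) (ee θ) +
        r * fderiv ℝ (fderiv ℝ w) (circleMap 0 r θ) (ee θ) (ee θ)) r := by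
      intro r hr
      rw [uIcc_of_le ht0.le] at hr
      have hr' : |r| < R := by rw [abs_of_nonneg hr.1]; exact hr.2.trans_lt ht
      have := (hasDerivAt_id r).mul (F1_deriv hw hr' (θ := θ))
      refine this.congr_deriv ?_
      simp
    rw [intervalIntegral.integral_eq_sub_of_hasDerivAt hderiv]
    · simp
    · apply ContinuousOn.intervalIntegrable
      rw [uIcc_of_le ht0.le]
      have c0 : ContinuousOn (fun r : ℝ => (r, θ)) (Icc 0 t) := by fun_prop
      have c1 := (cont_D1 hw ht).comp c0 (fun r hr => ⟨hr, mem_univ _⟩)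
      have c2 := (cont_D2 hw ht).comp c0 (fun r hr => ⟨hr, mem_univ _⟩)
      have c3 : ContinuousOn (fun r : ℝ =>
          fderiv ℝ (fderiv ℝ w) (circleMap 0 r θ) (ee θ) (ee θ)) (Icc 0 t) :=
        (c2.clm_apply continuousOn_const).clm_apply continuousOn_const
      exact c1.add (continuousOn_id.mul c3)
  -- angular identity
  have h2 : ∀ r ∈ Ioo (0 : ℝ) t, ∫ θ in (0 : ℝ)..(2 * Real.pi),
      (fderiv ℝ w (circleMap 0 r θ) (ee θ) +
        r * fderiv ℝ (fderiv ℝ w) (circleMap 0 r θ) (ee θ) (ee θ)) =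
      2 * Real.pi * r * Real.circleAverage (lap w) 0 r := by
    intro r hr
    have hr' : |r| < R := by rw [abs_of_pos hr.1]; exact hr.2.trans ht
    have hcc : ContinuousOn (fun θ : ℝ => ((r, θ) : ℝ × ℝ)) univ := by fun_prop
    have c1 : Continuous (fun θ : ℝ => fderiv ℝ w (circleMap 0 r θ) (ee θ)) := by
      rw [← continuousOn_univ]
      exact (cont_D1 hw ht).comp hcc (fun θ _ => ⟨⟨hr.1.le, hr.2.le⟩, mem_univ _⟩)
    have c2 : Continuous (fun θ : ℝ => fderiv ℝ (fderiv ℝ w) (circleMap 0 r θ)) := by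
      rw [← continuousOn_univ]
      exact (cont_D2 hw ht).comp hcc (fun θ _ => ⟨⟨hr.1.le, hr.2.le⟩, mem_univ _⟩)
    have cI : Continuous (fun θ : ℝ => Complex.I * ee θ) := continuous_const.mul cont_ee
    have c3 : Continuous (fun θ : ℝ => r * fderiv ℝ (fderiv ℝ w) (circleMap 0 r θ)
        (Complex.I * ee θ) (Complex.I * ee θ)) :=
      continuous_const.mul ((c2.clm_apply cI).clm_apply cI)
    have c4 : Continuous (fun θ : ℝ => r * fderiv ℝ (fderiv ℝ w) (circleMap 0 r θ)
        (ee θ) (ee θ)) :=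
      continuous_const.mul ((c2.clm_apply cont_ee).clm_apply cont_ee)
    have hK : ∫ θ in (0 : ℝ)..(2 * Real.pi),
        (r * fderiv ℝ (fderiv ℝ w) (circleMap 0 r θ) (Complex.I * ee θ) (Complex.I * ee θ) -
        fderiv ℝ w (circleMap 0 r θ) (ee θ)) = 0 := by
      rw [intervalIntegral.integral_eq_sub_of_hasDerivAt (fun θ _ => K_deriv hw hr')]
      · have : ee (2 * Real.pi) = ee 0 := by
          unfold ee
          have := periodic_circleMap 0 1 0
          rwa [zero_add] at this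
        have h' : circleMap 0 r (2 * Real.pi) = circleMap 0 r 0 := by
          have := periodic_circleMap 0 r 0
          rwa [zero_add] at this
        rw [this, h', sub_self]
      · exact (c3.sub c1).intervalIntegrable _ _
    have hlap : ∀ θ : ℝ, fderiv ℝ w (circleMap 0 r θ) (ee θ) +
        r * fderiv ℝ (fderiv ℝ w) (circleMap 0 r θ) (ee θ) (ee θ) =
        r * lap w (circleMap 0 r θ) -
        (r * fderiv ℝ (fderiv ℝ w) (circleMap 0 r θ) (Complex.I * ee θ) (Complex.I * ee θ) -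
        fderiv ℝ w (circleMap 0 r θ) (ee θ)) := by
      intro θ
      have hsymm := (hw.contDiffAt (isOpen_ball.mem_nhds (cm_mem hr' (θ := θ)))).isSymmSndFDerivAt
        (by simp)
      have := lap_rot w (circleMap 0 r θ) (fun a b => hsymm a b) (ee θ)
      rw [norm_ee, one_pow, one_mul] at this
      rw [← this]; ring
    have c5 : Continuous (fun θ : ℝ => r * lap w (circleMap 0 r θ)) := by
      have : (fun θ : ℝ => r * lap w (circleMap 0 r θ)) = fun θ =>
          (fderiv ℝ w (circleMap 0 r θ) (ee θ) +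
          r * fderiv ℝ (fderiv ℝ w) (circleMap 0 r θ) (ee θ) (ee θ)) +
          (r * fderiv ℝ (fderiv ℝ w) (circleMap 0 r θ) (Complex.I * ee θ) (Complex.I * ee θ) -
        fderiv ℝ w (circleMap 0 r θ) (ee θ)) := by
        ext θ; rw [hlap θ]; ring
      rw [this]
      exact (c1.add c4).add (c3.sub c1)
    simp_rw [hlap]
    have hsub : ∫ θ in (0 : ℝ)..(2 * Real.pi), (r * lap w (circleMap 0 r θ) -
        (r * fderiv ℝ (fderiv ℝ w) (circleMap 0 r θ) (Complex.I * ee θ) (Complex.I * ee θ) -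
        fderiv ℝ w (circleMap 0 r θ) (ee θ))) =
        (∫ θ in (0 : ℝ)..(2 * Real.pi), r * lap w (circleMap 0 r θ)) -
        ∫ θ in (0 : ℝ)..(2 * Real.pi),
        (r * fderiv ℝ (fderiv ℝ w) (circleMap 0 r θ) (Complex.I * ee θ) (Complex.I * ee θ) -
        fderiv ℝ w (circleMap 0 r θ) (ee θ)) :=
      intervalIntegral.integral_sub (c5.intervalIntegrable _ _)
        ((c3.sub c1).intervalIntegrable _ _)
    rw [hsub, hK, sub_zero, intervalIntegral.integral_const_mul,
      Real.circleAverage_def, smul_eq_mul]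
    field_simp
  -- swap
  rw [← intervalIntegral.integral_const_mul]
  simp_rw [h1]
  rw [intervalIntegral_intervalIntegral_swap, intervalIntegral.integral_of_le ht0.le,
    integral_Ioc_eq_integral_Ioo, setIntegral_congr_fun measurableSet_Ioo h2]
  · rw [integral_ball_polar _ (measurable_lap w)]
    have hcl : ContinuousOn (lap w) (closedBall 0 t) :=
      (cont_lap hw).mono (closedBall_subset_ball ht)
    exact (hcl.integrableOn_compact (isCompact_closedBall 0 t)).mono_set ball_subset_closedBall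
  · have hc : ContinuousOn (Function.uncurry fun (θ r : ℝ) =>
        fderiv ℝ w (circleMap 0 r θ) (ee θ) +
        r * fderiv ℝ (fderiv ℝ w) (circleMap 0 r θ) (ee θ) (ee θ))
        (Icc 0 (2 * Real.pi) ×ˢ Icc 0 t) := by
      have hsw : ContinuousOn (Prod.swap : ℝ × ℝ → ℝ × ℝ) (Icc 0 (2 * Real.pi) ×ˢ Icc 0 t) :=
        continuous_swap.continuousOn
      have hmaps : MapsTo (Prod.swap : ℝ × ℝ → ℝ × ℝ) (Icc 0 (2 * Real.pi) ×ˢ Icc 0 t)
          (Icc 0 t ×ˢ univ) := fun p hp => ⟨hp.2, mem_univ _⟩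
      have c1 := (cont_D1 hw ht).comp hsw hmaps
      have c2 := (cont_D2 hw ht).comp hsw hmaps
      have ce : ContinuousOn (fun p : ℝ × ℝ => ee p.1) (Icc 0 (2 * Real.pi) ×ˢ Icc 0 t) :=
        (cont_ee.comp continuous_fst).continuousOn
      exact c1.add (continuousOn_snd.mul ((c2.clm_apply ce).clm_apply ce))
    rw [uIoc_of_le hpi, uIoc_of_le ht0.le]
    exact (hc.integrableOn_compact (isCompact_Icc.prod isCompact_Icc)).mono_set
      (prod_mono Ioc_subset_Icc_self Ioc_subset_Icc_self)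

/-- Jensen's formula for `C²` functions. -/
theorem jensen {s : ℝ} (hw : ContDiffOn ℝ 2 w (ball 0 R)) (hs : 0 < s) (hsR : s < R) :
    Real.circleAverage w 0 s - w 0 = 1 / (2 * Real.pi) * nev (lap w) s := by
  have hpi : (0 : ℝ) ≤ 2 * Real.pi := by positivity
  have h1 : ∀ θ : ℝ, w (circleMap 0 s θ) - w 0 =
      ∫ r in (0 : ℝ)..s, fderiv ℝ w (circleMap 0 r θ) (ee θ) := by
    intro θ
    rw [intervalIntegral.integral_eq_sub_of_hasDerivAt (f := fun r : ℝ => w (circleMap 0 r θ))]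
    · simp
    · intro r hr
      rw [uIcc_of_le hs.le] at hr
      exact F0_deriv hw (by rw [abs_of_nonneg hr.1]; exact hr.2.trans_lt hsR)
    · apply ContinuousOn.intervalIntegrable
      rw [uIcc_of_le hs.le]
      have c0 : ContinuousOn (fun r : ℝ => (r, θ)) (Icc 0 s) := by fun_prop
      exact (cont_D1 hw hsR).comp c0 (fun r hr => ⟨hr, mem_univ _⟩)
  have hcs : Continuous (fun θ : ℝ => w (circleMap 0 s θ)) := by
    rw [← continuousOn_univ]
    apply hw.continuousOn.comp (continuous_circleMap 0 s).continuousOn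
    intro θ _
    exact cm_mem (by rw [abs_of_pos hs]; exact hsR)
  have h2 : Real.circleAverage w 0 s - w 0 = (2 * Real.pi)⁻¹ *
      ∫ θ in (0 : ℝ)..(2 * Real.pi), (w (circleMap 0 s θ) - w 0) := by
    rw [intervalIntegral.integral_sub (hcs.intervalIntegrable _ _) (by simp), Real.circleAverage_def]
    simp only [smul_eq_mul, intervalIntegral.integral_const, sub_zero]
    field_simp
  rw [h2]
  simp_rw [h1]
  rw [intervalIntegral_intervalIntegral_swap, intervalIntegral.integral_of_le hs.le,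
    integral_Ioc_eq_integral_Ioo, one_div]
  · congr 1
    unfold nev
    apply setIntegral_congr_fun measurableSet_Ioo
    intro t ht
    simp only
    rw [← flux hw ht.1 (ht.2.trans hsR)]
    have := ht.1.ne'
    field_simp
  · have hc : ContinuousOn (Function.uncurry fun (θ r : ℝ) =>
        fderiv ℝ w (circleMap 0 r θ) (ee θ))
        (Icc 0 (2 * Real.pi) ×ˢ Icc 0 s) := by
      have hsw : ContinuousOn (Prod.swap : ℝ × ℝ → ℝ × ℝ) (Icc 0 (2 * Real.pi) ×ˢ Icc 0 s) :=
        continuous_swap.continuousOn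
      have hmaps : MapsTo (Prod.swap : ℝ × ℝ → ℝ × ℝ) (Icc 0 (2 * Real.pi) ×ˢ Icc 0 s)
          (Icc 0 s ×ˢ univ) := fun p hp => ⟨hp.2, mem_univ _⟩
      have c1 := (cont_D1 hw hsR).comp hsw hmaps
      refine c1.congr ?_
      rintro ⟨θ, r⟩ _
      rfl
    rw [uIoc_of_le hpi, uIoc_of_le hs.le]
    exact (hc.integrableOn_compact (isCompact_Icc.prod isCompact_Icc)).mono_set
      (prod_mono Ioc_subset_Icc_self Ioc_subset_Icc_self)

end

end Pool.Agent.H45.Nev
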