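import Pool.Agent.H45.Nev.Base1

/-!
# Rules for the flat Laplacian
-/

set_option linter.unusedSectionVars false

open MeasureTheory Set Metric Filter Topology
open scoped ContDiff

namespace Pool.Agent.H45.Nev

lemma lap_congr {f g : ℂ → ℝ} {z : ℂ} (h : f =ᶠ[𝓝 z] g) : lap f z = lap g z := by
  unfold lap
  rw [(h.fderiv).fderiv_eq]

lemma lap_zero (z : ℂ) : lap (fun _ => (0 : ℝ)) z = 0 := by
  unfold lap
  have : fderiv ℝ (fun _ : ℂ => (0 : ℝ)) = fun _ => 0 := by ext; simp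
  rw [this]; simp

/-- chain rule for products, first derivatives -/
lemma snd_mul {f g : ℂ → ℝ} {z : ℂ} (hf : ContDiffAt ℝ 2 f z) (hg : ContDiffAt ℝ 2 g z)
    (v : ℂ) : fderiv ℝ (fderiv ℝ (fun z => f z * g z)) z v v =
      f z * fderiv ℝ (fderiv ℝ g) z v v + g z * fderiv ℝ (fderiv ℝ f) z v v +
        2 * (fderiv ℝ f z v * fderiv ℝ g z v) := by
  have hf1 : ∀ᶠ x in 𝓝 z, ContDiffAt ℝ 2 f x := hf.eventually (by simp)
  have hg1 : ∀ᶠ x in 𝓝 z, ContDiffAt ℝ 2 g x := hg.eventually (by simp)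
  have hev : fderiv ℝ (fun z => f z * g z) =ᶠ[𝓝 z]
      fun x => f x • fderiv ℝ g x + g x • fderiv ℝ f x := by
    filter_upwards [hf1, hg1] with x hx hx'
    exact fderiv_fun_mul (hx.differentiableAt (by norm_num)) (hx'.differentiableAt (by norm_num))
  have hf2 : DifferentiableAt ℝ (fderiv ℝ f) z :=
    (hf.fderiv_right (m := 1) (by norm_num)).differentiableAt (by norm_num)
  have hg2 : DifferentiableAt ℝ (fderiv ℝ g) z :=
    (hg.fderiv_right (m := 1) (by norm_num)).differentiableAt (by norm_num)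
  have hfd := hf.differentiableAt (by norm_num)
  have hgd := hg.differentiableAt (by norm_num)
  rw [hev.fderiv_eq]
  have h1 := (hfd.hasFDerivAt.smul hg2.hasFDerivAt).add (hgd.hasFDerivAt.smul hf2.hasFDerivAt)
  have h1' : fderiv ℝ (fun x => f x • fderiv ℝ g x + g x • fderiv ℝ f x) z = _ := h1.fderiv
  rw [h1']
  simp
  ring

lemma lap_mul {f g : ℂ → ℝ} {z : ℂ} (hf : ContDiffAt ℝ 2 f z) (hg : ContDiffAt ℝ 2 g z) :
    lap (fun z => f z * g z) z = f z * lap g z + g z * lap f z +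
      2 * (fderiv ℝ f z 1 * fderiv ℝ g z 1 +
        fderiv ℝ f z Complex.I * fderiv ℝ g z Complex.I) := by
  unfold lap
  rw [snd_mul hf hg, snd_mul hf hg]
  ring

lemma lap_add {f g : ℂ → ℝ} {z : ℂ} (hf : ContDiffAt ℝ 2 f z) (hg : ContDiffAt ℝ 2 g z) :
    lap (fun z => f z + g z) z = lap f z + lap g z := by
  have hf1 : ∀ᶠ x in 𝓝 z, ContDiffAt ℝ 2 f x := hf.eventually (by simp)
  have hg1 : ∀ᶠ x in 𝓝 z, ContDiffAt ℝ 2 g x := hg.eventually (by simp)
  have hev : fderiv ℝ (fun z => f z + g z) =ᶠ[𝓝 z] fun x => fderiv ℝ f x + fderiv ℝ g x := by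
    filter_upwards [hf1, hg1] with x hx hx'
    exact fderiv_fun_add (hx.differentiableAt (by norm_num)) (hx'.differentiableAt (by norm_num))
  have hf2 : DifferentiableAt ℝ (fderiv ℝ f) z :=
    (hf.fderiv_right (m := 1) (by norm_num)).differentiableAt (by norm_num)
  have hg2 : DifferentiableAt ℝ (fderiv ℝ g) z :=
    (hg.fderiv_right (m := 1) (by norm_num)).differentiableAt (by norm_num)
  unfold lap
  rw [hev.fderiv_eq, fderiv_fun_add hf2 hg2]
  simp
  ring

lemma lap_mul_const {f : ℂ → ℝ} {z : ℂ} (hf : ContDiffAt ℝ 2 f z) (c : ℝ) :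
    lap (fun z => f z * c) z = c * lap f z := by
  rw [lap_mul hf contDiffAt_const]
  have h1 : lap (fun _ : ℂ => c) z = 0 := by
    unfold lap
    have : fderiv ℝ (fun _ : ℂ => c) = fun _ => 0 := by ext; simp
    rw [this]; simp
  rw [h1]; simp

/-- chain rule -/
lemma lap_comp_real {F : ℝ → ℝ} {f : ℂ → ℝ} {z : ℂ} (hF : ContDiffAt ℝ 2 F (f z))
    (hf : ContDiffAt ℝ 2 f z) :
    lap (fun z => F (f z)) z = deriv F (f z) * lap f z +
      deriv (deriv F) (f z) * ((fderiv ℝ f z 1) ^ 2 + (fderiv ℝ f z Complex.I) ^ 2) := by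
  have hf1 : ∀ᶠ x in 𝓝 z, ContDiffAt ℝ 2 f x := hf.eventually (by simp)
  have hF1 : ∀ᶠ y in 𝓝 (f z), ContDiffAt ℝ 2 F y := hF.eventually (by simp)
  have hF2 : ∀ᶠ x in 𝓝 z, ContDiffAt ℝ 2 F (f x) := hf.continuousAt.eventually hF1
  have hev : fderiv ℝ (fun z => F (f z)) =ᶠ[𝓝 z] fun x => deriv F (f x) • fderiv ℝ f x := by
    filter_upwards [hf1, hF2] with x hx hx'
    have h1 := (hx'.differentiableAt (by norm_num)).hasDerivAt
    have h2 := (hx.differentiableAt (by norm_num)).hasFDerivAt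
    exact (h1.comp_hasFDerivAt x h2).fderiv
  have hf2 : DifferentiableAt ℝ (fderiv ℝ f) z :=
    (hf.fderiv_right (m := 1) (by norm_num)).differentiableAt (by norm_num)
  have hFd : DifferentiableAt ℝ (deriv F) (f z) := by
    have : ContDiffAt ℝ 1 (fderiv ℝ F) (f z) := hF.fderiv_right (m := 1) (by norm_num)
    have h2 : DifferentiableAt ℝ (fderiv ℝ F) (f z) := this.differentiableAt (by norm_num)
    have h3 : deriv F = fun y => fderiv ℝ F y 1 := by ext y; simp
    rw [h3]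
    exact h2.clm_apply (differentiableAt_const _)
  have hfd := hf.differentiableAt (by norm_num)
  unfold lap
  rw [hev.fderiv_eq]
  have h1 := (hFd.hasDerivAt.comp_hasFDerivAt z hfd.hasFDerivAt).smul hf2.hasFDerivAt
  have h1' : fderiv ℝ (fun x => deriv F (f x) • fderiv ℝ f x) z = _ := h1.fderiv
  rw [h1']
  simp
  ring

/-- conformal invariance in the plane -/
lemma lap_holo {f : ℂ → ℝ} {h : ℂ → ℂ} {z : ℂ} (hf : ContDiffAt ℝ 2 f (h z))
    (hh : AnalyticAt ℂ h z) : lap (fun z => f (h z)) z = ‖deriv h z‖ ^ 2 * lap f (h z) := by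
  have h1 : lap (f ∘ h) z = levS f (h z) (deriv h z) (deriv h z) :=
    lap_comp hf hh.contDiffAt
  have h2 : lap (fun z => f (h z)) z = lap (f ∘ h) z := rfl
  rw [h2, h1]
  have h3 : deriv h z = deriv h z • (1 : ℂ) := by simp
  rw [h3, levS_smul hf, lap_eq_levS]
  simp

end Pool.Agent.H45.Nev
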