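import Pool.Agent.H45.Nev.TestSys
import Pool.Agent.H45.Nev.LapLemmas
import Pool.Agent.H45.Nev.Jensen

/-!
# Discs in leaves
-/

set_option linter.unusedSectionVars false
set_option linter.style.haveILetI false

open MeasureTheory Set Metric Filter Topology ProbabilityTheory
open scoped ContDiff ENNReal

namespace Pool.Agent.H45.Nev

variable {M : Type*} [TopologicalSpace M]
  {Y : Type*} [NormedAddCommGroup Y] [NormedSpace ℝ Y] {Λ : Lam M Y} {φ : ℂ → M} {σ : ℂ → ℝ}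

lemma Lam.mem_target (Λ : Lam M Y) {i : Λ.ι} {t : Y} {z : ℂ} (ht : t ∈ Λ.W i)
    (hz : z ∈ ball (0 : ℂ) 1) : (z, t) ∈ (Λ.box i).target := by
  rw [Λ.target_eq i]; exact ⟨hz, ht⟩

lemma Lam.IsDisc.continuousAt (hd : Λ.IsDisc φ σ) {ξ : ℂ} (hξ : ξ ∈ ball (0 : ℂ) 1) :
    ContinuousAt φ ξ := by
  obtain ⟨i, t, ht, h, hh, hh', hhξ, hev⟩ := hd.loc ξ hξ
  have h1 : ContinuousAt (Λ.box i).symm (h ξ, t) :=
    (Λ.box i).continuousAt_symm (Λ.mem_target ht hhξ)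
  have h2 : ContinuousAt (fun ζ => (h ζ, t)) ξ := hh.continuousAt.prodMk continuousAt_const
  have h3 : ContinuousAt (fun ζ => (Λ.box i).symm (h ζ, t)) ξ :=
    ContinuousAt.comp (g := (Λ.box i).symm) (f := fun ζ => (h ζ, t)) h1 h2
  exact h3.congr (hev.mono fun ζ hζ => hζ.1.symm)

lemma Lam.IsDisc.continuousOn (hd : Λ.IsDisc φ σ) : ContinuousOn φ (ball 0 1) :=
  fun _ hξ => (hd.continuousAt hξ).continuousWithinAt

lemma Lam.IsDisc.continuousAt_σ (hd : Λ.IsDisc φ σ) {ξ : ℂ} (hξ : ξ ∈ ball (0 : ℂ) 1) :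
    ContinuousAt σ ξ := by
  obtain ⟨i, t, ht, h, hh, hh', hhξ, hev⟩ := hd.loc ξ hξ
  have h1 : ContinuousAt (Λ.ρ i) (h ξ, t) :=
    (Λ.ρ_cont i).continuousAt ((Λ.box i).open_target.mem_nhds (Λ.mem_target ht hhξ))
  have h2 : ContinuousAt (fun ζ => (h ζ, t)) ξ := hh.continuousAt.prodMk continuousAt_const
  have h3 : ContinuousAt (fun ζ => Λ.ρ i (h ζ, t)) ξ :=
    ContinuousAt.comp (g := Λ.ρ i) (f := fun ζ => (h ζ, t)) h1 h2
  have h4 : ContinuousAt (fun ζ => ‖deriv h ζ‖ ^ 2) ξ := (hh.deriv.continuousAt.norm).pow 2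
  exact (h3.mul h4).congr (hev.mono fun ζ hζ => hζ.2.symm)

lemma Lam.IsDisc.continuousOn_σ (hd : Λ.IsDisc φ σ) : ContinuousOn σ (ball 0 1) :=
  fun _ hξ => (hd.continuousAt_σ hξ).continuousWithinAt

lemma Lam.IsDisc.σ_pos (hd : Λ.IsDisc φ σ) {ξ : ℂ} (hξ : ξ ∈ ball (0 : ℂ) 1) : 0 < σ ξ := by
  obtain ⟨i, t, ht, h, hh, hh', hhξ, hev⟩ := hd.loc ξ hξ
  rw [hev.self_of_nhds.2]
  have h1 : 0 < Λ.ρ i (h ξ, t) := (Λ.lo_pos i).trans_le (Λ.ρ_lo i _ (Λ.mem_target ht hhξ))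
  have h2 : 0 < ‖deriv h ξ‖ := norm_pos_iff.2 hh'
  positivity

lemma Lam.IsDisc.mem_reg (hd : Λ.IsDisc φ σ) {ξ : ℂ} (hξ : ξ ∈ ball (0 : ℂ) 1) :
    φ ξ ∈ Λ.reg := by
  obtain ⟨i, t, ht, h, hh, hh', hhξ, hev⟩ := hd.loc ξ hξ
  rw [hev.self_of_nhds.1]
  exact mem_iUnion.2 ⟨i, (Λ.box i).map_target (Λ.mem_target ht hhξ)⟩

/-- congruence for discs -/
lemma Lam.IsDisc.congr (hd : Λ.IsDisc φ σ) {φ' : ℂ → M} {σ' : ℂ → ℝ}
    (h1 : EqOn φ' φ (ball 0 1)) (h2 : EqOn σ' σ (ball 0 1)) : Λ.IsDisc φ' σ' := by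
  constructor
  intro ξ hξ
  obtain ⟨i, t, ht, h, hh, hh', hhξ, hev⟩ := hd.loc ξ hξ
  refine ⟨i, t, ht, h, hh, hh', hhξ, ?_⟩
  filter_upwards [hev, isOpen_ball.mem_nhds hξ] with ζ hζ hζ'
  rw [h1 hζ', h2 hζ']
  exact hζ

variable [MeasurableSpace M] {μ : Measure M}

lemma disc_test (TS : TestSys Λ μ) (hd : Λ.IsDisc φ σ) {u : M → ℝ} (hu : u ∈ TS.D) {ξ : ℂ}
    (hξ : ξ ∈ ball (0 : ℂ) 1) :
    ContDiffAt ℝ 2 (u ∘ φ) ξ ∧ lap (u ∘ φ) ξ = σ ξ * TS.L u (φ ξ) := by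
  obtain ⟨i, t, ht, h, hh, hh', hhξ, hev⟩ := hd.loc ξ hξ
  set Ut : ℂ → ℝ := fun z => u ((Λ.box i).symm (z, t)) with hUt
  have hUtc : ContDiffAt ℝ 2 Ut (h ξ) :=
    (contDiffOn_infty.1 (TS.smooth_leaf u hu i t ht) 2).contDiffAt (isOpen_ball.mem_nhds hhξ)
  have hhr : ContDiffAt ℝ 2 h ξ := (hh.contDiffAt (n := 2)).restrict_scalars ℝ
  have heq : u ∘ φ =ᶠ[𝓝 ξ] fun ζ => Ut (h ζ) := by
    filter_upwards [hev] with ζ hζ
    simp only [Function.comp_apply, hUt, hζ.1]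
  constructor
  · exact (hUtc.comp ξ hhr).congr_of_eventuallyEq heq
  · rw [lap_congr heq, lap_holo hUtc hh, hUt, TS.L_eq u hu i t ht (h ξ) hhξ,
      hev.self_of_nhds.2, hev.self_of_nhds.1]
    ring

/-- Jensen's formula for a test function along a disc -/
lemma disc_jensen (TS : TestSys Λ μ) (hd : Λ.IsDisc φ σ) {u : M → ℝ} (hu : u ∈ TS.D) {s : ℝ}
    (hs0 : 0 < s) (hs1 : s < 1) :
    Real.circleAverage (u ∘ φ) 0 s - u (φ 0) =
      1 / (2 * Real.pi) * nev (fun ξ => σ ξ * TS.L u (φ ξ)) s := by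
  have h1 : ContDiffOn ℝ 2 (u ∘ φ) (ball 0 1) := fun ξ hξ =>
    (disc_test TS hd hu hξ).1.contDiffWithinAt
  have h2 := jensen h1 hs0 hs1
  rw [Function.comp_apply] at h2
  rw [h2]
  congr 1
  unfold nev
  apply setIntegral_congr_fun measurableSet_Ioo
  intro t ht
  simp only
  congr 1
  apply setIntegral_congr_fun measurableSet_ball
  intro ξ hξ
  exact (disc_test TS hd hu (ball_subset_ball (ht.2.trans hs1).le hξ)).2

/-- bound for the density on smaller discs -/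
lemma Lam.IsDisc.σ_bdd (hd : Λ.IsDisc φ σ) {r : ℝ} (hr : r < 1) :
    ∃ C, 0 < C ∧ ∀ ξ ∈ ball (0 : ℂ) r, σ ξ ≤ C := by
  have hc : ContinuousOn σ (closedBall 0 r) :=
    hd.continuousOn_σ.mono (closedBall_subset_ball hr)
  obtain ⟨C, hC⟩ := (isCompact_closedBall (0 : ℂ) r).exists_bound_of_continuousOn hc
  refine ⟨max C 1, by positivity, fun ξ hξ => ?_⟩
  have := hC ξ (ball_subset_closedBall hξ)
  rw [Real.norm_eq_abs] at this
  exact (le_abs_self _).trans (this.trans (le_max_left _ _))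

end Pool.Agent.H45.Nev
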