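import Pool.Agent.H45.Nev.PlaneLim

/-!
# The basic estimate for penalised obstacle problems on discs
-/

set_option linter.unusedSectionVars false
set_option linter.style.haveILetI false

open MeasureTheory Set Metric Filter Topology
open scoped ContDiff ENNReal

namespace Pool.Agent.H45.Nev

lemma mul_log_le {r s : ℝ} (hr : 0 < r) (hrs : r < s) : r * Real.log (s / r) ≤ s := by
  have hs : 0 < s := hr.trans hrs
  have h1 : Real.log (s / r) ≤ s / r := by
    have := Real.add_one_le_exp (Real.log (s / r))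
    rw [Real.exp_log (by positivity)] at this
    linarith
  calc r * Real.log (s / r) ≤ r * (s / r) := by gcongr
    _ = s := by field_simp

lemma kernel_lintegral_le {s : ℝ} (hs1 : s < 1) :
    ∫⁻ ξ in ball (0 : ℂ) s, ENNReal.ofReal (Real.log (s / ‖ξ‖)) ≤
      ENNReal.ofReal (2 * Real.pi) := by
  rw [lintegral_ball_polar _ (measurable_kernel s).ennreal_ofReal]
  calc ∫⁻ r in Ioo (0 : ℝ) s, ENNReal.ofReal r * ∫⁻ θ in Ioo 0 (2 * Real.pi),
        ENNReal.ofReal (Real.log (s / ‖circleMap 0 r θ‖))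
      ≤ ∫⁻ r in Ioo (0 : ℝ) s, ENNReal.ofReal (2 * Real.pi) := by
        apply setLIntegral_mono' measurableSet_Ioo
        intro r hr
        have : ∀ θ : ℝ, ‖circleMap 0 r θ‖ = r := fun θ => by simp [abs_of_pos hr.1]
        simp only [this, lintegral_const, Measure.restrict_apply MeasurableSet.univ, univ_inter,
          Real.volume_Ioo, sub_zero]
        rw [← mul_assoc, ← ENNReal.ofReal_mul hr.1.le]
        calc ENNReal.ofReal (r * Real.log (s / r)) * ENNReal.ofReal (2 * Real.pi)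
            ≤ ENNReal.ofReal 1 * ENNReal.ofReal (2 * Real.pi) := by
              gcongr
              exact (mul_log_le hr.1 hr.2).trans hs1.le
          _ = _ := by simp
    _ = ENNReal.ofReal (2 * Real.pi) * ENNReal.ofReal s := by
        simp
    _ ≤ ENNReal.ofReal (2 * Real.pi) * 1 := by
        gcongr
        rw [← ENNReal.ofReal_one]
        exact ENNReal.ofReal_le_ofReal hs1.le
    _ = _ := mul_one _

lemma kernel_integrableOn {s : ℝ} (hs1 : s < 1) :
    IntegrableOn (fun ξ : ℂ => Real.log (s / ‖ξ‖)) (ball 0 s) := by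
  refine ⟨(measurable_kernel s).aestronglyMeasurable, ?_⟩
  unfold HasFiniteIntegral
  refine lt_of_le_of_lt (le_of_eq ?_) ((kernel_lintegral_le hs1).trans_lt ENNReal.ofReal_lt_top)
  apply setLIntegral_congr_fun measurableSet_ball
  intro ξ hξ
  exact Real.enorm_eq_ofReal (kernel_nonneg hξ)

lemma kernel_integral_le {s : ℝ} (hs1 : s < 1) :
    ∫ ξ in ball (0 : ℂ) s, Real.log (s / ‖ξ‖) ≤ 2 * Real.pi := by
  have h1 := kernel_lintegral_le hs1
  have h2 := ofReal_integral_eq_lintegral_ofReal (kernel_integrableOn hs1) (by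
    filter_upwards [ae_restrict_mem measurableSet_ball] with ξ hξ using kernel_nonneg hξ)
  rw [← h2] at h1
  exact (ENNReal.ofReal_le_ofReal_iff (by positivity)).1 h1

lemma kernel_integrable_bdd {s : ℝ} (hs1 : s < 1) {F : ℂ → ℝ} (hF : Measurable F)
    {K : ℝ} (hK : ∀ᵐ ξ ∂(volume.restrict (ball (0 : ℂ) s)), |F ξ| ≤ K) :
    IntegrableOn (fun ξ : ℂ => Real.log (s / ‖ξ‖) * F ξ) (ball 0 s) := by
  have h1 := (kernel_integrableOn hs1).norm.mul_const K
  refine h1.mono ((measurable_kernel s).mul hF).aestronglyMeasurable ?_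
  filter_upwards [hK] with ξ hξ
  rw [norm_mul, norm_mul, norm_norm]
  gcongr
  rw [Real.norm_eq_abs, Real.norm_eq_abs]
  exact hξ.trans (le_abs_self K)

/-- the kernel integral is controlled by circle averages -/
lemma kernel_polar_le {s Y K : ℝ} (hs0 : 0 < s) (hs1 : s < 1) {v : ℂ → ℝ} (hv : Measurable v)
    (hv0 : ∀ ξ, 0 ≤ v ξ) (hY : 0 ≤ Y) (hK : ∀ᵐ ξ ∂(volume.restrict (ball (0 : ℂ) s)), |v ξ| ≤ K)
    (hav : ∀ᵐ τ ∂(volume.restrict (Ioo (0 : ℝ) s)), Real.circleAverage v 0 τ ≤ Y) :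
    ∫ ξ in ball (0 : ℂ) s, Real.log (s / ‖ξ‖) * v ξ ≤ 2 * Real.pi * Y := by
  have hint := kernel_integrable_bdd hs1 hv hK
  have hm : Measurable (fun ξ : ℂ => Real.log (s / ‖ξ‖) * v ξ) := (measurable_kernel s).mul hv
  rw [integral_ball_polar _ hm s hint]
  have h1 : ∀ τ ∈ Ioo (0 : ℝ) s, 2 * Real.pi * τ *
      Real.circleAverage (fun ξ => Real.log (s / ‖ξ‖) * v ξ) 0 τ =
      2 * Real.pi * (τ * Real.log (s / τ)) * Real.circleAverage v 0 τ := by
    intro τ hτ
    have : Real.circleAverage (fun ξ => Real.log (s / ‖ξ‖) * v ξ) 0 τ =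
        Real.circleAverage (fun ξ => Real.log (s / τ) * v ξ) 0 τ := by
      apply Real.circleAverage_congr_sphere
      intro z hz
      simp only [mem_sphere_iff_norm, sub_zero] at hz
      simp only [hz, abs_of_pos hτ.1]
    rw [this]
    have h2 : Real.circleAverage (fun ξ => Real.log (s / τ) * v ξ) 0 τ =
        Real.log (s / τ) * Real.circleAverage v 0 τ := by
      simp only [Real.circleAverage_def, smul_eq_mul, intervalIntegral.integral_const_mul]
      ring
    rw [h2]; ring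
  rw [setIntegral_congr_fun measurableSet_Ioo h1]
  calc ∫ τ in Ioo (0 : ℝ) s, 2 * Real.pi * (τ * Real.log (s / τ)) * Real.circleAverage v 0 τ
      ≤ ∫ τ in Ioo (0 : ℝ) s, 2 * Real.pi * Y := by
        have hlog : ∀ τ ∈ Ioo (0 : ℝ) s, 0 ≤ τ * Real.log (s / τ) := fun τ hτ =>
          mul_nonneg hτ.1.le (Real.log_nonneg (by rw [le_div_iff₀ hτ.1]; linarith [hτ.2]))
        apply integral_mono_of_nonneg
        · filter_upwards [ae_restrict_mem measurableSet_Ioo] with τ hτ
          have := hlog τ hτ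
          have h3 : 0 ≤ Real.circleAverage v 0 τ :=
            Real.circleAverage_nonneg_of_nonneg fun z _ => hv0 z
          simp only [Pi.zero_apply]
          positivity
        · exact integrableOn_const (by simp)
        · filter_upwards [hav, ae_restrict_mem measurableSet_Ioo] with τ h3 hτ
          have := hlog τ hτ
          have h4 : τ * Real.log (s / τ) ≤ 1 := (mul_log_le hτ.1 hτ.2).trans hs1.le
          calc 2 * Real.pi * (τ * Real.log (s / τ)) * Real.circleAverage v 0 τ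
              ≤ 2 * Real.pi * (τ * Real.log (s / τ)) * Y := by gcongr
            _ ≤ 2 * Real.pi * 1 * Y := by gcongr
            _ = 2 * Real.pi * Y := by ring
    _ = 2 * Real.pi * Y * s := by
        simp [hs0.le]; ring
    _ ≤ 2 * Real.pi * Y * 1 := by gcongr
    _ = 2 * Real.pi * Y := mul_one _

/-- The basic estimate. -/
theorem plane_est {w g f σ : ℂ → ℝ} (hw : Measurable w) (hg : Measurable g) (hf : Measurable f)
    (hσ : Measurable σ) {r C lam β B c₀ : ℝ} (hr1 : r < 1) (hC : 0 ≤ C)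
    (hσ0 : ∀ ξ ∈ ball (0 : ℂ) r, 0 ≤ σ ξ ∧ σ ξ ≤ C) (hlam : 0 < lam) (hβ : 0 < β) (hB : 0 ≤ B)
    (hc : c₀ ≤ 0)
    (H1 : ∀ᵐ s ∂(volume.restrict (Ioo (0 : ℝ) 1)), Real.circleAverage w 0 s - c₀ =
      1 / (2 * Real.pi) * ∫ ξ in ball (0 : ℂ) s, Real.log (s / ‖ξ‖) * (σ ξ * g ξ))
    (H2 : ∀ᵐ ξ ∂(volume.restrict (ball (0 : ℂ) 1)), lam * w ξ - g ξ = f ξ + β * max (-(w ξ)) 0)
    (H3 : ∀ᵐ ξ ∂(volume.restrict (ball (0 : ℂ) 1)), -(B / β) ≤ w ξ ∧ w ξ ≤ B / lam)
    (H5 : ∀ ξ, |f ξ| ≤ B) (hsmall : lam * C ≤ 1 / 2) :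
    ∀ᵐ s ∂(volume.restrict (Ioo (0 : ℝ) r)),
      1 / (2 * Real.pi) * ∫ ξ in ball (0 : ℂ) s, Real.log (s / ‖ξ‖) * (σ ξ * f ξ) ≤
        lam * C * (2 * (B / β + B * C)) + B / β := by
  have hpi : (0 : ℝ) < 2 * Real.pi := by positivity
  set wp : ℂ → ℝ := fun ξ => max (w ξ) 0 with hwp
  have hwpm : Measurable wp := hw.max measurable_const
  have hwp0 : ∀ ξ, 0 ≤ wp ξ := fun ξ => le_max_right _ _
  set D : ℝ := B / β + B * C with hD
  have hD0 : 0 ≤ D := by positivity
  have hBβ : 0 ≤ B / β := by positivity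
  have hBl : 0 ≤ B / lam := by positivity
  have hcr := circle_ae H3
  -- restrict everything to `(0, r)`
  have hsub : Ioo (0 : ℝ) r ⊆ Ioo 0 1 := Ioo_subset_Ioo_right hr1.le
  have hcr' := ae_restrict_of_ae_restrict_of_subset hsub hcr
  have H1' := ae_restrict_of_ae_restrict_of_subset hsub H1
  -- circle comparison
  have hcirc : ∀ s : ℝ, (∀ᵐ θ ∂(volume.restrict (Ioo 0 (2 * Real.pi))),
      -(B / β) ≤ w (circleMap 0 s θ) ∧ w (circleMap 0 s θ) ≤ B / lam) →
      Real.circleAverage wp 0 s ≤ Real.circleAverage w 0 s + B / β ∧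
        Real.circleAverage wp 0 s ≤ B / lam ∧ -(B / β) ≤ Real.circleAverage w 0 s := by
    intro s hs
    have hcm : Measurable (fun θ : ℝ => circleMap (0 : ℂ) s θ) := measurable_circleMap 0 s
    have hi1 : Integrable (fun θ => w (circleMap 0 s θ)) (volume.restrict (Ioo 0 (2 * Real.pi))) := by
      apply Integrable.of_bound (show Measurable (fun θ => w (circleMap 0 s θ)) from
        hw.comp hcm).aestronglyMeasurable (B / β + B / lam)
      filter_upwards [hs] with θ hθ
      rw [Real.norm_eq_abs, abs_le]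
      constructor <;> linarith [hθ.1, hθ.2]
    have hi2 : Integrable (fun θ => wp (circleMap 0 s θ))
        (volume.restrict (Ioo 0 (2 * Real.pi))) := by
      apply Integrable.of_bound (show Measurable (fun θ => wp (circleMap 0 s θ)) from
        hwpm.comp hcm).aestronglyMeasurable (B / lam)
      filter_upwards [hs] with θ hθ
      rw [Real.norm_eq_abs, abs_of_nonneg (hwp0 _)]
      exact max_le hθ.2 hBl
    have hav : ∀ v : ℂ → ℝ, Real.circleAverage v 0 s =
        (2 * Real.pi)⁻¹ * ∫ θ in Ioo 0 (2 * Real.pi), v (circleMap 0 s θ) := by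
      intro v
      rw [Real.circleAverage_def, smul_eq_mul, intervalIntegral.integral_of_le hpi.le,
        integral_Ioc_eq_integral_Ioo]
    have hconst : ∀ c : ℝ, ∫ _ in Ioo 0 (2 * Real.pi), c = 2 * Real.pi * c := by
      intro c; simp [hpi.le]
    refine ⟨?_, ?_, ?_⟩
    · rw [hav, hav]
      have h1 : ∫ θ in Ioo 0 (2 * Real.pi), wp (circleMap 0 s θ) ≤
          ∫ θ in Ioo 0 (2 * Real.pi), (w (circleMap 0 s θ) + B / β) := by
        apply integral_mono_ae hi2 (hi1.add (integrable_const _))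
        filter_upwards [hs] with θ hθ
        show max (w (circleMap 0 s θ)) 0 ≤ w (circleMap 0 s θ) + B / β
        exact max_le (by linarith) (by linarith [hθ.1])
      rw [integral_add hi1 (integrable_const _), hconst] at h1
      calc (2 * Real.pi)⁻¹ * ∫ θ in Ioo 0 (2 * Real.pi), wp (circleMap 0 s θ)
          ≤ (2 * Real.pi)⁻¹ * ((∫ θ in Ioo 0 (2 * Real.pi), w (circleMap 0 s θ)) +
            2 * Real.pi * (B / β)) := by gcongr
        _ = _ := by field_simp
    · rw [hav]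
      have h1 : ∫ θ in Ioo 0 (2 * Real.pi), wp (circleMap 0 s θ) ≤
          ∫ θ in Ioo 0 (2 * Real.pi), (B / lam) := by
        apply integral_mono_ae hi2 (integrable_const _)
        filter_upwards [hs] with θ hθ
        exact max_le hθ.2 hBl
      rw [hconst] at h1
      calc (2 * Real.pi)⁻¹ * ∫ θ in Ioo 0 (2 * Real.pi), wp (circleMap 0 s θ)
          ≤ (2 * Real.pi)⁻¹ * (2 * Real.pi * (B / lam)) := by gcongr
        _ = _ := by field_simp
    · rw [hav]
      have h1 : ∫ θ in Ioo 0 (2 * Real.pi), -(B / β) ≤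
          ∫ θ in Ioo 0 (2 * Real.pi), w (circleMap 0 s θ) := by
        apply integral_mono_ae (integrable_const _) hi1
        filter_upwards [hs] with θ hθ using hθ.1
      rw [hconst] at h1
      calc -(B / β) = (2 * Real.pi)⁻¹ * (2 * Real.pi * -(B / β)) := by field_simp
        _ ≤ _ := by gcongr
  -- facts on small balls
  have hball : ∀ s ∈ Ioo (0 : ℝ) r, ∀ᵐ ξ ∂(volume.restrict (ball (0 : ℂ) s)),
      (lam * w ξ - g ξ = f ξ + β * max (-(w ξ)) 0) ∧ (-(B / β) ≤ w ξ ∧ w ξ ≤ B / lam) ∧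
      (0 ≤ σ ξ ∧ σ ξ ≤ C) ∧ 0 ≤ Real.log (s / ‖ξ‖) := by
    intro s hs
    have hs1 : s < 1 := hs.2.trans hr1
    have hsb : ball (0 : ℂ) s ⊆ ball 0 1 := ball_subset_ball hs1.le
    filter_upwards [ae_restrict_of_ae_restrict_of_subset hsb H2,
      ae_restrict_of_ae_restrict_of_subset hsb H3, ae_restrict_mem measurableSet_ball] with ξ a b c
    exact ⟨a, b, hσ0 ξ (ball_subset_ball hs.2.le c), kernel_nonneg c⟩
  -- the kernel integral of `σ w⁺`
  have hAp : ∀ Y : ℝ, 0 ≤ Y → ∀ s ∈ Ioo (0 : ℝ) r,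
      (∀ᵐ τ ∂(volume.restrict (Ioo (0 : ℝ) r)), Real.circleAverage wp 0 τ ≤ Y) →
      ∫ ξ in ball (0 : ℂ) s, Real.log (s / ‖ξ‖) * (σ ξ * wp ξ) ≤ C * (2 * Real.pi * Y) := by
    intro Y hY s hs hav
    have hs1 : s < 1 := hs.2.trans hr1
    have hb := hball s hs
    have hwb : ∀ᵐ ξ ∂(volume.restrict (ball (0 : ℂ) s)), |wp ξ| ≤ B / lam := by
      filter_upwards [hb] with ξ hξ
      rw [abs_of_nonneg (hwp0 _)]
      exact max_le hξ.2.1.2 hBl
    have h1 := kernel_polar_le hs.1 hs1 hwpm hwp0 hY hwb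
      (ae_restrict_of_ae_restrict_of_subset (Ioo_subset_Ioo_right hs.2.le) hav)
    have hi1 := kernel_integrable_bdd hs1 hwpm hwb
    calc ∫ ξ in ball (0 : ℂ) s, Real.log (s / ‖ξ‖) * (σ ξ * wp ξ)
        ≤ ∫ ξ in ball (0 : ℂ) s, C * (Real.log (s / ‖ξ‖) * wp ξ) := by
          apply integral_mono_of_nonneg
          · filter_upwards [hb] with ξ hξ
            have := hξ.2.2.1.1
            have := hξ.2.2.2
            have := hwp0 ξ
            simp only [Pi.zero_apply]
            positivity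
          · exact hi1.const_mul C
          · filter_upwards [hb] with ξ hξ
            have h3 := hξ.2.2.1
            have h4 := hξ.2.2.2
            have h5 := hwp0 ξ
            calc Real.log (s / ‖ξ‖) * (σ ξ * wp ξ) ≤ Real.log (s / ‖ξ‖) * (C * wp ξ) := by
                  gcongr; exact h3.2
              _ = _ := by ring
      _ = C * ∫ ξ in ball (0 : ℂ) s, Real.log (s / ‖ξ‖) * wp ξ := by
          rw [integral_const_mul]
      _ ≤ C * (2 * Real.pi * Y) := by gcongr
  -- integrability of the pieces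
  have hIg : ∀ s ∈ Ioo (0 : ℝ) r,
      IntegrableOn (fun ξ : ℂ => Real.log (s / ‖ξ‖) * (σ ξ * g ξ)) (ball 0 s) := by
    intro s hs
    apply kernel_integrable_bdd (hs.2.trans hr1) (F := fun ξ => σ ξ * g ξ) (hσ.mul hg)
      (K := C * (lam * (B / β + B / lam) + B + β * (B / β)))
    filter_upwards [hball s hs] with ξ hξ
    obtain ⟨h1, h2, h3, -⟩ := hξ
    have h4 : |w ξ| ≤ B / β + B / lam := by
      rw [abs_le]; constructor <;> linarith [h2.1, h2.2]
    have h5 : |max (-(w ξ)) 0| ≤ B / β := by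
      rw [abs_of_nonneg (le_max_right _ _)]
      exact max_le (by linarith [h2.1]) hBβ
    have h6 : g ξ = lam * w ξ - f ξ - β * max (-(w ξ)) 0 := by linarith
    rw [abs_mul, abs_of_nonneg h3.1, h6]
    gcongr
    · exact h3.2
    · calc |lam * w ξ - f ξ - β * max (-(w ξ)) 0|
          ≤ |lam * w ξ - f ξ| + |β * max (-(w ξ)) 0| := abs_sub _ _
        _ ≤ (|lam * w ξ| + |f ξ|) + |β * max (-(w ξ)) 0| := by
            gcongr; exact abs_sub _ _
        _ ≤ _ := by
            rw [abs_mul, abs_mul, abs_of_pos hlam, abs_of_pos hβ]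
            gcongr
            exact H5 ξ
  have hIf : ∀ s ∈ Ioo (0 : ℝ) r,
      IntegrableOn (fun ξ : ℂ => Real.log (s / ‖ξ‖) * (σ ξ * f ξ)) (ball 0 s) := by
    intro s hs
    apply kernel_integrable_bdd (hs.2.trans hr1) (F := fun ξ => σ ξ * f ξ) (hσ.mul hf) (K := C * B)
    filter_upwards [hball s hs] with ξ hξ
    rw [abs_mul, abs_of_nonneg hξ.2.2.1.1]
    gcongr
    · exact hξ.2.2.1.2
    · exact H5 ξ
  have hIw : ∀ s ∈ Ioo (0 : ℝ) r,
      IntegrableOn (fun ξ : ℂ => Real.log (s / ‖ξ‖) * (σ ξ * wp ξ)) (ball 0 s) := by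
    intro s hs
    apply kernel_integrable_bdd (hs.2.trans hr1) (F := fun ξ => σ ξ * wp ξ) (hσ.mul hwpm) (K := C * (B / lam))
    filter_upwards [hball s hs] with ξ hξ
    rw [abs_mul, abs_of_nonneg hξ.2.2.1.1, abs_of_nonneg (hwp0 _)]
    gcongr
    · exact hξ.2.2.1.2
    · exact max_le hξ.2.1.2 hBl
  -- step A
  have hA : ∀ Y : ℝ, 0 ≤ Y →
      (∀ᵐ τ ∂(volume.restrict (Ioo (0 : ℝ) r)), Real.circleAverage wp 0 τ ≤ Y) →
      ∀ᵐ τ ∂(volume.restrict (Ioo (0 : ℝ) r)), Real.circleAverage wp 0 τ ≤ D + lam * C * Y := by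
    intro Y hY hav
    filter_upwards [hcr', H1', ae_restrict_mem measurableSet_Ioo] with s h1 h2 hs
    have h3 := (hcirc s h1).1
    have hs1 : s < 1 := hs.2.trans hr1
    have h4 : ∫ ξ in ball (0 : ℂ) s, Real.log (s / ‖ξ‖) * (σ ξ * g ξ) ≤
        ∫ ξ in ball (0 : ℂ) s, (lam * (Real.log (s / ‖ξ‖) * (σ ξ * wp ξ)) +
          B * C * Real.log (s / ‖ξ‖)) := by
      apply integral_mono_ae (hIg s hs)
        (((hIw s hs).const_mul lam).add ((kernel_integrableOn hs1).const_mul (B * C)))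
      filter_upwards [hball s hs] with ξ hξ
      obtain ⟨a1, a2, a3, a4⟩ := hξ
      have a5 : g ξ = lam * w ξ - f ξ - β * max (-(w ξ)) 0 := by linarith
      have a6 : g ξ ≤ lam * wp ξ + B := by
        rw [a5]
        have b1 : w ξ ≤ wp ξ := le_max_left _ _
        have b2 : -f ξ ≤ B := by have := (abs_le.1 (H5 ξ)).1; linarith
        have b3 : 0 ≤ β * max (-(w ξ)) 0 := mul_nonneg hβ.le (le_max_right _ _)
        nlinarith
      calc Real.log (s / ‖ξ‖) * (σ ξ * g ξ) ≤ Real.log (s / ‖ξ‖) * (σ ξ * (lam * wp ξ + B)) := by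
            gcongr; exact a3.1
        _ = lam * (Real.log (s / ‖ξ‖) * (σ ξ * wp ξ)) + B * σ ξ * Real.log (s / ‖ξ‖) := by ring
        _ ≤ lam * (Real.log (s / ‖ξ‖) * (σ ξ * wp ξ)) + B * C * Real.log (s / ‖ξ‖) := by
            gcongr; exact a3.2
    rw [integral_add ((hIw s hs).const_mul lam) ((kernel_integrableOn hs1).const_mul (B * C)),
      integral_const_mul, integral_const_mul] at h4
    have h5 := hAp Y hY s hs hav
    have h6 := kernel_integral_le hs1
    have h7 : ∫ ξ in ball (0 : ℂ) s, Real.log (s / ‖ξ‖) * (σ ξ * g ξ) ≤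
        lam * (C * (2 * Real.pi * Y)) + B * C * (2 * Real.pi) := by
      calc _ ≤ _ := h4
        _ ≤ _ := by gcongr
    calc Real.circleAverage wp 0 s ≤ Real.circleAverage w 0 s + B / β := h3
      _ = c₀ + (1 / (2 * Real.pi) * ∫ ξ in ball (0 : ℂ) s, Real.log (s / ‖ξ‖) * (σ ξ * g ξ)) +
          B / β := by linarith
      _ ≤ 0 + (1 / (2 * Real.pi) * (lam * (C * (2 * Real.pi * Y)) + B * C * (2 * Real.pi))) +
          B / β := by gcongr
      _ = D + lam * C * Y := by rw [hD]; field_simp; ring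
  -- step B
  have hBstep : ∀ k : ℕ, ∀ᵐ τ ∂(volume.restrict (Ioo (0 : ℝ) r)),
      Real.circleAverage wp 0 τ ≤ 2 * D + (B / lam) / 2 ^ k := by
    intro k
    induction k with
    | zero =>
      filter_upwards [hcr'] with s h1
      have := (hcirc s h1).2.1
      simp only [pow_zero, div_one]
      linarith
    | succ k ih =>
      have h1 := hA (2 * D + (B / lam) / 2 ^ k) (by positivity) ih
      filter_upwards [h1] with s hs
      refine hs.trans ?_
      have h2 : 0 ≤ 2 * D + (B / lam) / 2 ^ k := by positivity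
      calc D + lam * C * (2 * D + B / lam / 2 ^ k) ≤ D + 1 / 2 * (2 * D + B / lam / 2 ^ k) := by
            gcongr
        _ = 2 * D + (B / lam) / 2 ^ (k + 1) := by rw [pow_succ]; field_simp; ring
  have hfinal : ∀ᵐ τ ∂(volume.restrict (Ioo (0 : ℝ) r)), Real.circleAverage wp 0 τ ≤ 2 * D := by
    filter_upwards [ae_all_iff.2 hBstep] with s hs
    have hl : Tendsto (fun k : ℕ => 2 * D + (B / lam) / 2 ^ k) atTop (𝓝 (2 * D + 0)) := by
      apply Tendsto.const_add
      apply Tendsto.div_atTop tendsto_const_nhds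
      exact tendsto_pow_atTop_atTop_of_one_lt (by norm_num)
    rw [add_zero] at hl
    exact ge_of_tendsto' hl hs
  -- step C
  filter_upwards [hcr', H1', ae_restrict_mem measurableSet_Ioo] with s h1 h2 hs
  have hs1 : s < 1 := hs.2.trans hr1
  have h3 := (hcirc s h1).2.2
  have h5 := hAp (2 * D) (by positivity) s hs hfinal
  have h4 : ∫ ξ in ball (0 : ℂ) s, Real.log (s / ‖ξ‖) * (σ ξ * f ξ) ≤
      ∫ ξ in ball (0 : ℂ) s, (lam * (Real.log (s / ‖ξ‖) * (σ ξ * wp ξ)) -
        Real.log (s / ‖ξ‖) * (σ ξ * g ξ)) := by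
    apply integral_mono_ae (hIf s hs) (((hIw s hs).const_mul lam).sub (hIg s hs))
    filter_upwards [hball s hs] with ξ hξ
    obtain ⟨a1, a2, a3, a4⟩ := hξ
    have a5 : f ξ ≤ lam * wp ξ - g ξ := by
      have b1 : w ξ ≤ wp ξ := le_max_left _ _
      have b3 : 0 ≤ β * max (-(w ξ)) 0 := mul_nonneg hβ.le (le_max_right _ _)
      nlinarith
    show Real.log (s / ‖ξ‖) * (σ ξ * f ξ) ≤ lam * (Real.log (s / ‖ξ‖) * (σ ξ * wp ξ)) -
        Real.log (s / ‖ξ‖) * (σ ξ * g ξ)
    calc Real.log (s / ‖ξ‖) * (σ ξ * f ξ) ≤ Real.log (s / ‖ξ‖) * (σ ξ * (lam * wp ξ - g ξ)) := by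
          gcongr; exact a3.1
      _ = _ := by ring
  rw [integral_sub ((hIw s hs).const_mul lam) (hIg s hs), integral_const_mul] at h4
  have h6 : ∫ ξ in ball (0 : ℂ) s, Real.log (s / ‖ξ‖) * (σ ξ * f ξ) ≤
      lam * (C * (2 * Real.pi * (2 * D))) -
        ∫ ξ in ball (0 : ℂ) s, Real.log (s / ‖ξ‖) * (σ ξ * g ξ) := by
    calc _ ≤ _ := h4
      _ ≤ _ := by gcongr
  calc 1 / (2 * Real.pi) * ∫ ξ in ball (0 : ℂ) s, Real.log (s / ‖ξ‖) * (σ ξ * f ξ)
      ≤ 1 / (2 * Real.pi) * (lam * (C * (2 * Real.pi * (2 * D))) -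
        ∫ ξ in ball (0 : ℂ) s, Real.log (s / ‖ξ‖) * (σ ξ * g ξ)) := by gcongr
    _ = lam * C * (2 * D) - (1 / (2 * Real.pi) *
        ∫ ξ in ball (0 : ℂ) s, Real.log (s / ‖ξ‖) * (σ ξ * g ξ)) := by field_simp
    _ = lam * C * (2 * D) - (Real.circleAverage w 0 s - c₀) := by rw [h2]
    _ ≤ lam * C * (2 * D) + B / β := by linarith

end Pool.Agent.H45.Nev
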