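import Pool.Agent.H45.Nev.Plane0

/-!
# Second derivatives and holomorphic maps
-/

open MeasureTheory Set Metric Filter Topology
open scoped ContDiff

namespace Pool.Agent.H45.Nev

variable {E : Type*} [NormedAddCommGroup E] [NormedSpace ℂ E]
  {E' : Type*} [NormedAddCommGroup E'] [NormedSpace ℂ E']

/-- second derivative of a composition with a holomorphic map -/
lemma snd_comp {f : E → ℝ} {G : E' → E} {y : E'} (hf : ContDiffAt ℝ 2 f (G y))
    (hG : ContDiffAt ℂ 2 G y) (v w : E') :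
    fderiv ℝ (fderiv ℝ (f ∘ G)) y v w =
      fderiv ℝ (fderiv ℝ f) (G y) (fderiv ℂ G y v) (fderiv ℂ G y w) +
        fderiv ℝ f (G y) (fderiv ℂ (fderiv ℂ G) y v w) := by
  have hG1 : ∀ᶠ z in 𝓝 y, ContDiffAt ℂ 2 G z :=
    hG.eventually (by simp)
  have hf1 : ∀ᶠ x in 𝓝 (G y), ContDiffAt ℝ 2 f x := hf.eventually (by simp)
  have hf2 : ∀ᶠ z in 𝓝 y, ContDiffAt ℝ 2 f (G z) := hG.continuousAt.eventually hf1
  have hev : fderiv ℝ (f ∘ G) =ᶠ[𝓝 y]
      fun z => (fderiv ℝ f (G z)).comp ((fderiv ℂ G z).restrictScalars ℝ) := by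
    filter_upwards [hG1, hf2] with z hz hz'
    have h1 : HasFDerivAt G ((fderiv ℂ G z).restrictScalars ℝ) z :=
      (hz.differentiableAt (by norm_num)).hasFDerivAt.restrictScalars ℝ
    have h2 := (hz'.differentiableAt (by norm_num)).hasFDerivAt
    exact (h2.comp z h1).fderiv
  rw [hev.fderiv_eq]
  have hGd : HasFDerivAt (fun z => (fderiv ℂ G z).restrictScalars ℝ)
      ((ContinuousLinearMap.restrictScalarsL ℂ E' E ℝ ℝ).comp
        ((fderiv ℂ (fderiv ℂ G) y).restrictScalars ℝ)) y := by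
    have h1 : DifferentiableAt ℂ (fderiv ℂ G) y :=
      (hG.fderiv_right (m := 1) (by norm_num)).differentiableAt (by norm_num)
    have h2 := h1.hasFDerivAt.restrictScalars ℝ
    exact (ContinuousLinearMap.restrictScalarsL ℂ E' E ℝ ℝ).hasFDerivAt.comp y h2
  have hfd : HasFDerivAt (fun z => fderiv ℝ f (G z))
      ((fderiv ℝ (fderiv ℝ f) (G y)).comp ((fderiv ℂ G y).restrictScalars ℝ)) y := by
    have h1 : DifferentiableAt ℝ (fderiv ℝ f) (G y) :=
      (hf.fderiv_right (m := 1) (by norm_num)).differentiableAt (by norm_num)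
    have h2 : HasFDerivAt G ((fderiv ℂ G y).restrictScalars ℝ) y :=
      (hG.differentiableAt (by norm_num)).hasFDerivAt.restrictScalars ℝ
    exact h1.hasFDerivAt.comp y h2
  have h := (hfd.clm_comp hGd).fderiv
  rw [h]
  simp [ContinuousLinearMap.compL]
  ring

/-- symmetric part of the Levi form: `4 Re ∑ f_{j k̄} v_j w̄_k` -/
noncomputable def levS (f : E → ℝ) (x v w : E) : ℝ :=
  fderiv ℝ (fderiv ℝ f) x v w + fderiv ℝ (fderiv ℝ f) x (Complex.I • v) (Complex.I • w)

/-- antisymmetric part of the Levi form: `4 Im ∑ f_{j k̄} v_j w̄_k` -/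
noncomputable def levA (f : E → ℝ) (x v w : E) : ℝ :=
  fderiv ℝ (fderiv ℝ f) x v (Complex.I • w) - fderiv ℝ (fderiv ℝ f) x (Complex.I • v) w

lemma levS_comp {f : E → ℝ} {G : E' → E} {y : E'} (hf : ContDiffAt ℝ 2 f (G y))
    (hG : ContDiffAt ℂ 2 G y) (v w : E') :
    levS (f ∘ G) y v w = levS f (G y) (fderiv ℂ G y v) (fderiv ℂ G y w) := by
  unfold levS
  rw [snd_comp hf hG, snd_comp hf hG]
  have : fderiv ℂ (fderiv ℂ G) y (Complex.I • v) (Complex.I • w) =
      -(fderiv ℂ (fderiv ℂ G) y v w) := by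
    rw [map_smul, map_smul, smul_apply, smul_smul, Complex.I_mul_I, neg_one_smul]
  have hv : fderiv ℂ G y (Complex.I • v) = Complex.I • fderiv ℂ G y v := map_smul _ _ _
  have hw : fderiv ℂ G y (Complex.I • w) = Complex.I • fderiv ℂ G y w := map_smul _ _ _
  rw [this, map_neg, hv, hw]
  ring

lemma levA_comp {f : E → ℝ} {G : E' → E} {y : E'} (hf : ContDiffAt ℝ 2 f (G y))
    (hG : ContDiffAt ℂ 2 G y) (v w : E') :
    levA (f ∘ G) y v w = levA f (G y) (fderiv ℂ G y v) (fderiv ℂ G y w) := by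
  unfold levA
  rw [snd_comp hf hG, snd_comp hf hG]
  have : fderiv ℂ (fderiv ℂ G) y (Complex.I • v) w =
      fderiv ℂ (fderiv ℂ G) y v (Complex.I • w) := by
    rw [map_smul, map_smul, smul_apply]
  have hv : fderiv ℂ G y (Complex.I • v) = Complex.I • fderiv ℂ G y v := map_smul _ _ _
  have hw : fderiv ℂ G y (Complex.I • w) = Complex.I • fderiv ℂ G y w := map_smul _ _ _
  rw [this, hv, hw]
  ring

/-- squared length of the real gradient in the complex direction `v` -/
noncomputable def grd (f : E → ℝ) (x v : E) : ℝ :=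
  (fderiv ℝ f x v) ^ 2 + (fderiv ℝ f x (Complex.I • v)) ^ 2

lemma grd_comp {f : E → ℝ} {G : E' → E} {y : E'} (hf : DifferentiableAt ℝ f (G y))
    (hG : DifferentiableAt ℂ G y) (v : E') :
    grd (f ∘ G) y v = grd f (G y) (fderiv ℂ G y v) := by
  unfold grd
  have h1 : HasFDerivAt G ((fderiv ℂ G y).restrictScalars ℝ) y :=
    hG.hasFDerivAt.restrictScalars ℝ
  rw [(hf.hasFDerivAt.comp y h1).fderiv]
  simp

lemma levS_symm {f : E → ℝ} {x : E} (hf : ContDiffAt ℝ 2 f x) (v w : E) :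
    levS f x v w = levS f x w v := by
  have h : ∀ a b, fderiv ℝ (fderiv ℝ f) x a b = fderiv ℝ (fderiv ℝ f) x b a :=
    fun a b => (hf.isSymmSndFDerivAt (by simp)) a b
  unfold levS
  rw [h v w, h (Complex.I • v) (Complex.I • w)]

lemma levA_symm {f : E → ℝ} {x : E} (hf : ContDiffAt ℝ 2 f x) (v w : E) :
    levA f x v w = -levA f x w v := by
  have h : ∀ a b, fderiv ℝ (fderiv ℝ f) x a b = fderiv ℝ (fderiv ℝ f) x b a :=
    fun a b => (hf.isSymmSndFDerivAt (by simp)) a b
  unfold levA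
  rw [h v (Complex.I • w), h (Complex.I • v) w]; ring

lemma levA_self {f : E → ℝ} {x : E} (hf : ContDiffAt ℝ 2 f x) (v : E) :
    levA f x v v = 0 := by
  have := levA_symm hf v v
  linarith

lemma lap_eq_levS (w : ℂ → ℝ) (z : ℂ) : lap w z = levS w z 1 1 := by
  unfold lap levS; simp

/-- conformal invariance of the Laplacian, general form -/
lemma lap_comp {f : E → ℝ} {G : ℂ → E} {z : ℂ} (hf : ContDiffAt ℝ 2 f (G z))
    (hG : ContDiffAt ℂ 2 G z) :
    lap (f ∘ G) z = levS f (G z) (deriv G z) (deriv G z) := by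
  rw [lap_eq_levS, levS_comp hf hG]
  rfl

/-- linearity of `levS` in complex multiples -/
lemma levS_smul {f : E → ℝ} {x : E} (hf : ContDiffAt ℝ 2 f x) (c : ℂ) (v : E) :
    levS f x (c • v) (c • v) = ‖c‖ ^ 2 * levS f x v v := by
  have h : ∀ a b, fderiv ℝ (fderiv ℝ f) x a b = fderiv ℝ (fderiv ℝ f) x b a :=
    fun a b => (hf.isSymmSndFDerivAt (by simp)) a b
  unfold levS
  have hc : c • v = (c.re : ℝ) • v + (c.im : ℝ) • (Complex.I • v) := by
    have := Complex.re_add_im c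
    conv_lhs => rw [← this]
    rw [add_smul, mul_smul]
    simp
  have hIc : Complex.I • (c • v) = (c.re : ℝ) • (Complex.I • v) - (c.im : ℝ) • v := by
    rw [hc, smul_add, smul_comm Complex.I (c.re : ℝ) v, smul_comm Complex.I (c.im : ℝ), smul_smul,
      Complex.I_mul_I]
    simp [sub_eq_add_neg]
  rw [hIc, hc]
  simp only [map_add, map_sub, map_smul, add_apply, sub_apply, smul_apply, smul_eq_mul]
  rw [h (Complex.I • v) v]
  have : ‖c‖ ^ 2 = c.re ^ 2 + c.im ^ 2 := by
    rw [← Complex.normSq_eq_norm_sq, Complex.normSq_apply]; ring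
  rw [this]
  ring

end Pool.Agent.H45.Nev
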