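import Mathlib

/-!
# Singular holomorphic foliations by Riemann surfaces, directed currents, Nevanlinna currents

`M` is a complex manifold modelled on the finite dimensional complex vector space `E`
(holomorphic charts: `IsManifold 𝓘(ℂ, E) ω M`).
-/

open MeasureTheory Set Metric Filter Topology
open scoped Manifold ContDiff

namespace Pool.Agent.H45.Nev

section Forms

variable (E : Type*) [NormedAddCommGroup E] [NormedSpace ℂ E]
  (M : Type*) [TopologicalSpace M] [ChartedSpace E M]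

/-- A `(1,1)`-form `θ = (i/2) ∑ θ_{jk} dz_j ∧ dz̄_k` is encoded by the sesquilinear forms
`θ_x(v, w) = ∑ θ_{jk} v_j w̄_k` on the (holomorphic) tangent spaces. -/
abbrev SesqField : Type _ :=
  ∀ x : M, TangentSpace 𝓘(ℂ, E) x →ₗ[ℂ] TangentSpace 𝓘(ℂ, E) x →ₗ⋆[ℂ] ℂ

variable {E M}

/-- The coefficient function of `θ` in the chart `e`, in the directions `v`, `w`. -/
noncomputable def inChart (e : OpenPartialHomeomorph M E) (θ : SesqField E M) (v w y : E) : ℂ :=
  θ (e.symm y) (mfderiv 𝓘(ℂ, E) 𝓘(ℂ, E) e.symm y v) (mfderiv 𝓘(ℂ, E) 𝓘(ℂ, E) e.symm y w)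

variable (E M)

/-- The space of smooth complex `(1,1)`-forms on `M`: the coefficients in all holomorphic charts
are `C^∞`. -/
def Form11 : Submodule ℂ (SesqField E M) where
  carrier := {θ | ∀ e ∈ IsManifold.maximalAtlas 𝓘(ℂ, E) ω M, ∀ v w : E,
    ContDiffOn ℝ ∞ (inChart e θ v w) e.target}
  add_mem' := by
    intro a b ha hb e he v w
    have : inChart e (a + b) v w = fun y => inChart e a v w y + inChart e b v w y := by
      ext y; simp [inChart]
    rw [this]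
    exact (ha e he v w).add (hb e he v w)
  zero_mem' := by
    intro e he v w
    have : inChart e (0 : SesqField E M) v w = fun y => 0 := by
      ext y; simp [inChart]
    rw [this]
    exact contDiffOn_const
  smul_mem' := by
    intro c a ha e he v w
    have : inChart e (c • a) v w = fun y => c * inChart e a v w y := by
      ext y; simp [inChart]
    rw [this]
    exact contDiffOn_const.mul (ha e he v w)

variable {E M}

/-- `θ ≥ 0`. -/
def IsNonneg (θ : Form11 E M) : Prop :=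
  ∀ (x : M) (v : TangentSpace 𝓘(ℂ, E) x), 0 ≤ (θ.1 x v v).re ∧ (θ.1 x v v).im = 0

/-- `κ > 0`: `κ` is the fundamental form of a smooth Hermitian metric on `M`. -/
def IsHermitianMetric (κ : Form11 E M) : Prop :=
  ∀ (x : M) (v : TangentSpace 𝓘(ℂ, E) x), v ≠ 0 → 0 < (κ.1 x v v).re ∧ (κ.1 x v v).im = 0

/-- Smooth real functions on `M`. -/
def IsSmooth (E : Type*) [NormedAddCommGroup E] [NormedSpace ℂ E]
    {M : Type*} [TopologicalSpace M] [ChartedSpace E M] (u : M → ℝ) : Prop :=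
  ContMDiff 𝓘(ℝ, E) 𝓘(ℝ, ℝ) ∞ u

/-- `θ = dd^c u` with `dd^c = (i/π) ∂∂̄`: in every holomorphic chart the coefficients are
`θ(v, w) = (2/π) ∑ ∂²u/∂z_j∂z̄_k v_j w̄_k`, written with real second derivatives. -/
def IsDdc (u : M → ℝ) (θ : Form11 E M) : Prop :=
  ∀ e ∈ IsManifold.maximalAtlas 𝓘(ℂ, E) ω M, ∀ y ∈ e.target, ∀ v w : E,
    inChart e θ.1 v w y =
      1 / (2 * Real.pi) *
        ((fderiv ℝ (fderiv ℝ (u ∘ e.symm)) y v w +
            fderiv ℝ (fderiv ℝ (u ∘ e.symm)) y (Complex.I • v) (Complex.I • w) : ℝ) +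
          Complex.I * (fderiv ℝ (fderiv ℝ (u ∘ e.symm)) y v (Complex.I • w) -
            fderiv ℝ (fderiv ℝ (u ∘ e.symm)) y (Complex.I • v) w : ℝ))

/-- A positive current of bidimension `(1,1)`: a linear functional on the smooth
`(1,1)`-forms, nonnegative on nonnegative forms (such a functional is automatically continuous). -/
def IsPositive (T : Form11 E M →ₗ[ℂ] ℂ) : Prop :=
  ∀ θ : Form11 E M, IsNonneg θ → 0 ≤ (T θ).re ∧ (T θ).im = 0

/-- `dd^c T = 0`. -/
def IsDdcClosed (T : Form11 E M →ₗ[ℂ] ℂ) : Prop :=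
  ∀ u : M → ℝ, IsSmooth E u → ∀ θ : Form11 E M, IsDdc u θ → T θ = 0

/-- `μ` is the trace measure `T ∧ κ` of `T`. -/
def IsTraceMeasure [MeasurableSpace M] (T : Form11 E M →ₗ[ℂ] ℂ) (κ : Form11 E M)
    (μ : Measure M) : Prop :=
  ∀ f : M → ℝ, IsSmooth E f → ∀ θ : Form11 E M, (∀ x v w, θ.1 x v w = f x * κ.1 x v w) →
    T θ = (∫ x, f x ∂μ : ℝ)

end Forms

section Foliation

variable (E : Type*) [NormedAddCommGroup E] [NormedSpace ℂ E]
  (M : Type*) [TopologicalSpace M] [ChartedSpace E M]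

/-- A singular holomorphic foliation by Riemann surfaces: an open cover `U i` with holomorphic
vector fields `X i` on `U i`, such that `X i = g i j • X j` on overlaps with nowhere vanishing
holomorphic functions `g i j`; near each regular point there is a flow box, i.e. a holomorphic
chart in which the leaves are the complex lines in a fixed direction `v`. -/
structure SingFoliation where
  /-- index set of the cover -/
  ι : Type
  /-- the cover -/
  U : ι → Set M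
  isOpen_U : ∀ i, IsOpen (U i)
  cover : ∀ x, ∃ i, x ∈ U i
  /-- the generating vector fields -/
  X : ι → (x : M) → TangentSpace 𝓘(ℂ, E) x
  /-- they are holomorphic -/
  holo : ∀ i, ∀ e ∈ IsManifold.maximalAtlas 𝓘(ℂ, E) ω M,
    DifferentiableOn ℂ (fun y : E => (mfderiv 𝓘(ℂ, E) 𝓘(ℂ, E) e (e.symm y) (X i (e.symm y)) : E))
      (e.target ∩ e.symm ⁻¹' U i)
  /-- the transition functions -/
  g : ι → ι → M → ℂ
  g_holo : ∀ i j, MDifferentiableOn 𝓘(ℂ, E) 𝓘(ℂ, ℂ) (g i j) (U i ∩ U j)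
  g_ne : ∀ i j, ∀ x ∈ U i ∩ U j, g i j x ≠ 0
  X_eq : ∀ i j, ∀ x ∈ U i ∩ U j, X i x = g i j x • X j x
  /-- flow boxes at the regular points -/
  flowBox : ∀ x, (∃ i, x ∈ U i ∧ X i x ≠ 0) →
    ∃ e ∈ IsManifold.maximalAtlas 𝓘(ℂ, E) ω M, x ∈ e.source ∧ ∃ v : E, v ≠ 0 ∧
      ∀ i, ∀ y ∈ e.source ∩ U i, ∃ c : ℂ, c ≠ 0 ∧
        (mfderiv 𝓘(ℂ, E) 𝓘(ℂ, E) e y (X i y) : E) = c • v

variable {E M}

/-- The singular set `E` of the foliation: the common zeros of the generating vector fields. -/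
def SingFoliation.sing (F : SingFoliation E M) : Set M :=
  {x | ∃ i, x ∈ F.U i ∧ F.X i x = 0}

/-- `v` is tangent to the foliation at `x`. -/
def SingFoliation.Tangent (F : SingFoliation E M) (x : M) (v : TangentSpace 𝓘(ℂ, E) x) : Prop :=
  ∃ i, x ∈ F.U i ∧ ∃ c : ℂ, v = c • F.X i x

/-- `T` is directed by the foliation: `T ∧ α = 0` for all smooth `(1,0)`-forms `α` vanishing on
the leaves; equivalently `T(θ) = 0` for each smooth `(1,1)`-form `θ` with `θ(v, ·) = 0` for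
all vectors `v` tangent to the leaves (locally `θ` is a combination of forms `α ∧ β̄`). -/
def SingFoliation.IsDirected (F : SingFoliation E M) (T : Form11 E M →ₗ[ℂ] ℂ) : Prop :=
  ∀ θ : Form11 E M, (∀ x ∉ F.sing, ∀ v w, F.Tangent x v → θ.1 x v w = 0) → T θ = 0

/-- Positive `dd^c`-closed currents directed by the foliation. -/
def SingFoliation.IsHarmonicCurrent (F : SingFoliation E M) (T : Form11 E M →ₗ[ℂ] ℂ) : Prop :=
  IsPositive T ∧ IsDdcClosed T ∧ F.IsDirected T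

/-- `T` is extremal among the positive `dd^c`-closed currents directed by the foliation. -/
def SingFoliation.IsExtremal (F : SingFoliation E M) (T : Form11 E M →ₗ[ℂ] ℂ) : Prop :=
  F.IsHarmonicCurrent T ∧ ∀ T₁ T₂ : Form11 E M →ₗ[ℂ] ℂ,
    F.IsHarmonicCurrent T₁ → F.IsHarmonicCurrent T₂ → T = T₁ + T₂ → ∃ c : ℝ, T₁ = (c : ℂ) • T

/-- A holomorphic map from the unit disc to a leaf of the foliation on the complement of the
singular set (only the values of `φ` on the unit disc matter). -/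
structure SingFoliation.IsLeafDisc (F : SingFoliation E M) (φ : ℂ → M) : Prop where
  holo : MDifferentiableOn 𝓘(ℂ, ℂ) 𝓘(ℂ, E) φ (ball 0 1)
  notMem : ∀ ξ ∈ ball (0 : ℂ) 1, φ ξ ∉ F.sing
  tangent : ∀ ξ ∈ ball (0 : ℂ) 1, F.Tangent (φ ξ) (mfderiv 𝓘(ℂ, ℂ) 𝓘(ℂ, E) φ ξ (1 : ℂ))

/-- `φ : 𝔻 → L` is a universal covering of a leaf `L`: it is an unramified holomorphic map to
the leaf through which all holomorphic maps from the disc to the leaf lift, with any prescribed
initial value of the lift. -/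
structure SingFoliation.IsUniversalCovering (F : SingFoliation E M) (φ : ℂ → M) : Prop
    extends F.IsLeafDisc φ where
  unramified : ∀ ξ ∈ ball (0 : ℂ) 1, mfderiv 𝓘(ℂ, ℂ) 𝓘(ℂ, E) φ ξ (1 : ℂ) ≠ 0
  lift : ∀ ψ : ℂ → M, F.IsLeafDisc ψ → ∀ ξ ∈ ball (0 : ℂ) 1, ψ 0 = φ ξ →
    ∃ h : ℂ → ℂ, DifferentiableOn ℂ h (ball 0 1) ∧ MapsTo h (ball 0 1) (ball 0 1) ∧ h 0 = ξ ∧
      ∀ ζ ∈ ball (0 : ℂ) 1, φ (h ζ) = ψ ζ

/-- `∫₀ʳ (∫_{|ξ| < t} φ^*θ) dt / t`. -/
noncomputable def nevInt (φ : ℂ → M) (θ : Form11 E M) (r : ℝ) : ℂ :=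
  ∫ t in Ioo (0 : ℝ) r, (∫ ξ in ball (0 : ℂ) t,
    θ.1 (φ ξ) (mfderiv 𝓘(ℂ, ℂ) 𝓘(ℂ, E) φ ξ (1 : ℂ)) (mfderiv 𝓘(ℂ, ℂ) 𝓘(ℂ, E) φ ξ (1 : ℂ))) / t

/-- The Nevanlinna current `τ_r = T(r)⁻¹ ∫₀ʳ φ_*[𝔻(t)] dt / t`, where `T(r) = nevInt φ κ r` is
the Nevanlinna characteristic. -/
noncomputable def nevCurrent (κ : Form11 E M) (φ : ℂ → M) (r : ℝ) (θ : Form11 E M) : ℂ :=
  nevInt φ θ r / nevInt φ κ r

end Foliation

end Pool.Agent.H45.Nev
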