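import Pool.Agent.H45.Nev.Base1
import Pool.Agent.H45.Nev.Defs

/-!
# The underlying real manifold; derivatives of maps into `M`
-/

open MeasureTheory Set Metric Filter Topology
open scoped ContDiff Manifold

namespace Pool.Agent.H45.Nev

section
variable {𝕜 : Type*} [NontriviallyNormedField 𝕜] {E : Type*} [NormedAddCommGroup E]
  [NormedSpace 𝕜 E]

lemma mem_contDiffGroupoid_self {n : WithTop ℕ∞} {e : OpenPartialHomeomorph E E} :
    e ∈ contDiffGroupoid n 𝓘(𝕜, E) ↔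
      ContDiffOn 𝕜 n e e.source ∧ ContDiffOn 𝕜 n e.symm e.target := by
  rw [contDiffGroupoid, mem_groupoid_of_pregroupoid]
  simp [contDiffPregroupoid]

end

variable {E : Type*} [NormedAddCommGroup E] [NormedSpace ℂ E]
  {M : Type*} [TopologicalSpace M] [ChartedSpace E M]

lemma contDiffGroupoid_real {e : OpenPartialHomeomorph E E}
    (he : e ∈ contDiffGroupoid ω 𝓘(ℂ, E)) : e ∈ contDiffGroupoid ∞ 𝓘(ℝ, E) := by
  rw [mem_contDiffGroupoid_self] at he ⊢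
  exact ⟨(he.1.restrict_scalars ℝ).of_le le_top, (he.2.restrict_scalars ℝ).of_le le_top⟩

theorem isManifold_real [IsManifold 𝓘(ℂ, E) ω M] : IsManifold 𝓘(ℝ, E) ∞ M := by
  have h : HasGroupoid M (contDiffGroupoid ω 𝓘(ℂ, E)) := inferInstance
  have : HasGroupoid M (contDiffGroupoid ∞ 𝓘(ℝ, E)) :=
    ⟨fun he he' => contDiffGroupoid_real (h.compatible he he')⟩
  exact IsManifold.mk' _ _ _

lemma mem_maximalAtlas_real [IsManifold 𝓘(ℂ, E) ω M] {e : OpenPartialHomeomorph M E}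
    (he : e ∈ IsManifold.maximalAtlas 𝓘(ℂ, E) ω M) :
    e ∈ IsManifold.maximalAtlas 𝓘(ℝ, E) ∞ M := by
  rw [IsManifold.maximalAtlas, mem_maximalAtlas_iff] at he ⊢
  intro e' he'
  exact ⟨contDiffGroupoid_real (he e' he').1, contDiffGroupoid_real (he e' he').2⟩

/-- smooth functions read in holomorphic charts -/
lemma IsSmooth.chart [IsManifold 𝓘(ℂ, E) ω M] {u : M → ℝ} (hu : IsSmooth E u)
    {e : OpenPartialHomeomorph M E} (he : e ∈ IsManifold.maximalAtlas 𝓘(ℂ, E) ω M) :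
    ContDiffOn ℝ ∞ (u ∘ e.symm) e.target := by
  have := isManifold_real (E := E) (M := M)
  have h1 := contMDiffOn_symm_of_mem_maximalAtlas (mem_maximalAtlas_real he)
  have h2 : ContMDiffOn 𝓘(ℝ, E) 𝓘(ℝ, ℝ) ∞ (u ∘ e.symm) e.target :=
    (ContMDiff.contMDiffOn hu (s := univ)).comp h1 (fun _ _ => mem_univ _)
  exact contMDiffOn_iff_contDiffOn.1 h2

/-- criterion for smoothness -/
lemma isSmooth_of_chart [IsManifold 𝓘(ℂ, E) ω M] {u : M → ℝ}
    (h : ∀ x, ∃ e ∈ IsManifold.maximalAtlas 𝓘(ℂ, E) ω M, x ∈ e.source ∧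
      ∀ᶠ y in 𝓝 (e x), ContDiffAt ℝ ∞ (u ∘ e.symm) y) : IsSmooth E u := by
  have := isManifold_real (E := E) (M := M)
  intro x
  obtain ⟨e, he, hx, hy⟩ := h x
  have h1 : ContMDiffAt 𝓘(ℝ, E) 𝓘(ℝ, E) ∞ e x :=
    contMDiffAt_of_mem_maximalAtlas (mem_maximalAtlas_real he) hx
  have h2 : ContMDiffAt 𝓘(ℝ, E) 𝓘(ℝ, ℝ) ∞ (u ∘ e.symm) (e x) :=
    hy.self_of_nhds.contMDiffAt
  have h3 := h2.comp x h1
  refine h3.congr_of_eventuallyEq ?_
  filter_upwards [e.open_source.mem_nhds hx] with z hz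
  simp [e.left_inv hz]

lemma chartAt_mem_max [IsManifold 𝓘(ℂ, E) ω M] (x : M) :
    chartAt E x ∈ IsManifold.maximalAtlas 𝓘(ℂ, E) ω M :=
  IsManifold.chart_mem_maximalAtlas x

/-- coordinate changes are analytic -/
lemma contDiffAt_coord [IsManifold 𝓘(ℂ, E) ω M] {e e' : OpenPartialHomeomorph M E}
    (he : e ∈ IsManifold.maximalAtlas 𝓘(ℂ, E) ω M)
    (he' : e' ∈ IsManifold.maximalAtlas 𝓘(ℂ, E) ω M) {y : E} (hy : y ∈ e.target)
    (hy' : e.symm y ∈ e'.source) : ContDiffAt ℂ ω (e' ∘ e.symm) y := by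
  have h := (contDiffGroupoid ω 𝓘(ℂ, E)).compatible_of_mem_maximalAtlas he he'
  rw [mem_contDiffGroupoid_self] at h
  have hy2 : y ∈ (e.symm ≫ₕ e').source := by
    rw [OpenPartialHomeomorph.trans_source]
    exact ⟨hy, hy'⟩
  exact h.1.contDiffAt ((e.symm ≫ₕ e').open_source.mem_nhds hy2)

/-- the derivative of the inverse of a holomorphic chart -/
lemma mfderiv_symm_eq [IsManifold 𝓘(ℂ, E) ω M] {e : OpenPartialHomeomorph M E}
    (he : e ∈ IsManifold.maximalAtlas 𝓘(ℂ, E) ω M) {y : E} (hy : y ∈ e.target) :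
    (mfderiv 𝓘(ℂ, E) 𝓘(ℂ, E) e.symm y : E →L[ℂ] E) =
      fderiv ℂ (chartAt E (e.symm y) ∘ e.symm) y := by
  have h1 : MDifferentiableAt 𝓘(ℂ, E) 𝓘(ℂ, E) e.symm y :=
    ((contMDiffOn_symm_of_mem_maximalAtlas he).contMDiffAt
      (e.open_target.mem_nhds hy)).mdifferentiableAt (by simp)
  refine h1.mfderiv.trans ?_
  simp only [writtenInExtChartAt, extChartAt, mfld_simps, modelWithCornersSelf_coe, range_id,
    fderivWithin_univ]
  try rfl

/-- the derivative of a holomorphic chart -/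
lemma mfderiv_chart_eq [IsManifold 𝓘(ℂ, E) ω M] {e : OpenPartialHomeomorph M E}
    (he : e ∈ IsManifold.maximalAtlas 𝓘(ℂ, E) ω M) {x : M} (hx : x ∈ e.source) :
    (mfderiv 𝓘(ℂ, E) 𝓘(ℂ, E) e x : E →L[ℂ] E) =
      fderiv ℂ (e ∘ (chartAt E x).symm) (chartAt E x x) := by
  have h1 : MDifferentiableAt 𝓘(ℂ, E) 𝓘(ℂ, E) e x :=
    (contMDiffAt_of_mem_maximalAtlas he hx).mdifferentiableAt (by simp)
  refine h1.mfderiv.trans ?_
  simp only [writtenInExtChartAt, extChartAt, mfld_simps, modelWithCornersSelf_coe, range_id,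
    fderivWithin_univ]
  try rfl

/-- the derivative of a holomorphic map from the plane -/
lemma mfderiv_curve_eq {φ : ℂ → M} {ξ : ℂ} (h : MDifferentiableAt 𝓘(ℂ, ℂ) 𝓘(ℂ, E) φ ξ) :
    (mfderiv 𝓘(ℂ, ℂ) 𝓘(ℂ, E) φ ξ : ℂ →L[ℂ] E) = fderiv ℂ (chartAt E (φ ξ) ∘ φ) ξ := by
  refine h.mfderiv.trans ?_
  simp only [writtenInExtChartAt, extChartAt, mfld_simps, modelWithCornersSelf_coe, range_id,
    fderivWithin_univ]
  try rfl

end Pool.Agent.H45.Nev
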