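import Pool.Agent.H45.Nev.Base2

/-!
# The Levi form of a smooth function on `M`, in charts and along holomorphic curves
-/

open MeasureTheory Set Metric Filter Topology
open scoped ContDiff Manifold

namespace Pool.Agent.H45.Nev

variable {E : Type*} [NormedAddCommGroup E] [NormedSpace ℂ E]
  {M : Type*} [TopologicalSpace M] [ChartedSpace E M]

/-- Levi form at `x`, computed in the preferred chart at `x` (symmetric part) -/
noncomputable def mLevS (u : M → ℝ) (x : M) (v w : TangentSpace 𝓘(ℂ, E) x) : ℝ :=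
  levS (u ∘ (chartAt E x).symm) (chartAt E x x) (v : E) (w : E)

/-- Levi form at `x` (antisymmetric part) -/
noncomputable def mLevA (u : M → ℝ) (x : M) (v w : TangentSpace 𝓘(ℂ, E) x) : ℝ :=
  levA (u ∘ (chartAt E x).symm) (chartAt E x x) (v : E) (w : E)

/-- squared gradient at `x` in the complex direction `v` -/
noncomputable def mGrd (u : M → ℝ) (x : M) (v : TangentSpace 𝓘(ℂ, E) x) : ℝ :=
  grd (u ∘ (chartAt E x).symm) (chartAt E x x) (v : E)

variable [IsManifold 𝓘(ℂ, E) ω M]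

lemma IsSmooth.contDiffAt_symm {u : M → ℝ} (hu : IsSmooth E u)
    {e : OpenPartialHomeomorph M E} (he : e ∈ IsManifold.maximalAtlas 𝓘(ℂ, E) ω M) {y : E}
    (hy : y ∈ e.target) : ContDiffAt ℝ ∞ (u ∘ e.symm) y :=
  (hu.chart he).contDiffAt (e.open_target.mem_nhds hy)

lemma mLevS_chart {u : M → ℝ} {e : OpenPartialHomeomorph M E}
    (he : e ∈ IsManifold.maximalAtlas 𝓘(ℂ, E) ω M) {y : E} (hy : y ∈ e.target)
    (hu : ContDiffAt ℝ 2 (u ∘ (chartAt E (e.symm y)).symm) (chartAt E (e.symm y) (e.symm y)))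
    (v w : E) :
    levS (u ∘ e.symm) y v w = mLevS u (e.symm y)
      (mfderiv 𝓘(ℂ, E) 𝓘(ℂ, E) e.symm y v) (mfderiv 𝓘(ℂ, E) 𝓘(ℂ, E) e.symm y w) := by
  set x := e.symm y with hx
  have hG : ContDiffAt ℂ ω (chartAt E x ∘ e.symm) y :=
    contDiffAt_coord he (chartAt_mem_max x) hy (mem_chart_source E x)
  have hev : u ∘ e.symm =ᶠ[𝓝 y] (u ∘ (chartAt E x).symm) ∘ (chartAt E x ∘ e.symm) := by
    have hc : ContinuousAt e.symm y := e.continuousAt_symm hy
    filter_upwards [hc.preimage_mem_nhds ((chartAt E x).open_source.mem_nhds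
      (mem_chart_source E x))] with z hz
    simp only [Function.comp_apply]
    rw [(chartAt E x).left_inv hz]
  have h1 : levS (u ∘ e.symm) y v w =
      levS ((u ∘ (chartAt E x).symm) ∘ (chartAt E x ∘ e.symm)) y v w := by
    unfold levS
    rw [(hev.fderiv).fderiv_eq]
  rw [h1, levS_comp (by simpa [hx] using hu) (hG.of_le le_top), mLevS]
  have h2 := mfderiv_symm_eq he hy
  simp only [Function.comp_apply]
  rw [h2]
  rfl

lemma mLevA_chart {u : M → ℝ} {e : OpenPartialHomeomorph M E}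
    (he : e ∈ IsManifold.maximalAtlas 𝓘(ℂ, E) ω M) {y : E} (hy : y ∈ e.target)
    (hu : ContDiffAt ℝ 2 (u ∘ (chartAt E (e.symm y)).symm) (chartAt E (e.symm y) (e.symm y)))
    (v w : E) :
    levA (u ∘ e.symm) y v w = mLevA u (e.symm y)
      (mfderiv 𝓘(ℂ, E) 𝓘(ℂ, E) e.symm y v) (mfderiv 𝓘(ℂ, E) 𝓘(ℂ, E) e.symm y w) := by
  set x := e.symm y with hx
  have hG : ContDiffAt ℂ ω (chartAt E x ∘ e.symm) y :=
    contDiffAt_coord he (chartAt_mem_max x) hy (mem_chart_source E x)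
  have hev : u ∘ e.symm =ᶠ[𝓝 y] (u ∘ (chartAt E x).symm) ∘ (chartAt E x ∘ e.symm) := by
    have hc : ContinuousAt e.symm y := e.continuousAt_symm hy
    filter_upwards [hc.preimage_mem_nhds ((chartAt E x).open_source.mem_nhds
      (mem_chart_source E x))] with z hz
    simp only [Function.comp_apply]
    rw [(chartAt E x).left_inv hz]
  have h1 : levA (u ∘ e.symm) y v w =
      levA ((u ∘ (chartAt E x).symm) ∘ (chartAt E x ∘ e.symm)) y v w := by
    unfold levA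
    rw [(hev.fderiv).fderiv_eq]
  rw [h1, levA_comp (by simpa [hx] using hu) (hG.of_le le_top), mLevA]
  have h2 := mfderiv_symm_eq he hy
  simp only [Function.comp_apply]
  rw [h2]
  rfl

omit [IsManifold 𝓘(ℂ, E) ω M] in
/-- holomorphic curves are analytic in charts -/
lemma curve_contDiffAt {φ : ℂ → M} {ξ : ℂ}
    (h : ∀ᶠ ζ in 𝓝 ξ, MDifferentiableAt 𝓘(ℂ, ℂ) 𝓘(ℂ, E) φ ζ)
    {e : OpenPartialHomeomorph M E} (he : e ∈ IsManifold.maximalAtlas 𝓘(ℂ, E) ω M)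
    (hφ : φ ξ ∈ e.source) [CompleteSpace E] : ContDiffAt ℂ ω (e ∘ φ) ξ := by
  have hc : ContinuousAt φ ξ := h.self_of_nhds.continuousAt
  have h1 : ∀ᶠ ζ in 𝓝 ξ, DifferentiableAt ℂ (e ∘ φ) ζ := by
    filter_upwards [h, hc.preimage_mem_nhds (e.open_source.mem_nhds hφ)] with ζ h1 h2
    have h3 : MDifferentiableAt 𝓘(ℂ, E) 𝓘(ℂ, E) e (φ ζ) :=
      (contMDiffAt_of_mem_maximalAtlas he h2).mdifferentiableAt (by simp)
    exact (h3.comp ζ h1).differentiableAt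
  obtain ⟨s, hs, hso, hξ⟩ := _root_.eventually_nhds_iff.1 h1
  have h2 : DifferentiableOn ℂ (e ∘ φ) s := fun z hz => (hs z hz).differentiableWithinAt
  exact (h2.analyticAt (hso.mem_nhds hξ)).contDiffAt

/-- Laplacian along a holomorphic curve -/
lemma lap_curve [CompleteSpace E] {u : M → ℝ} {φ : ℂ → M} {ξ : ℂ}
    (h : ∀ᶠ ζ in 𝓝 ξ, MDifferentiableAt 𝓘(ℂ, ℂ) 𝓘(ℂ, E) φ ζ)
    (hu : ContDiffAt ℝ 2 (u ∘ (chartAt E (φ ξ)).symm) (chartAt E (φ ξ) (φ ξ))) :
    lap (u ∘ φ) ξ = mLevS u (φ ξ) (mfderiv 𝓘(ℂ, ℂ) 𝓘(ℂ, E) φ ξ (1 : ℂ))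
      (mfderiv 𝓘(ℂ, ℂ) 𝓘(ℂ, E) φ ξ (1 : ℂ)) := by
  have hG := curve_contDiffAt h (chartAt_mem_max (φ ξ)) (mem_chart_source E (φ ξ))
  have hc : ContinuousAt φ ξ := h.self_of_nhds.continuousAt
  have hev : u ∘ φ =ᶠ[𝓝 ξ] (u ∘ (chartAt E (φ ξ)).symm) ∘ (chartAt E (φ ξ) ∘ φ) := by
    filter_upwards [hc.preimage_mem_nhds ((chartAt E (φ ξ)).open_source.mem_nhds
      (mem_chart_source E (φ ξ)))] with z hz
    simp only [Function.comp_apply]
    rw [(chartAt E (φ ξ)).left_inv hz]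
  have h1 : lap (u ∘ φ) ξ = lap ((u ∘ (chartAt E (φ ξ)).symm) ∘ (chartAt E (φ ξ) ∘ φ)) ξ := by
    unfold lap
    rw [(hev.fderiv).fderiv_eq]
  rw [h1, lap_comp hu (hG.of_le le_top), mLevS]
  have h2 := mfderiv_curve_eq h.self_of_nhds
  simp only [Function.comp_apply]
  rw [h2]
  rfl

end Pool.Agent.H45.Nev
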