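import Pool.Agent.H45.Nev.DisintBase
import Pool.Agent.H45.Nev.LapLemmas

/-!
# Disintegration of a harmonic measure along the plaques of a flow box
-/

set_option linter.unusedSectionVars false
set_option linter.style.haveILetI false

open MeasureTheory Set Metric Filter Topology ProbabilityTheory
open scoped ContDiff ENNReal

namespace Pool.Agent.H45.Nev

/-- the statement of the Weyl lemma -/
def WeylStmt : Prop := ∃ V : Set (ℂ → ℝ), V.Countable ∧
    (∀ v ∈ V, ContDiff ℝ ∞ v ∧ HasCompactSupport v ∧ tsupport v ⊆ ball 0 1) ∧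
    ∀ κ : Measure ℂ, IsFiniteMeasure κ → κ (ball (0 : ℂ) 1)ᶜ = 0 →
      (∀ v ∈ V, ∫ z, lap v z ∂κ = 0) →
      ∃ h : ℂ → ℝ, Measurable h ∧ ContinuousOn h (ball 0 1) ∧ (∀ z ∈ ball (0 : ℂ) 1, 0 ≤ h z) ∧
        κ = (volume.restrict (ball (0 : ℂ) 1)).withDensity (fun z => ENNReal.ofReal (h z)) ∧
        (κ ≠ 0 → ∀ z ∈ ball (0 : ℂ) 1, 0 < h z)

variable {M : Type*} [TopologicalSpace M] [T2Space M] [MeasurableSpace M] [BorelSpace M]
  [Nonempty M]
  {Y : Type*} [NormedAddCommGroup Y] [NormedSpace ℝ Y] [FiniteDimensional ℝ Y]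
  [MeasurableSpace Y] [BorelSpace Y]

/-- `L u` vanishes off the support of `u` -/
lemma TestSys.L_off {Λ : Lam M Y} {μ : Measure M} (TS : TestSys Λ μ) {u : M → ℝ} (hu : u ∈ TS.D)
    {K : Set M} (hK : IsClosed K) (h0 : ∀ x ∉ K, u x = 0) {x : M} (hx : x ∉ K) :
    TS.L u x = 0 := by
  by_cases hr : x ∈ Λ.reg
  · obtain ⟨j, hj⟩ := mem_iUnion.1 hr
    set p := Λ.box j x with hp
    have hpt : p ∈ (Λ.box j).target := (Λ.box j).map_source hj
    have hpt' := hpt
    rw [Λ.target_eq j] at hpt'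
    have hx' : (Λ.box j).symm (p.1, p.2) = x := (Λ.box j).left_inv hj
    have hL := TS.L_eq u hu j p.2 hpt'.2 p.1 hpt'.1
    rw [hx'] at hL
    have hc : ContinuousAt (fun z => (Λ.box j).symm (z, p.2)) p.1 := by
      have h1 : ContinuousAt (Λ.box j).symm p := (Λ.box j).continuousAt_symm hpt
      have h2 : ContinuousAt (fun z : ℂ => (z, p.2)) p.1 := by fun_prop
      exact ContinuousAt.comp (g := (Λ.box j).symm) (f := fun z : ℂ => (z, p.2)) h1 h2
    have hev : (fun z => u ((Λ.box j).symm (z, p.2))) =ᶠ[𝓝 p.1] fun _ => 0 := by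
      have : Kᶜ ∈ 𝓝 ((Λ.box j).symm (p.1, p.2)) := by
        rw [hx']; exact hK.isOpen_compl.mem_nhds hx
      filter_upwards [hc.preimage_mem_nhds this] with z hz
      exact h0 _ hz
    rw [lap_congr hev, lap_zero] at hL
    have hρ : 0 < Λ.ρ j (p.1, p.2) := (Λ.lo_pos j).trans_le (Λ.ρ_lo j _ hpt)
    rcases mul_eq_zero.1 hL.symm with h | h
    · exact absurd h hρ.ne'
    · exact h
  · exact TS.L_zero u hu x hr

open Classical in
/-- measurable version of the density -/
noncomputable def Lam.ρm (Λ : Lam M Y) (i : Λ.ι) (p : Y × ℂ) : ℝ :=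
  if (p.2, p.1) ∈ (Λ.box i).target then Λ.ρ i (p.2, p.1) else Λ.lo i

lemma Lam.measurable_ρm (Λ : Lam M Y) (i : Λ.ι) : Measurable (Λ.ρm i) := by
  haveI : ProperSpace Y := FiniteDimensional.proper ℝ Y
  have h : ContinuousOn (fun p : Y × ℂ => Λ.ρ i (p.2, p.1))
      {p : Y × ℂ | (p.2, p.1) ∈ (Λ.box i).target} :=
    (Λ.ρ_cont i).comp continuous_swap.continuousOn (fun p hp => hp)
  classical
  have := h.measurable_piecewise (g := fun _ => Λ.lo i) continuousOn_const
    (Λ.measurableSet_tg i)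
  convert this using 1
  ext p
  simp [Lam.ρm, Set.piecewise]

lemma Lam.ρm_lo (Λ : Lam M Y) (i : Λ.ι) (p : Y × ℂ) : Λ.lo i ≤ Λ.ρm i p := by
  unfold Lam.ρm
  split_ifs with h
  · exact Λ.ρ_lo i _ h
  · exact le_rfl

lemma Lam.ρm_eq (Λ : Lam M Y) (i : Λ.ι) {t : Y} {z : ℂ} (ht : t ∈ Λ.W i)
    (hz : z ∈ ball (0 : ℂ) 1) : Λ.ρm i (t, z) = Λ.ρ i (z, t) := by
  unfold Lam.ρm
  rw [if_pos]
  rw [Λ.target_eq i]
  exact ⟨hz, ht⟩

variable (Λ : Lam M Y) (μ : Measure M) [IsFiniteMeasure μ] (TS : TestSys Λ μ) (i : Λ.ι)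

lemma lap_bdd {v : ℂ → ℝ} (hv : ContDiff ℝ ∞ v) (hc : HasCompactSupport v) :
    Continuous (lap v) ∧ ∃ C, ∀ z, |lap v z| ≤ C := by
  have h2 : ContDiff ℝ 2 v := contDiff_infty.1 hv 2
  have h1 : Continuous (lap v) := by
    have hD : Continuous (fderiv ℝ (fderiv ℝ v)) :=
      (h2.fderiv_right (m := 1) (by norm_num)).continuous_fderiv (by norm_num)
    unfold lap
    exact ((hD.clm_apply continuous_const).clm_apply continuous_const).add
      ((hD.clm_apply continuous_const).clm_apply continuous_const)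
  refine ⟨h1, ?_⟩
  have hs : HasCompactSupport (lap v) := by
    have h3 : HasCompactSupport (fderiv ℝ (fderiv ℝ v)) := (hc.fderiv ℝ).fderiv ℝ
    apply h3.mono'
    intro z hz
    simp only [Function.mem_support, lap] at hz
    apply subset_tsupport
    simp only [Function.mem_support]
    intro h0
    rw [h0] at hz
    simp at hz
  obtain ⟨C, hC⟩ := h1.bounded_above_of_compact_support hs
  exact ⟨C, fun z => by simpa using hC z⟩

include TS in
/-- the fibre measures are harmonic -/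
lemma fibre_harmonic (v : ℂ → ℝ) (hv : ContDiff ℝ ∞ v) (hvc : HasCompactSupport v)
    (hvs : tsupport v ⊆ ball 0 1) :
    ∀ᵐ t ∂(Λ.pm μ i).fst, ∫ z, lap v z / Λ.ρm i (t, z) ∂((Λ.pm μ i).condKernel t) = 0 := by
  haveI : ProperSpace Y := FiniteDimensional.proper ℝ Y
  obtain ⟨hlc, C, hC⟩ := lap_bdd hv hvc
  set g : Y → ℝ := fun t => ∫ z, lap v z / Λ.ρm i (t, z) ∂((Λ.pm μ i).condKernel t) with hg
  have hmeas : StronglyMeasurable g := by
    have : StronglyMeasurable (fun p : Y × ℂ => lap v p.2 / Λ.ρm i p) :=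
      ((hlc.measurable.comp measurable_snd).div (Λ.measurable_ρm i)).stronglyMeasurable
    exact this.integral_kernel_prod_right'
  have hC0 : 0 ≤ C := (abs_nonneg _).trans (hC 0)
  have hlo := Λ.lo_pos i
  have hgb : ∀ t, ‖g t‖ ≤ C / Λ.lo i := by
    intro t
    have h1 : ∀ z, ‖lap v z / Λ.ρm i (t, z)‖ ≤ C / Λ.lo i := by
      intro z
      rw [norm_div, Real.norm_eq_abs, Real.norm_eq_abs,
        abs_of_pos (hlo.trans_le (Λ.ρm_lo i (t, z)))]
      gcongr
      · exact hC z
      · exact Λ.ρm_lo i (t, z)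
    refine (norm_integral_le_of_norm_le_const (Eventually.of_forall h1)).trans ?_
    simp
  have hint : Integrable g (Λ.pm μ i).fst :=
    Integrable.of_bound hmeas.aestronglyMeasurable (C / Λ.lo i) (Eventually.of_forall hgb)
  have key := (Λ.W_open i).ae_eq_zero_of_integral_contDiff_smul_eq_zero
    (hint.locallyIntegrable.locallyIntegrableOn _) (μ := (Λ.pm μ i).fst) (f := g) (by
    intro w hw hwc hws
    obtain ⟨u, hu, hu1, hu0⟩ := TS.prod i v hv hvc hvs w hw hwc hws
    -- the support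
    set K : Set M := (Λ.box i).symm '' (tsupport v ×ˢ tsupport w) with hK
    have hKsub : tsupport v ×ˢ tsupport w ⊆ (Λ.box i).target := by
      rw [Λ.target_eq i]; exact prod_mono hvs hws
    have hKc : IsCompact K := (hvc.isCompact.prod hwc.isCompact).image_of_continuousOn
      ((Λ.box i).continuousOn_symm.mono hKsub)
    have hKS : K ⊆ (Λ.box i).source := by
      rintro x ⟨p, hp, rfl⟩
      exact (Λ.box i).map_target (hKsub hp)
    have hu0' : ∀ x ∉ K, u x = 0 := by
      intro x hx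
      by_cases hxs : x ∈ (Λ.box i).source
      · rw [hu1 x hxs]
        by_contra hne
        apply hx
        refine ⟨Λ.box i x, ⟨subset_tsupport v (left_ne_zero_of_mul hne),
          subset_tsupport w (right_ne_zero_of_mul hne)⟩, (Λ.box i).left_inv hxs⟩
      · exact hu0 x hxs
    have hLoff : ∀ x ∉ (Λ.box i).source, TS.L u x = 0 := fun x hx =>
      TS.L_off hu hKc.isClosed hu0' (fun h => hx (hKS h))
    have h1 : ∫ x in (Λ.box i).source, TS.L u x ∂μ = 0 := by
      rw [← TS.integral_L u hu]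
      exact setIntegral_eq_integral_of_forall_compl_eq_zero hLoff
    rw [dis_integral Λ μ i _ (TS.L_meas u hu) (TS.L_bdd u hu)] at h1
    rw [← h1]
    apply integral_congr_ae
    filter_upwards [fibre_tg Λ μ i] with t ht
    rw [hg, smul_eq_mul, ← integral_const_mul]
    apply integral_congr_ae
    filter_upwards [ht.2] with z hz
    have hL := TS.L_eq u hu i t ht.1 z hz
    have hev : (fun z => u ((Λ.box i).symm (z, t))) =ᶠ[𝓝 z] fun z => v z * w t := by
      filter_upwards [isOpen_ball.mem_nhds hz] with z' hz'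
      have hmem : (z', t) ∈ (Λ.box i).target := by
        rw [Λ.target_eq i]; exact ⟨hz', ht.1⟩
      rw [hu1 _ ((Λ.box i).map_target hmem), (Λ.box i).right_inv hmem]
    have hv2 : ContDiffAt ℝ 2 v z := (contDiff_infty.1 hv 2).contDiffAt
    rw [lap_congr hev, lap_mul_const hv2] at hL
    rw [Λ.ρm_eq i ht.1 hz]
    have hρ : 0 < Λ.ρ i (z, t) := (Λ.lo_pos i).trans_le (Λ.ρ_lo i _ (by
      rw [Λ.target_eq i]; exact ⟨hz, ht.1⟩))
    field_simp
    linarith)
  filter_upwards [key, fibre_tg Λ μ i] with t h1 h2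
  exact h1 h2.1

include TS in
/-- densities of the fibre measures -/
lemma fibre_density (hW : WeylStmt) : ∀ᵐ t ∂(Λ.pm μ i).fst, ∃ h : ℂ → ℝ, Measurable h ∧
    ContinuousOn h (ball 0 1) ∧ (∀ z ∈ ball (0 : ℂ) 1, 0 < h z) ∧
    (Λ.pm μ i).condKernel t = (volume.restrict (ball (0 : ℂ) 1)).withDensity
      (fun z => ENNReal.ofReal (Λ.ρ i (z, t) * h z)) := by
  obtain ⟨V, hVc, hV, hweyl⟩ := hW
  have hall : ∀ᵐ t ∂(Λ.pm μ i).fst, ∀ v ∈ V,
      ∫ z, lap v z / Λ.ρm i (t, z) ∂((Λ.pm μ i).condKernel t) = 0 := by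
    rw [ae_ball_iff hVc]
    intro v hv
    obtain ⟨h1, h2, h3⟩ := hV v hv
    exact fibre_harmonic Λ μ TS i v h1 h2 h3
  filter_upwards [hall, fibre_tg Λ μ i] with t ht htg
  set κt := (Λ.pm μ i).condKernel t with hκt
  set r : ℂ → ℝ := fun z => Λ.ρm i (t, z) with hr
  have hrm : Measurable r := (Λ.measurable_ρm i).comp measurable_prodMk_left
  have hrpos : ∀ z, 0 < r z := fun z => (Λ.lo_pos i).trans_le (Λ.ρm_lo i (t, z))
  have hinvm : Measurable (fun z => ENNReal.ofReal (r z)⁻¹) := hrm.inv.ennreal_ofReal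
  set κ' : Measure ℂ := κt.withDensity (fun z => ENNReal.ofReal (r z)⁻¹) with hκ'
  have hfin : IsFiniteMeasure κ' := by
    refine ⟨?_⟩
    rw [hκ', withDensity_apply _ MeasurableSet.univ, setLIntegral_univ]
    calc ∫⁻ z, ENNReal.ofReal (r z)⁻¹ ∂κt ≤ ∫⁻ z, ENNReal.ofReal (Λ.lo i)⁻¹ ∂κt := by
          apply lintegral_mono
          intro z
          apply ENNReal.ofReal_le_ofReal
          exact inv_anti₀ (Λ.lo_pos i) (Λ.ρm_lo i (t, z))
      _ = ENNReal.ofReal (Λ.lo i)⁻¹ * κt univ := by rw [lintegral_const]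
      _ < ⊤ := ENNReal.mul_lt_top ENNReal.ofReal_lt_top (measure_lt_top _ _)
  have hball : κ' (ball (0 : ℂ) 1)ᶜ = 0 := by
    have h1 : κt (ball (0 : ℂ) 1)ᶜ = 0 := by
      rw [← mem_ae_iff]; exact htg.2
    exact withDensity_absolutelyContinuous _ _ h1
  have hzero : ∀ v ∈ V, ∫ z, lap v z ∂κ' = 0 := by
    intro v hv
    rw [hκ', integral_withDensity_eq_integral_toReal_smul hinvm
      (Eventually.of_forall fun z => ENNReal.ofReal_lt_top), ← ht v hv]
    apply integral_congr_ae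
    filter_upwards with z
    rw [ENNReal.toReal_ofReal (inv_nonneg.2 (hrpos z).le), smul_eq_mul, div_eq_inv_mul]
  obtain ⟨h, hm, hc, h0, heq, hpos⟩ := hweyl κ' hfin hball hzero
  have hne : κ' ≠ 0 := by
    intro h00
    have h1 : κt = κ'.withDensity (fun z => ENNReal.ofReal (r z)) := by
      rw [hκ', ← withDensity_mul _ hinvm hrm.ennreal_ofReal]
      have : ((fun z => ENNReal.ofReal (r z)⁻¹) * fun z => ENNReal.ofReal (r z)) = 1 := by
        ext z
        simp only [Pi.mul_apply, Pi.one_apply]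
        rw [← ENNReal.ofReal_mul (inv_nonneg.2 (hrpos z).le), inv_mul_cancel₀ (hrpos z).ne']
        simp
      rw [this, withDensity_one]
    rw [h00] at h1
    have h2 : κt univ = 0 := by rw [h1]; simp
    have h3 : κt univ = 1 := measure_univ
    rw [h3] at h2
    exact one_ne_zero h2
  refine ⟨h, hm, hc, hpos hne, ?_⟩
  have h1 : κt = κ'.withDensity (fun z => ENNReal.ofReal (r z)) := by
    rw [hκ', ← withDensity_mul _ hinvm hrm.ennreal_ofReal]
    have : ((fun z => ENNReal.ofReal (r z)⁻¹) * fun z => ENNReal.ofReal (r z)) = 1 := by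
      ext z
      simp only [Pi.mul_apply, Pi.one_apply]
      rw [← ENNReal.ofReal_mul (inv_nonneg.2 (hrpos z).le), inv_mul_cancel₀ (hrpos z).ne']
      simp
    rw [this, withDensity_one]
  rw [h1, heq, ← withDensity_mul _ hm.ennreal_ofReal hrm.ennreal_ofReal]
  apply withDensity_congr_ae
  filter_upwards [ae_restrict_mem measurableSet_ball] with z hz
  simp only [Pi.mul_apply]
  rw [← ENNReal.ofReal_mul (h0 z hz), hr]
  simp only
  rw [Λ.ρm_eq i htg.1 hz, mul_comm]

include TS in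
theorem exists_disint (hW : WeylStmt) : Nonempty (Disint Λ μ i) := by
  classical
  have hd := fibre_density Λ μ TS i hW
  set P : Y → (ℂ → ℝ) → Prop := fun t h => Measurable h ∧
    ContinuousOn h (ball 0 1) ∧ (∀ z ∈ ball (0 : ℂ) 1, 0 < h z) ∧
    (Λ.pm μ i).condKernel t = (volume.restrict (ball (0 : ℂ) 1)).withDensity
      (fun z => ENNReal.ofReal (Λ.ρ i (z, t) * h z)) with hP
  refine ⟨{
    ν := (Λ.pm μ i).fst
    ν_fin := inferInstance
    κ := (Λ.pm μ i).condKernel
    κ_markov := inferInstance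
    h := fun t => if h : ∃ f, P t f then h.choose else fun _ => 0
    good := ?_
    lintegral_eq := fun f hf => dis_lintegral Λ μ i f hf
    meas_fibre := fun f hf => dis_meas Λ μ i f hf
    integral_eq := fun f hf hb => dis_integral Λ μ i f hf hb }⟩
  filter_upwards [hd, fibre_tg Λ μ i] with t ht htg
  have hex : ∃ f, P t f := ht
  rw [dif_pos hex]
  exact ⟨htg.1, hex.choose_spec⟩

end Pool.Agent.H45.Nev
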