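import Pool.Agent.H45.Nev.TestSys
import Pool.Agent.H45.Nev.Jensen

/-!
# Disintegration of a measure along the plaques of a flow box: soft part
-/

set_option linter.unusedSectionVars false
set_option linter.style.haveILetI false

open MeasureTheory Set Metric Filter Topology ProbabilityTheory
open scoped ContDiff ENNReal

namespace Pool.Agent.H45.Nev

variable {M : Type*} [TopologicalSpace M] [MeasurableSpace M] [BorelSpace M]
  {Y : Type*} [NormedAddCommGroup Y] [NormedSpace ℝ Y] [FiniteDimensional ℝ Y]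
  [MeasurableSpace Y] [BorelSpace Y]

lemma Lam.W_open (Λ : Lam M Y) (i : Λ.ι) : IsOpen (Λ.W i) := by
  have h := (Λ.box i).open_target
  rw [Λ.target_eq i] at h
  have : Λ.W i = (fun t : Y => ((0 : ℂ), t)) ⁻¹' (ball (0 : ℂ) 1 ×ˢ Λ.W i) := by
    ext t; simp
  rw [this]
  exact h.preimage (by fun_prop)

open Classical in
/-- coordinates, swapped, as a globally measurable map -/
noncomputable def Lam.co (Λ : Lam M Y) (i : Λ.ι) (x : M) : Y × ℂ :=
  if x ∈ (Λ.box i).source then ((Λ.box i x).2, (Λ.box i x).1) else (0, 0)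

open Classical in
/-- inverse coordinates, swapped, as a globally measurable map -/
noncomputable def Lam.ci [Nonempty M] (Λ : Lam M Y) (i : Λ.ι) (p : Y × ℂ) : M :=
  if (p.2, p.1) ∈ (Λ.box i).target then (Λ.box i).symm (p.2, p.1) else Classical.arbitrary M

lemma Lam.measurable_co (Λ : Lam M Y) (i : Λ.ι) : Measurable (Λ.co i) := by
  haveI : ProperSpace Y := FiniteDimensional.proper ℝ Y
  have h : ContinuousOn (fun x => ((Λ.box i x).2, (Λ.box i x).1)) (Λ.box i).source :=
    ((continuous_snd.comp_continuousOn (Λ.box i).continuousOn)).prodMk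
      (continuous_fst.comp_continuousOn (Λ.box i).continuousOn)
  classical
  have := h.measurable_piecewise (g := fun _ => ((0 : Y), (0 : ℂ))) continuousOn_const
    (Λ.box i).open_source.measurableSet
  convert this using 1
  ext x <;> simp [Lam.co, Set.piecewise]

lemma Lam.measurableSet_tg (Λ : Lam M Y) (i : Λ.ι) :
    MeasurableSet {p : Y × ℂ | (p.2, p.1) ∈ (Λ.box i).target} := by
  haveI : ProperSpace Y := FiniteDimensional.proper ℝ Y
  exact ((Λ.box i).open_target.preimage continuous_swap).measurableSet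

lemma Lam.measurable_ci [Nonempty M] (Λ : Lam M Y) (i : Λ.ι) : Measurable (Λ.ci i) := by
  haveI : ProperSpace Y := FiniteDimensional.proper ℝ Y
  have h : ContinuousOn (fun p : Y × ℂ => (Λ.box i).symm (p.2, p.1))
      {p : Y × ℂ | (p.2, p.1) ∈ (Λ.box i).target} :=
    (Λ.box i).continuousOn_symm.comp continuous_swap.continuousOn (fun p hp => hp)
  classical
  have := h.measurable_piecewise (g := fun _ => Classical.arbitrary M) continuousOn_const
    (Λ.measurableSet_tg i)
  convert this using 1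
  ext p
  simp [Lam.ci, Set.piecewise]

lemma Lam.ci_co [Nonempty M] (Λ : Lam M Y) (i : Λ.ι) {x : M} (hx : x ∈ (Λ.box i).source) :
    Λ.ci i (Λ.co i x) = x := by
  have h1 : Λ.co i x = ((Λ.box i x).2, (Λ.box i x).1) := by simp [Lam.co, hx]
  rw [h1, Lam.ci, if_pos ((Λ.box i).map_source hx)]
  exact (Λ.box i).left_inv hx

/-- the pushed forward measure -/
noncomputable def Lam.pm (Λ : Lam M Y) (μ : Measure M) (i : Λ.ι) : Measure (Y × ℂ) :=
  (μ.restrict (Λ.box i).source).map (Λ.co i)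

variable (Λ : Lam M Y) (μ : Measure M) [IsFiniteMeasure μ] (i : Λ.ι)

instance : IsFiniteMeasure (Λ.pm μ i) := by
  unfold Lam.pm; infer_instance

lemma pm_tg : ∀ᵐ p ∂(Λ.pm μ i), (p.2, p.1) ∈ (Λ.box i).target := by
  unfold Lam.pm
  rw [ae_map_iff (Λ.measurable_co i).aemeasurable (Λ.measurableSet_tg i)]
  filter_upwards [ae_restrict_mem (Λ.box i).open_source.measurableSet] with x hx
  have h1 : Λ.co i x = ((Λ.box i x).2, (Λ.box i x).1) := by simp [Lam.co, hx]
  rw [h1]
  exact (Λ.box i).map_source hx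

lemma fibre_tg : ∀ᵐ t ∂(Λ.pm μ i).fst, t ∈ Λ.W i ∧
    ∀ᵐ z ∂((Λ.pm μ i).condKernel t), z ∈ ball (0 : ℂ) 1 := by
  have h := pm_tg Λ μ i
  rw [← (Λ.pm μ i).disintegrate (Λ.pm μ i).condKernel] at h
  have h2 := Measure.ae_ae_of_ae_compProd h
  filter_upwards [h2] with t ht
  have ht' : ∀ᵐ z ∂((Λ.pm μ i).condKernel t), z ∈ ball (0 : ℂ) 1 ∧ t ∈ Λ.W i := by
    filter_upwards [ht] with z hz
    rw [Λ.target_eq i] at hz
    exact hz
  refine ⟨?_, ht'.mono fun z hz => hz.1⟩
  obtain ⟨z, hz⟩ := ht'.exists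
  exact hz.2

lemma pm_lintegral [Nonempty M] (f : M → ℝ≥0∞) (hf : Measurable f) :
    ∫⁻ x in (Λ.box i).source, f x ∂μ = ∫⁻ p, f (Λ.ci i p) ∂(Λ.pm μ i) := by
  unfold Lam.pm
  have hm : Measurable (fun p => f (Λ.ci i p)) := hf.comp (Λ.measurable_ci i)
  rw [lintegral_map hm (Λ.measurable_co i)]
  apply setLIntegral_congr_fun (Λ.box i).open_source.measurableSet
  intro x hx
  simp only
  rw [Λ.ci_co i hx]

lemma pm_integral [Nonempty M] (f : M → ℝ) (hf : Measurable f) :
    ∫ x in (Λ.box i).source, f x ∂μ = ∫ p, f (Λ.ci i p) ∂(Λ.pm μ i) := by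
  unfold Lam.pm
  have hm : Measurable (fun p => f (Λ.ci i p)) := hf.comp (Λ.measurable_ci i)
  rw [integral_map (Λ.measurable_co i).aemeasurable hm.aestronglyMeasurable]
  apply setIntegral_congr_fun (Λ.box i).open_source.measurableSet
  intro x hx
  simp only
  rw [Λ.ci_co i hx]

lemma ci_eq [Nonempty M] {t : Y} {z : ℂ} (ht : t ∈ Λ.W i) (hz : z ∈ ball (0 : ℂ) 1) :
    Λ.ci i (t, z) = (Λ.box i).symm (z, t) := by
  unfold Lam.ci
  rw [if_pos]
  rw [Λ.target_eq i]
  exact ⟨hz, ht⟩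

lemma dis_lintegral [Nonempty M] (f : M → ℝ≥0∞) (hf : Measurable f) :
    ∫⁻ x in (Λ.box i).source, f x ∂μ =
      ∫⁻ t, ∫⁻ z, f ((Λ.box i).symm (z, t)) ∂((Λ.pm μ i).condKernel t) ∂(Λ.pm μ i).fst := by
  rw [pm_lintegral Λ μ i f hf]
  conv_lhs => rw [← (Λ.pm μ i).disintegrate (Λ.pm μ i).condKernel]
  have hm : Measurable (fun p => f (Λ.ci i p)) := hf.comp (Λ.measurable_ci i)
  rw [Measure.lintegral_compProd hm]
  apply lintegral_congr_ae
  filter_upwards [fibre_tg Λ μ i] with t ht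
  apply lintegral_congr_ae
  filter_upwards [ht.2] with z hz
  rw [ci_eq Λ i ht.1 hz]

lemma dis_meas [Nonempty M] (f : M → ℝ≥0∞) (hf : Measurable f) :
    AEMeasurable (fun t => ∫⁻ z, f ((Λ.box i).symm (z, t)) ∂((Λ.pm μ i).condKernel t))
      (Λ.pm μ i).fst := by
  have h : Measurable (fun t => ∫⁻ z, f (Λ.ci i (t, z)) ∂((Λ.pm μ i).condKernel t)) :=
    Measurable.lintegral_kernel_prod_right' (hf.comp (Λ.measurable_ci i))
  refine ⟨_, h, ?_⟩
  filter_upwards [fibre_tg Λ μ i] with t ht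
  apply lintegral_congr_ae
  filter_upwards [ht.2] with z hz
  rw [ci_eq Λ i ht.1 hz]

lemma dis_integral [Nonempty M] (f : M → ℝ) (hf : Measurable f) (hb : ∃ C, ∀ x, |f x| ≤ C) :
    ∫ x in (Λ.box i).source, f x ∂μ =
      ∫ t, ∫ z, f ((Λ.box i).symm (z, t)) ∂((Λ.pm μ i).condKernel t) ∂(Λ.pm μ i).fst := by
  rw [pm_integral Λ μ i f hf]
  conv_lhs => rw [← (Λ.pm μ i).disintegrate (Λ.pm μ i).condKernel]
  obtain ⟨C, hC⟩ := hb
  rw [Measure.integral_compProd]
  · apply integral_congr_ae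
    filter_upwards [fibre_tg Λ μ i] with t ht
    apply integral_congr_ae
    filter_upwards [ht.2] with z hz
    rw [ci_eq Λ i ht.1 hz]
  · exact Integrable.of_bound (hf.comp (Λ.measurable_ci i)).aestronglyMeasurable C
      (Eventually.of_forall fun p => by simpa using hC _)

end Pool.Agent.H45.Nev
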