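import Pool.Agent.H45.Nev.HolDefs
import Pool.Agent.H45.Nev.Base2
import Pool.Agent.H95.Nev.Dens

/-!
# From local vector fields to flow boxes
-/

open MeasureTheory Set Metric Filter Topology
open scoped Manifold ContDiff

namespace Pool.Agent.H45.Nev

/-- the holomorphic flow-box theorem -/
def FBStmt (E : Type*) [NormedAddCommGroup E] [NormedSpace ℂ E] : Prop :=
  ∀ (X : E → E) (s : Set E), IsOpen s → DifferentiableOn ℂ X s → ∀ x ∈ s, X x ≠ 0 →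
    ∃ (e : OpenPartialHomeomorph E E) (v : E), x ∈ e.source ∧ e.source ⊆ s ∧ v ≠ 0 ∧
      ContDiffOn ℂ ω e e.source ∧ ContDiffOn ℂ ω e.symm e.target ∧
      ∀ y ∈ e.source, fderiv ℂ e y (X y) = v

variable {E : Type*} [NormedAddCommGroup E] [NormedSpace ℂ E]
  {M : Type*} [TopologicalSpace M] [ChartedSpace E M] [IsManifold 𝓘(ℂ, E) ω M]

lemma flowBox_of (hFB : FBStmt E) (F : HolFoliation E M) (x : M)
    (hx : ∃ i, x ∈ F.U i ∧ F.X i x ≠ 0) :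
    ∃ e ∈ IsManifold.maximalAtlas 𝓘(ℂ, E) ω M, x ∈ e.source ∧ ∃ v : E, v ≠ 0 ∧
      ∀ i, ∀ y ∈ e.source ∩ F.U i, ∃ c : ℂ, c ≠ 0 ∧
        (mfderiv 𝓘(ℂ, E) 𝓘(ℂ, E) e y (F.X i y) : E) = c • v := by
  obtain ⟨i, hi, hXi⟩ := hx
  set e₀ := chartAt E x with he₀
  have he₀m : e₀ ∈ IsManifold.maximalAtlas 𝓘(ℂ, E) ω M := chartAt_mem_max x
  have hxs : x ∈ e₀.source := mem_chart_source E x
  set G : M → E := fun z => (mfderiv 𝓘(ℂ, E) 𝓘(ℂ, E) e₀ z (F.X i z) : E) with hG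
  have hso : IsOpen (e₀.target ∩ e₀.symm ⁻¹' F.U i) :=
    e₀.isOpen_inter_preimage_symm (F.isOpen_U i)
  have hmem : e₀ x ∈ e₀.target ∩ e₀.symm ⁻¹' F.U i := by
    refine ⟨e₀.map_source hxs, ?_⟩
    rw [mem_preimage, e₀.left_inv hxs]; exact hi
  have hne : (fun y => G (e₀.symm y)) (e₀ x) ≠ 0 := by
    simp only
    rw [e₀.left_inv hxs]
    exact Pool.Agent.H95.Nev.D_ne_zero he₀m hxs hXi
  obtain ⟨e₁, v, hx1, hsub, hv, hc1, hc2, hfl⟩ :=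
    hFB (fun y => G (e₀.symm y)) _ hso (F.holo i e₀ he₀m) (e₀ x) hmem hne
  have he₁ : e₁ ∈ contDiffGroupoid ω 𝓘(ℂ, E) := mem_contDiffGroupoid_self.2 ⟨hc1, hc2⟩
  set e := e₀ ≫ₕ e₁ with he
  have hem : e ∈ IsManifold.maximalAtlas 𝓘(ℂ, E) ω M := by
    rw [IsManifold.maximalAtlas, mem_maximalAtlas_iff] at he₀m ⊢
    intro e' he'
    obtain ⟨h1, h2⟩ := he₀m e' he'
    constructor
    · rw [he, OpenPartialHomeomorph.trans_symm_eq_symm_trans_symm,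
        OpenPartialHomeomorph.trans_assoc]
      exact (contDiffGroupoid ω 𝓘(ℂ, E)).trans ((contDiffGroupoid ω 𝓘(ℂ, E)).symm he₁) h1
    · rw [he, ← OpenPartialHomeomorph.trans_assoc]
      exact (contDiffGroupoid ω 𝓘(ℂ, E)).trans h2 he₁
  refine ⟨e, hem, ?_, v, hv, ?_⟩
  · rw [he, OpenPartialHomeomorph.trans_source]
    exact ⟨hxs, hx1⟩
  intro j y ⟨hy, hyj⟩
  rw [he, OpenPartialHomeomorph.trans_source] at hy
  have hys := hsub hy.2
  have hyi : y ∈ F.U i := by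
    have := hys.2
    rwa [mem_preimage, e₀.left_inv hy.1] at this
  -- the derivative of the new chart
  have hd : ∀ w : E, (mfderiv 𝓘(ℂ, E) 𝓘(ℂ, E) e y : E →L[ℂ] E) w =
      fderiv ℂ e₁ (e₀ y) ((mfderiv 𝓘(ℂ, E) 𝓘(ℂ, E) e₀ y : E →L[ℂ] E) w) := by
    intro w
    have h1 : MDifferentiableAt 𝓘(ℂ, E) 𝓘(ℂ, E) e₀ y :=
      (Pool.Agent.H95.Nev.mdiff_of_mem he₀m).mdifferentiableAt hy.1
    have h2 : MDifferentiableAt 𝓘(ℂ, E) 𝓘(ℂ, E) e₁ (e₀ y) :=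
      ((hc1.contDiffAt (e₁.open_source.mem_nhds hy.2)).differentiableAt (by simp)).mdifferentiableAt
    have h3 := mfderiv_comp y h2 h1
    rw [mfderiv_eq_fderiv] at h3
    exact congrArg (fun L : E →L[ℂ] E => L w) h3
  have hfl' := hfl (e₀ y) hy.2
  simp only [e₀.left_inv hy.1] at hfl'
  refine ⟨F.g j i y, F.g_ne j i y ⟨hyj, hyi⟩, ?_⟩
  rw [← hfl', F.X_eq j i y ⟨hyj, hyi⟩]
  have h4 := hd (F.X i y)
  have h5 : (mfderiv 𝓘(ℂ, E) 𝓘(ℂ, E) e y (F.g j i y • F.X i y) : E) =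
      F.g j i y • (mfderiv 𝓘(ℂ, E) 𝓘(ℂ, E) e y : E →L[ℂ] E) (F.X i y) :=
    (mfderiv 𝓘(ℂ, E) 𝓘(ℂ, E) e y : E →L[ℂ] E).map_smul _ _
  rw [h5, h4]
  rfl

/-- a foliation given by local vector fields, with its flow boxes -/
def HolFoliation.toSing (hFB : FBStmt E) (F : HolFoliation E M) : SingFoliation E M :=
  { ι := F.ι
    U := F.U
    isOpen_U := F.isOpen_U
    cover := F.cover
    X := F.X
    holo := F.holo
    g := F.g
    g_holo := F.g_holo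
    g_ne := F.g_ne
    X_eq := F.X_eq
    flowBox := flowBox_of hFB F }

variable {hFB : FBStmt E} {F : HolFoliation E M}

lemma toSing_isExtremal {T : Form11 E M →ₗ[ℂ] ℂ} (h : F.IsExtremal T) :
    (F.toSing hFB).IsExtremal T := h

lemma toSing_isLeafDisc {φ : ℂ → M} (h : F.IsLeafDisc φ) : (F.toSing hFB).IsLeafDisc φ :=
  ⟨h.holo, h.notMem, h.tangent⟩

lemma isLeafDisc_of_toSing {φ : ℂ → M} (h : (F.toSing hFB).IsLeafDisc φ) : F.IsLeafDisc φ :=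
  ⟨h.holo, h.notMem, h.tangent⟩

lemma toSing_isUniversalCovering {φ : ℂ → M} (h : F.IsUniversalCovering φ) :
    (F.toSing hFB).IsUniversalCovering φ :=
  { toSing_isLeafDisc h.toIsLeafDisc with
    unramified := h.unramified
    lift := fun ψ hψ => h.lift ψ (isLeafDisc_of_toSing hψ) }

end Pool.Agent.H45.Nev
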