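import Pool.Agent.H45.Nev.Stmts
import Pool.Agent.H45.Nev.Disc
import Pool.Agent.H45.Nev.Disint
import Pool.Agent.H45.Nev.PlaneEst
import Pool.Agent.H38.Nev.Transfer
import Pool.Agent.H60.Nev.Q3
import Pool.Agent.H51.Nev.FA
import Pool.Agent.H95.Nev.Weyl

/-!
# The maximal inequality
-/

set_option linter.unusedSectionVars false
set_option linter.style.haveILetI false

open MeasureTheory Set Metric Filter Topology ProbabilityTheory
open scoped ContDiff ENNReal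

namespace Pool.Agent.H45.Nev

/-- from almost all radii to all radii -/
lemma kernel_nonpos_of_ae {g : ℂ → ℝ} (hg : Measurable g) {r K : ℝ} (hr1 : r < 1)
    (hK : ∀ ξ ∈ ball (0 : ℂ) r, |g ξ| ≤ K)
    (h : ∀ᵐ s ∂(volume.restrict (Ioo (0 : ℝ) r)),
      ∫ ξ in ball (0 : ℂ) s, Real.log (s / ‖ξ‖) * g ξ ≤ 0) :
    ∀ s ∈ Ioo (0 : ℝ) r, ∫ ξ in ball (0 : ℂ) s, Real.log (s / ‖ξ‖) * g ξ ≤ 0 := by
  have hK0 : ∀ s ∈ Ioo (0 : ℝ) r, 0 ≤ K := fun s hs =>
    (abs_nonneg _).trans (hK 0 (mem_ball_self (hs.1.trans hs.2)))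
  have hnev : ∀ s ∈ Ioo (0 : ℝ) r, nev g s =
      ∫ ξ in ball (0 : ℂ) s, Real.log (s / ‖ξ‖) * g ξ := by
    intro s hs
    refine (nev_eq_kernel g hg s ?_).2
    have h1 : IntegrableOn (fun ξ : ℂ => Real.log (s / ‖ξ‖) * g ξ) (ball 0 s) := by
      apply kernel_integrable_bdd (hs.2.trans hr1) hg (K := K)
      filter_upwards [ae_restrict_mem measurableSet_ball] with ξ hξ
      exact hK ξ (ball_subset_ball hs.2.le hξ)
    have h2 := h1.2
    unfold HasFiniteIntegral at h2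
    refine lt_of_le_of_lt (le_of_eq ?_) h2
    apply setLIntegral_congr_fun measurableSet_ball
    intro ξ hξ
    simp only [enorm_mul]
    rw [Real.enorm_eq_ofReal (kernel_nonneg hξ)]
  -- continuity of `nev g`
  set q : ℝ → ℝ := fun t => (∫ ξ in ball (0 : ℂ) t, g ξ) / t with hq
  have hqm : AEStronglyMeasurable q (volume.restrict (Ioo (0 : ℝ) r)) := by
    have h1 : Measurable (fun p : ℝ × ℂ =>
        {p : ℝ × ℂ | p.2 ∈ ball (0 : ℂ) p.1}.indicator (fun p => g p.2) p) :=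
      (hg.comp measurable_snd).indicator measurable_mem_ball
    have h2 : StronglyMeasurable (fun t : ℝ => ∫ ξ : ℂ,
        {p : ℝ × ℂ | p.2 ∈ ball (0 : ℂ) p.1}.indicator (fun p => g p.2) (t, ξ)) :=
      h1.stronglyMeasurable.integral_prod_right'
    have h3 : q = fun t => (∫ ξ : ℂ,
        {p : ℝ × ℂ | p.2 ∈ ball (0 : ℂ) p.1}.indicator (fun p => g p.2) (t, ξ)) / t := by
      ext t
      rw [hq]
      simp only
      congr 1
      rw [← integral_indicator measurableSet_ball]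
      congr 1
    rw [h3]
    exact (h2.measurable.div measurable_id).aestronglyMeasurable
  have hqi : IntegrableOn q (Ioo (0 : ℝ) r) := by
    refine Integrable.of_bound hqm (K * Real.pi) ?_
    filter_upwards [ae_restrict_mem measurableSet_Ioo] with t ht
    have h1 : ‖∫ ξ in ball (0 : ℂ) t, g ξ‖ ≤ K * volume.real (ball (0 : ℂ) t) := by
      apply norm_setIntegral_le_of_norm_le_const (measure_ball_lt_top)
      intro ξ hξ
      exact hK ξ (ball_subset_ball ht.2.le hξ)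
    have h2 : volume.real (ball (0 : ℂ) t) = t ^ 2 * Real.pi := by
      rw [Measure.real, Complex.volume_ball]
      simp [ENNReal.toReal_ofReal ht.1.le]
    rw [hq]
    simp only
    rw [norm_div, Real.norm_of_nonneg ht.1.le, div_le_iff₀ ht.1]
    have h3 := hK0 t ht
    have h4 : t < 1 := ht.2.trans hr1
    calc ‖∫ ξ in ball (0 : ℂ) t, g ξ‖ ≤ K * (t ^ 2 * Real.pi) := by rw [← h2]; exact h1
      _ = K * Real.pi * (t * t) := by ring
      _ ≤ K * Real.pi * t := by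
          have : 0 ≤ K * Real.pi := by positivity
          have h5 : t * t ≤ t := by nlinarith [ht.1]
          gcongr
  intro s hs
  by_contra hpos
  rw [not_le] at hpos
  have hr0 : 0 < r := hs.1.trans hs.2
  have hcont : ContinuousOn (fun x => ∫ t in (0 : ℝ)..x, q t) (uIcc 0 r) := by
    apply intervalIntegral.continuousOn_primitive_interval
    rw [uIcc_of_le hr0.le]
    rwa [integrableOn_Icc_iff_integrableOn_Ioo]
  have hcs : ContinuousAt (fun x => ∫ t in (0 : ℝ)..x, q t) s := by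
    apply hcont.continuousAt
    rw [uIcc_of_le hr0.le]
    exact Icc_mem_nhds hs.1 hs.2
  have heq : ∀ x ∈ Ioo (0 : ℝ) r, ∫ t in (0 : ℝ)..x, q t =
      ∫ ξ in ball (0 : ℂ) x, Real.log (x / ‖ξ‖) * g ξ := by
    intro x hx
    rw [← hnev x hx, intervalIntegral.integral_of_le hx.1.le, integral_Ioc_eq_integral_Ioo]
    rfl
  have hpos' : 0 < ∫ t in (0 : ℝ)..s, q t := by rw [heq s hs]; exact hpos
  have hev : ∀ᶠ x in 𝓝 s, 0 < ∫ t in (0 : ℝ)..x, q t := hcs.eventually (lt_mem_nhds hpos')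
  have hev2 : ∀ᶠ x in 𝓝 s, x ∈ Ioo (0 : ℝ) r ∧
      0 < ∫ ξ in ball (0 : ℂ) x, Real.log (x / ‖ξ‖) * g ξ := by
    filter_upwards [hev, isOpen_Ioo.mem_nhds hs] with x h1 h2
    exact ⟨h2, by rw [← heq x h2]; exact h1⟩
  have hmeas : 0 < volume {x : ℝ | x ∈ Ioo (0 : ℝ) r ∧
      0 < ∫ ξ in ball (0 : ℂ) x, Real.log (x / ‖ξ‖) * g ξ} := Measure.measure_pos_of_mem_nhds _ hev2
  rw [ae_restrict_iff' measurableSet_Ioo] at h
  have hnull : volume {x : ℝ | x ∈ Ioo (0 : ℝ) r ∧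
      0 < ∫ ξ in ball (0 : ℂ) x, Real.log (x / ‖ξ‖) * g ξ} = 0 := by
    refine measure_mono_null ?_ (ae_iff.1 h)
    intro x hx
    simp only [mem_setOf_eq, Classical.not_imp, not_le]
    exact hx
  exact absurd hnull hmeas.ne'

variable {M : Type*} [TopologicalSpace M] [T2Space M] [MeasurableSpace M] [BorelSpace M]
  [Nonempty M]
  {Y : Type*} [NormedAddCommGroup Y] [NormedSpace ℝ Y] [FiniteDimensional ℝ Y]
  [MeasurableSpace Y] [BorelSpace Y]

open Classical in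
/-- the key estimate on one disc -/
lemma disc_max (Λ : Lam M Y) (μ : Measure M) [IsFiniteMeasure μ] (TS : TestSys Λ μ)
    {f : M → ℝ} (hf : Measurable f) {B : ℝ} (hB0 : 0 ≤ B) (hB : ∀ x, |f x| ≤ B)
    {U W : ℕ → M → ℝ} {u : ℕ → ℕ → (M → ℝ) × (M → ℝ)}
    (hU : ∀ n, Measurable (U n)) (hW : ∀ n, Measurable (W n))
    (hu : ∀ n j, (u n j).1 ∈ TS.D ∧ (u n j).2 = TS.L (u n j).1)
    {H : ℕ → M → ℝ≥0∞} (hH : ∀ n, Measurable (H n))
    (hHu : ∀ n j x, ‖(u n j).1 x‖ₑ ≤ H n x ∧ ‖(u n j).2 x‖ₑ ≤ H n x)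
    {N : Set M} (hN : MeasurableSet N)
    (hlim : ∀ n, ∀ x ∉ N, Tendsto (fun j => (u n j).1 x) atTop (𝓝 (U n x)) ∧
      Tendsto (fun j => (u n j).2 x) atTop (𝓝 (W n x)))
    (heq : ∀ n : ℕ, ∀ x ∉ N, 1 / ((n : ℝ) + 1) * U n x - W n x =
        f x + ((n : ℝ) + 1) * max (-(U n x)) 0)
    (hbd : ∀ n : ℕ, ∀ x ∉ N, -(B / ((n : ℝ) + 1)) ≤ U n x ∧ U n x ≤ B * ((n : ℝ) + 1))
    {φ : ℂ → M} {σ : ℂ → ℝ} (hd : Λ.IsDisc φ σ) (hφ0 : φ 0 ∉ N) (hUφ : ∀ n, U n (φ 0) ≤ 0)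
    (hHφ : ∀ n, ∀ s : ℝ, s < 1 → ∫⁻ ξ in ball (0 : ℂ) s,
      (1 + ENNReal.ofReal (Real.log (1 / ‖ξ‖))) * H n (φ ξ) < ⊤)
    (hNφ : ∀ᵐ ξ ∂(volume.restrict (ball (0 : ℂ) 1)), φ ξ ∉ N) :
    ∀ s ∈ Ioo (0 : ℝ) 1, ∫ ξ in ball (0 : ℂ) s, Real.log (s / ‖ξ‖) * (σ ξ * f (φ ξ)) ≤ 0 := by
  -- measurable versions
  set φ' : ℂ → M := fun ξ => if ξ ∈ ball (0 : ℂ) 1 then φ ξ else φ 0 with hφ'
  set σ' : ℂ → ℝ := fun ξ => if ξ ∈ ball (0 : ℂ) 1 then σ ξ else 0 with hσ'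
  have hφe : EqOn φ' φ (ball 0 1) := fun ξ hξ => by simp only [hφ']; rw [if_pos hξ]
  have hσe : EqOn σ' σ (ball 0 1) := fun ξ hξ => by simp only [hσ']; rw [if_pos hξ]
  have hφm : Measurable φ' := by
    have : φ' = (ball (0 : ℂ) 1).piecewise φ (fun _ => φ 0) := by
      ext ξ; simp only [hφ', piecewise]
    rw [this]
    exact hd.continuousOn.measurable_piecewise continuousOn_const measurableSet_ball
  have hσm : Measurable σ' := by
    have : σ' = (ball (0 : ℂ) 1).piecewise σ (fun _ => 0) := by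
      ext ξ; simp only [hσ', piecewise]
    rw [this]
    exact hd.continuousOn_σ.measurable_piecewise continuousOn_const measurableSet_ball
  have hd' : Λ.IsDisc φ' σ' := hd.congr hφe hσe
  have h0 : φ' 0 = φ 0 := hφe (mem_ball_self one_pos)
  -- reduction to the measurable version
  suffices hs : ∀ s ∈ Ioo (0 : ℝ) 1,
      ∫ ξ in ball (0 : ℂ) s, Real.log (s / ‖ξ‖) * (σ' ξ * f (φ' ξ)) ≤ 0 by
    intro s hs1
    refine le_of_eq_of_le ?_ (hs s hs1)
    apply setIntegral_congr_fun measurableSet_ball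
    intro ξ hξ
    have hξ' : ξ ∈ ball (0 : ℂ) 1 := ball_subset_ball hs1.2.le hξ
    simp only [hφe hξ', hσe hξ']
  -- enough: on `(0, r)` for all `r < 1`
  suffices hr : ∀ r < (1 : ℝ), ∀ s ∈ Ioo (0 : ℝ) r,
      ∫ ξ in ball (0 : ℂ) s, Real.log (s / ‖ξ‖) * (σ' ξ * f (φ' ξ)) ≤ 0 by
    intro s hs1
    obtain ⟨r, hr1, hr2⟩ := exists_between hs1.2
    exact hr r hr2 s ⟨hs1.1, hr1⟩
  intro r hr1
  obtain ⟨C, hC0, hC⟩ := hd'.σ_bdd hr1
  have hσ01 : ∀ ξ, 0 ≤ σ' ξ := by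
    intro ξ
    by_cases h : ξ ∈ ball (0 : ℂ) 1
    · exact (hd'.σ_pos h).le
    · simp only [hσ']; rw [if_neg h]
  have hgm : Measurable (fun ξ => σ' ξ * f (φ' ξ)) := hσm.mul (hf.comp hφm)
  apply kernel_nonpos_of_ae hgm hr1 (K := C * B)
  · intro ξ hξ
    rw [abs_mul, abs_of_nonneg (hσ01 ξ)]
    exact mul_le_mul (hC ξ hξ) (hB _) (abs_nonneg _) hC0.le
  -- Jensen's formula for `U n`
  have hHφ' : ∀ n, ∀ s : ℝ, s < 1 → ∫⁻ ξ in ball (0 : ℂ) s,
      (1 + ENNReal.ofReal (Real.log (1 / ‖ξ‖))) * H n (φ' ξ) < ⊤ := by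
    intro n s hs
    refine lt_of_le_of_lt (le_of_eq ?_) (hHφ n s hs)
    apply setLIntegral_congr_fun measurableSet_ball
    intro ξ hξ
    simp only [hφe (ball_subset_ball hs.le hξ)]
  have hNφ' : ∀ᵐ ξ ∂(volume.restrict (ball (0 : ℂ) 1)), φ' ξ ∉ N := by
    filter_upwards [hNφ, ae_restrict_mem measurableSet_ball] with ξ h1 h2
    rw [hφe h2]; exact h1
  have hum : ∀ n j, Measurable ((u n j).1) := fun n j =>
    (TS.cont _ (hu n j).1).measurable
  have hum2 : ∀ n j, Measurable ((u n j).2) := fun n j => by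
    rw [(hu n j).2]; exact TS.L_meas _ (hu n j).1
  have hJens : ∀ n, ∀ᵐ s ∂(volume.restrict (Ioo (0 : ℝ) 1)),
      Real.circleAverage (fun ξ => U n (φ' ξ)) 0 s - U n (φ 0) =
      1 / (2 * Real.pi) * ∫ ξ in ball (0 : ℂ) s, Real.log (s / ‖ξ‖) * (σ' ξ * W n (φ' ξ)) := by
    intro n
    apply jensen_limit (fun j ξ => (u n j).1 (φ' ξ)) (fun j ξ => σ' ξ * (u n j).2 (φ' ξ))
      (fun ξ => U n (φ' ξ)) (fun ξ => σ' ξ * W n (φ' ξ)) (fun j => (u n j).1 (φ 0)) (U n (φ 0))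
      (fun ξ => H n (φ' ξ)) ((hH n).comp hφm) (fun j => (hum n j).comp hφm)
      (fun j => hσm.mul ((hum2 n j).comp hφm)) ((hU n).comp hφm) (hσm.mul ((hW n).comp hφm))
      (hHφ' n)
    · intro j ξ _
      exact (hHu n j _).1
    · intro s hs
      obtain ⟨C', hC'0, hC'⟩ := hd'.σ_bdd hs
      refine ⟨ENNReal.ofReal C', ENNReal.ofReal_ne_top, fun j ξ hξ => ?_⟩
      rw [enorm_mul, Real.enorm_eq_ofReal (hσ01 ξ)]
      gcongr
      · exact hC' ξ hξ
      · exact (hHu n j _).2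
    · filter_upwards [hNφ'] with ξ hξ
      exact (hlim n _ hξ).1
    · filter_upwards [hNφ'] with ξ hξ
      exact (hlim n _ hξ).2.const_mul _
    · exact (hlim n _ hφ0).1
    · intro j s hs
      have h1 := disc_jensen TS hd' (hu n j).1 hs.1 hs.2
      rw [h0] at h1
      have h2 : (fun ξ => (u n j).1 (φ' ξ)) = (u n j).1 ∘ φ' := rfl
      have hbdL : ∀ ξ ∈ ball (0 : ℂ) s, True := fun _ _ => trivial
      obtain ⟨CL, hCL⟩ := TS.L_bdd _ (hu n j).1
      obtain ⟨C', hC'0, hC'⟩ := hd'.σ_bdd hs.2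
      have hm2 : Measurable (fun ξ => σ' ξ * TS.L (u n j).1 (φ' ξ)) :=
        hσm.mul ((TS.L_meas _ (hu n j).1).comp hφm)
      have h3 : IntegrableOn (fun ξ : ℂ => Real.log (s / ‖ξ‖) * (σ' ξ * TS.L (u n j).1 (φ' ξ)))
          (ball 0 s) := by
        apply kernel_integrable_bdd hs.2 hm2 (K := C' * CL)
        filter_upwards [ae_restrict_mem measurableSet_ball] with ξ hξ
        rw [abs_mul, abs_of_nonneg (hσ01 ξ)]
        exact mul_le_mul (hC' ξ hξ) (hCL _) (abs_nonneg _) hC'0.le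
      have h4 := (nev_eq_kernel _ hm2 s (by
        have h2 := h3.2
        unfold HasFiniteIntegral at h2
        refine lt_of_le_of_lt (le_of_eq ?_) h2
        apply setLIntegral_congr_fun measurableSet_ball
        intro ξ hξ
        simp only [enorm_mul]
        rw [Real.enorm_eq_ofReal (kernel_nonneg hξ)])).2
      rw [h4] at h1
      rw [(hu n j).2]
      exact h1
  -- the basic estimate for large `n`
  obtain ⟨n₀, hn₀⟩ := exists_nat_gt (2 * C)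
  have hest : ∀ n : ℕ, n₀ ≤ n → ∀ᵐ s ∂(volume.restrict (Ioo (0 : ℝ) r)),
      1 / (2 * Real.pi) * ∫ ξ in ball (0 : ℂ) s, Real.log (s / ‖ξ‖) * (σ' ξ * f (φ' ξ)) ≤
        1 / ((n : ℝ) + 1) * C * (2 * (B / ((n : ℝ) + 1) + B * C)) + B / ((n : ℝ) + 1) := by
    intro n hn
    have hn1 : (0 : ℝ) < (n : ℝ) + 1 := by positivity
    apply plane_est (w := fun ξ => U n (φ' ξ)) (g := fun ξ => W n (φ' ξ))
      (f := fun ξ => f (φ' ξ)) (σ := σ') ((hU n).comp hφm) ((hW n).comp hφm) (hf.comp hφm) hσm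
      hr1 hC0.le (fun ξ hξ => ⟨hσ01 ξ, hC ξ hξ⟩) (by positivity) hn1 hB0 (hUφ n) (hJens n)
    · filter_upwards [hNφ'] with ξ hξ
      exact heq n _ hξ
    · filter_upwards [hNφ'] with ξ hξ
      have := hbd n _ hξ
      rwa [div_div_eq_mul_div, div_one]
    · intro ξ; exact hB _
    · have : (n₀ : ℝ) ≤ n := by exact_mod_cast hn
      rw [one_div, inv_mul_le_iff₀ hn1]
      linarith
  have hall : ∀ᵐ s ∂(volume.restrict (Ioo (0 : ℝ) r)), ∀ n : ℕ, n₀ ≤ n →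
      1 / (2 * Real.pi) * ∫ ξ in ball (0 : ℂ) s, Real.log (s / ‖ξ‖) * (σ' ξ * f (φ' ξ)) ≤
        1 / ((n : ℝ) + 1) * C * (2 * (B / ((n : ℝ) + 1) + B * C)) + B / ((n : ℝ) + 1) := by
    rw [ae_all_iff]
    intro n
    by_cases hn : n₀ ≤ n
    · filter_upwards [hest n hn] with s hs _ using hs
    · exact Eventually.of_forall fun s h => absurd h hn
  filter_upwards [hall] with s hs
  have hlim0 : Tendsto (fun n : ℕ => 1 / ((n : ℝ) + 1) * C * (2 * (B / ((n : ℝ) + 1) + B * C)) +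
      B / ((n : ℝ) + 1)) atTop (𝓝 (0 * C * (2 * (B * 0 + B * C)) + B * 0)) := by
    have h1 : Tendsto (fun n : ℕ => 1 / ((n : ℝ) + 1)) atTop (𝓝 0) :=
      tendsto_one_div_add_atTop_nhds_zero_nat
    have h2 : Tendsto (fun n : ℕ => B / ((n : ℝ) + 1)) atTop (𝓝 (B * 0)) := by
      have := h1.const_mul B
      refine this.congr fun n => ?_
      rw [mul_one_div]
    exact ((h1.mul_const C).mul ((h2.add_const _).const_mul 2)).add h2
  have hfin : 1 / (2 * Real.pi) * ∫ ξ in ball (0 : ℂ) s,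
      Real.log (s / ‖ξ‖) * (σ' ξ * f (φ' ξ)) ≤ 0 * C * (2 * (B * 0 + B * C)) + B * 0 := by
    apply ge_of_tendsto hlim0
    filter_upwards [eventually_ge_atTop n₀] with n hn
    exact hs n hn
  have hpi : (0 : ℝ) < 1 / (2 * Real.pi) := by positivity
  have : 1 / (2 * Real.pi) * ∫ ξ in ball (0 : ℂ) s,
      Real.log (s / ‖ξ‖) * (σ' ξ * f (φ' ξ)) ≤ 0 := by simpa using hfin
  by_contra hcon
  rw [not_le] at hcon
  have := mul_pos hpi hcon
  linarith

/-- The maximal inequality. -/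
theorem maximal (Λ : Lam M Y) (μ : Measure M) [IsFiniteMeasure μ] (TS : TestSys Λ μ) :
    MaxStmt Λ μ := by
  intro f hf ⟨B', hB'⟩
  set B := max B' 0 with hBdef
  have hB0 : 0 ≤ B := le_max_right _ _
  have hB : ∀ x, |f x| ≤ B := fun x => (hB' x).trans (le_max_left _ _)
  have dis : ∀ i, Disint Λ μ i := fun i =>
    (exists_disint Λ μ TS i Pool.Agent.H95.Nev.weyl).some
  set G : Set ((M → ℝ) × (M → ℝ)) := {p | ∃ u ∈ TS.D, p = (u, TS.L u)} with hG
  obtain ⟨U, W, u, hU, hW, huG, hsum, hlim, heq, hbd, hint⟩ :=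
    Pool.Agent.H51.Nev.fa_main μ G ⟨_, _, TS.one_mem, rfl⟩
      (by
        rintro p ⟨a, ha, rfl⟩ q ⟨b, hb, rfl⟩ c
        refine ⟨fun x => a x + c * b x, TS.lin a ha b hb c, ?_⟩
        ext x
        · simp
        · simp [Pool.Agent.H60.Nev.L_add_mul TS ha hb c x])
      (by
        rintro p ⟨a, ha, rfl⟩
        exact ⟨(TS.cont a ha).measurable, TS.L_meas a ha⟩)
      (by
        rintro p ⟨a, ha, rfl⟩
        obtain ⟨C1, h1⟩ := TS.bdd a ha
        obtain ⟨C2, h2⟩ := TS.L_bdd a ha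
        exact ⟨max C1 C2, fun x => ⟨(h1 x).trans (le_max_left _ _),
          (h2 x).trans (le_max_right _ _)⟩⟩)
      (by
        rintro p ⟨a, ha, rfl⟩ β hβ hmono hb
        exact Pool.Agent.H60.Nev.Q3.dissipative Λ μ TS a ha β hβ hmono hb)
      (by
        intro lam hlam γ hγ hb h
        exact Pool.Agent.H60.Nev.Q3.range_dense Λ μ TS dis lam hlam γ hγ hb
          fun v hv => h _ ⟨v, hv, rfl⟩)
      f hf B hB
  have hu : ∀ n j, (u n j).1 ∈ TS.D ∧ (u n j).2 = TS.L (u n j).1 := by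
    intro n j
    obtain ⟨a, ha, hae⟩ := huG n j
    rw [hae]; exact ⟨ha, rfl⟩
  set H : ℕ → M → ℝ≥0∞ := fun n x => ‖(u n 0).1 x‖ₑ + ‖(u n 0).2 x‖ₑ +
    ∑' j, (‖(u n (j + 1)).1 x - (u n j).1 x‖ₑ + ‖(u n (j + 1)).2 x - (u n j).2 x‖ₑ) with hH
  have hum : ∀ n j, Measurable ((u n j).1) := fun n j =>
    (TS.cont _ (hu n j).1).measurable
  have hum2 : ∀ n j, Measurable ((u n j).2) := fun n j => by
    rw [(hu n j).2]; exact TS.L_meas _ (hu n j).1
  have hHm : ∀ n, Measurable (H n) := by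
    intro n
    refine ((hum n 0).enorm.add (hum2 n 0).enorm).add ?_
    apply Measurable.ennreal_tsum
    intro j
    exact ((hum n (j + 1)).sub (hum n j)).enorm.add ((hum2 n (j + 1)).sub (hum2 n j)).enorm
  have hHu : ∀ n j x, ‖(u n j).1 x‖ₑ + ‖(u n j).2 x‖ₑ ≤ ‖(u n 0).1 x‖ₑ + ‖(u n 0).2 x‖ₑ +
      ∑ k ∈ Finset.range j, (‖(u n (k + 1)).1 x - (u n k).1 x‖ₑ +
        ‖(u n (k + 1)).2 x - (u n k).2 x‖ₑ) := by
    intro n j x
    induction j with
    | zero => simp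
    | succ j ih =>
      rw [Finset.sum_range_succ, ← add_assoc]
      have h1 : ‖(u n (j + 1)).1 x‖ₑ ≤ ‖(u n j).1 x‖ₑ + ‖(u n (j + 1)).1 x - (u n j).1 x‖ₑ := by
        calc ‖(u n (j + 1)).1 x‖ₑ = ‖(u n j).1 x + ((u n (j + 1)).1 x - (u n j).1 x)‖ₑ := by
              congr 1; ring
          _ ≤ _ := enorm_add_le _ _
      have h2 : ‖(u n (j + 1)).2 x‖ₑ ≤ ‖(u n j).2 x‖ₑ + ‖(u n (j + 1)).2 x - (u n j).2 x‖ₑ := by
        calc ‖(u n (j + 1)).2 x‖ₑ = ‖(u n j).2 x + ((u n (j + 1)).2 x - (u n j).2 x)‖ₑ := by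
              congr 1; ring
          _ ≤ _ := enorm_add_le _ _
      calc _ ≤ (‖(u n j).1 x‖ₑ + ‖(u n (j + 1)).1 x - (u n j).1 x‖ₑ) +
            (‖(u n j).2 x‖ₑ + ‖(u n (j + 1)).2 x - (u n j).2 x‖ₑ) := add_le_add h1 h2
        _ = (‖(u n j).1 x‖ₑ + ‖(u n j).2 x‖ₑ) + (‖(u n (j + 1)).1 x - (u n j).1 x‖ₑ +
            ‖(u n (j + 1)).2 x - (u n j).2 x‖ₑ) := by ring
        _ ≤ _ := by gcongr
  have hHu' : ∀ n j x, ‖(u n j).1 x‖ₑ ≤ H n x ∧ ‖(u n j).2 x‖ₑ ≤ H n x := by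
    intro n j x
    have h1 : ‖(u n j).1 x‖ₑ + ‖(u n j).2 x‖ₑ ≤ H n x := by
      refine (hHu n j x).trans ?_
      rw [hH]
      simp only
      gcongr
      exact ENNReal.sum_le_tsum _
    exact ⟨le_self_add.trans h1, le_add_self.trans h1⟩
  -- the exceptional null set
  have hnull : ∀ᵐ x ∂μ, ∀ n : ℕ, (Tendsto (fun j => (u n j).1 x) atTop (𝓝 (U n x)) ∧
        Tendsto (fun j => (u n j).2 x) atTop (𝓝 (W n x))) ∧
      (1 / ((n : ℝ) + 1) * U n x - W n x = f x + ((n : ℝ) + 1) * max (-(U n x)) 0) ∧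
      (-(B / ((n : ℝ) + 1)) ≤ U n x ∧ U n x ≤ B * ((n : ℝ) + 1)) := by
    rw [ae_all_iff]
    intro n
    filter_upwards [hlim n, heq n, hbd n] with x h1 h2 h3
    exact ⟨h1, h2, h3⟩
  obtain ⟨N, hN1, hN2, hN3⟩ := exists_measurable_superset_of_null (ae_iff.1 hnull)
  have hgood : ∀ x ∉ N, ∀ n : ℕ, (Tendsto (fun j => (u n j).1 x) atTop (𝓝 (U n x)) ∧
        Tendsto (fun j => (u n j).2 x) atTop (𝓝 (W n x))) ∧
      (1 / ((n : ℝ) + 1) * U n x - W n x = f x + ((n : ℝ) + 1) * max (-(U n x)) 0) ∧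
      (-(B / ((n : ℝ) + 1)) ≤ U n x ∧ U n x ≤ B * ((n : ℝ) + 1)) := by
    intro x hx
    by_contra hcon
    exact hx (hN1 hcon)
  have htr : ∀ n, ∀ᵐ a ∂μ, H n a < ⊤ ∧ ∀ φ σ, Λ.IsDisc φ σ → φ 0 = a → ∀ s : ℝ, s < 1 →
      ∫⁻ ξ in ball (0 : ℂ) s, (1 + ENNReal.ofReal (Real.log (1 / ‖ξ‖))) * H n (φ ξ) < ⊤ :=
    fun n => Pool.Agent.H38.NevQ2.transfer Λ μ TS.reg_full dis (H n) (hHm n) (hsum n).ne
  have hNm : Measurable (N.indicator (fun _ => (⊤ : ℝ≥0∞)) : M → ℝ≥0∞) :=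
    measurable_const.indicator hN2
  have htrN := Pool.Agent.H38.NevQ2.transfer Λ μ TS.reg_full dis
    (N.indicator (fun _ => (⊤ : ℝ≥0∞))) hNm (by
      rw [lintegral_indicator_const hN2, hN3, mul_zero]; exact ENNReal.zero_ne_top)
  refine ⟨⋃ n, {x | 0 < U n x}, MeasurableSet.iUnion fun n =>
    measurableSet_lt measurable_const (hU n), hint, ?_⟩
  filter_upwards [ae_all_iff.2 htr, htrN] with a h1 h2 ha φ σ hd hφa
  have haN : a ∉ N := by
    intro h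
    have := h2.1
    rw [indicator_of_mem h] at this
    exact lt_irrefl _ this
  subst hφa
  apply disc_max Λ μ TS hf hB0 hB hU hW hu hHm hHu' hN2 (fun n x hx => (hgood x hx n).1)
    (fun n x hx => (hgood x hx n).2.1) (fun n x hx => (hgood x hx n).2.2) hd haN
  · intro n
    by_contra hcon
    rw [not_le] at hcon
    exact ha (mem_iUnion.2 ⟨n, hcon⟩)
  · intro n s hs
    exact (h1 n).2 φ σ hd rfl s hs
  · -- `φ` avoids `N` almost everywhere
    have h3 : ∀ s < (1 : ℝ), ∀ᵐ ξ ∂(volume.restrict (ball (0 : ℂ) s)), φ ξ ∉ N := by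
      intro s hs
      have h4 := h2.2 φ σ hd rfl s hs
      have hφm : AEMeasurable φ (volume.restrict (ball (0 : ℂ) s)) :=
        (hd.continuousOn.mono (ball_subset_ball hs.le)).aemeasurable measurableSet_ball
      have hm : AEMeasurable (fun ξ => (1 + ENNReal.ofReal (Real.log (1 / ‖ξ‖))) *
          N.indicator (fun _ => (⊤ : ℝ≥0∞)) (φ ξ)) (volume.restrict (ball (0 : ℂ) s)) := by
        refine AEMeasurable.mul ?_ (hNm.comp_aemeasurable hφm)
        exact (measurable_const.add (measurable_kernel 1).ennreal_ofReal).aemeasurable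
      filter_upwards [ae_lt_top' hm h4.ne] with ξ hξ hmem
      rw [indicator_of_mem hmem, ENNReal.mul_top (by simp)] at hξ
      exact lt_irrefl _ hξ
    have h5 : ∀ᵐ ξ : ℂ, ∀ n : ℕ, ξ ∈ ball (0 : ℂ) (1 - 1 / ((n : ℝ) + 2)) → φ ξ ∉ N := by
      rw [ae_all_iff]
      intro n
      have := h3 (1 - 1 / ((n : ℝ) + 2)) (by
        have : (0 : ℝ) < 1 / ((n : ℝ) + 2) := by positivity
        linarith)
      rwa [ae_restrict_iff' measurableSet_ball] at this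
    rw [ae_restrict_iff' measurableSet_ball]
    filter_upwards [h5] with ξ hξ hξ1
    rw [mem_ball_zero_iff] at hξ1
    obtain ⟨n, hn⟩ := exists_nat_gt (1 / (1 - ‖ξ‖))
    have hpos : 0 < 1 - ‖ξ‖ := by linarith
    apply hξ n
    rw [mem_ball_zero_iff]
    have h6 : 1 / ((n : ℝ) + 2) < 1 - ‖ξ‖ := by
      rw [div_lt_iff₀ (by positivity)]
      rw [div_lt_iff₀ hpos] at hn
      nlinarith
    linarith

end Pool.Agent.H45.Nev
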