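import Pool.Agent.H45.Nev.Stmts
import Pool.Agent.H45.Nev.Disc
import Pool.Agent.H45.Nev.PlaneEst
import Pool.Agent.H95.Nev.Erg
import Pool.Agent.H82.Nev.Discs

/-!
# The Nevanlinna integrals in terms of leafwise densities
-/

set_option linter.unusedSectionVars false
set_option linter.style.haveILetI false

open MeasureTheory Set Metric Filter Topology ProbabilityTheory
open scoped ContDiff ENNReal Manifold

namespace Pool.Agent.H45.Nev

lemma nev_q_integrable {g : ℂ → ℝ} (hg : Measurable g) {s K : ℝ} (hs1 : s < 1)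
    (hK : ∀ ξ ∈ ball (0 : ℂ) s, |g ξ| ≤ K) :
    IntegrableOn (fun t : ℝ => (∫ ξ in ball (0 : ℂ) t, g ξ) / t) (Ioo (0 : ℝ) s) := by
  have hqm : AEStronglyMeasurable (fun t : ℝ => (∫ ξ in ball (0 : ℂ) t, g ξ) / t)
      (volume.restrict (Ioo (0 : ℝ) s)) := by
    have h1 : Measurable (fun p : ℝ × ℂ =>
        {p : ℝ × ℂ | p.2 ∈ ball (0 : ℂ) p.1}.indicator (fun p => g p.2) p) :=
      (hg.comp measurable_snd).indicator measurable_mem_ball
    have h2 : StronglyMeasurable (fun t : ℝ => ∫ ξ : ℂ,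
        {p : ℝ × ℂ | p.2 ∈ ball (0 : ℂ) p.1}.indicator (fun p => g p.2) (t, ξ)) :=
      h1.stronglyMeasurable.integral_prod_right'
    have h3 : (fun t : ℝ => (∫ ξ in ball (0 : ℂ) t, g ξ) / t) = fun t => (∫ ξ : ℂ,
        {p : ℝ × ℂ | p.2 ∈ ball (0 : ℂ) p.1}.indicator (fun p => g p.2) (t, ξ)) / t := by
      ext t
      congr 1
      rw [← integral_indicator measurableSet_ball]
      congr 1
    rw [h3]
    exact (h2.measurable.div measurable_id).aestronglyMeasurable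
  refine Integrable.of_bound hqm (K * Real.pi) ?_
  filter_upwards [ae_restrict_mem measurableSet_Ioo] with t ht
  have hK0 : 0 ≤ K := (abs_nonneg _).trans (hK 0 (mem_ball_self (ht.1.trans ht.2)))
  have h1 : ‖∫ ξ in ball (0 : ℂ) t, g ξ‖ ≤ K * volume.real (ball (0 : ℂ) t) := by
    apply norm_setIntegral_le_of_norm_le_const (measure_ball_lt_top)
    intro ξ hξ
    exact hK ξ (ball_subset_ball ht.2.le hξ)
  have h2 : volume.real (ball (0 : ℂ) t) = t ^ 2 * Real.pi := by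
    rw [Measure.real, Complex.volume_ball]
    simp [ENNReal.toReal_ofReal ht.1.le]
  rw [norm_div, Real.norm_of_nonneg ht.1.le, div_le_iff₀ ht.1]
  have h4 : t < 1 := ht.2.trans hs1
  calc ‖∫ ξ in ball (0 : ℂ) t, g ξ‖ ≤ K * (t ^ 2 * Real.pi) := by rw [← h2]; exact h1
    _ = K * Real.pi * (t * t) := by ring
    _ ≤ K * Real.pi * t := by
        have : 0 ≤ K * Real.pi := by positivity
        have h5 : t * t ≤ t := by nlinarith [ht.1]
        gcongr

/-- complex version of the kernel formula -/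
lemma nev_complex {G : ℂ → ℂ} (hG : Measurable G) {s K : ℝ} (hs1 : s < 1)
    (hK : ∀ ξ ∈ ball (0 : ℂ) s, ‖G ξ‖ ≤ K) :
    ∫ t in Ioo (0 : ℝ) s, (∫ ξ in ball (0 : ℂ) t, G ξ) / t =
      ∫ ξ in ball (0 : ℂ) s, (Real.log (s / ‖ξ‖) : ℂ) * G ξ := by
  have hre : Measurable (fun ξ => (G ξ).re) := Complex.measurable_re.comp hG
  have him : Measurable (fun ξ => (G ξ).im) := Complex.measurable_im.comp hG
  have hKre : ∀ ξ ∈ ball (0 : ℂ) s, |(G ξ).re| ≤ K := fun ξ hξ =>
    (Complex.abs_re_le_norm _).trans (hK ξ hξ)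
  have hKim : ∀ ξ ∈ ball (0 : ℂ) s, |(G ξ).im| ≤ K := fun ξ hξ =>
    (Complex.abs_im_le_norm _).trans (hK ξ hξ)
  have hker : ∀ g : ℂ → ℝ, Measurable g → (∀ ξ ∈ ball (0 : ℂ) s, |g ξ| ≤ K) →
      IntegrableOn (fun ξ => Real.log (s / ‖ξ‖) * g ξ) (ball (0 : ℂ) s) ∧
      nev g s = ∫ ξ in ball (0 : ℂ) s, Real.log (s / ‖ξ‖) * g ξ := by
    intro g hg hgK
    apply nev_eq_kernel g hg s
    have h1 : IntegrableOn (fun ξ : ℂ => Real.log (s / ‖ξ‖) * g ξ) (ball 0 s) := by
      apply kernel_integrable_bdd hs1 hg (K := K)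
      filter_upwards [ae_restrict_mem measurableSet_ball] with ξ hξ
      exact hgK ξ hξ
    have h2 := h1.2
    unfold HasFiniteIntegral at h2
    refine lt_of_le_of_lt (le_of_eq ?_) h2
    apply setLIntegral_congr_fun measurableSet_ball
    intro ξ hξ
    simp only [enorm_mul]
    rw [Real.enorm_eq_ofReal (kernel_nonneg hξ)]
  obtain ⟨hi1, he1⟩ := hker _ hre hKre
  obtain ⟨hi2, he2⟩ := hker _ him hKim
  have hq1 := nev_q_integrable hre hs1 hKre
  have hq2 := nev_q_integrable him hs1 hKim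
  -- left hand side
  have hL : ∫ t in Ioo (0 : ℝ) s, (∫ ξ in ball (0 : ℂ) t, G ξ) / t =
      ((nev (fun ξ => (G ξ).re) s : ℝ) : ℂ) + ((nev (fun ξ => (G ξ).im) s : ℝ) : ℂ) * Complex.I := by
    unfold nev
    rw [← integral_complex_ofReal, ← integral_complex_ofReal, ← integral_mul_const,
      ← integral_add hq1.ofReal (hq2.ofReal.mul_const _)]
    apply setIntegral_congr_fun measurableSet_Ioo
    intro t ht
    have hint : IntegrableOn G (ball (0 : ℂ) t) := by
      refine Measure.integrableOn_of_bounded (M := K) measure_ball_lt_top.ne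
        hG.aestronglyMeasurable ?_
      filter_upwards [ae_restrict_mem measurableSet_ball] with ξ hξ
      exact hK ξ (ball_subset_ball ht.2.le hξ)
    have h := integral_re_add_im hint
    simp only [RCLike.re_to_complex, RCLike.im_to_complex, RCLike.I_to_complex] at h
    simp only
    rw [← h, Complex.ofReal_div, Complex.ofReal_div, add_div]
    congr 1
    rw [mul_div_right_comm]
    rfl
  rw [hL, he1, he2, ← integral_complex_ofReal, ← integral_complex_ofReal, ← integral_mul_const,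
    ← integral_add hi1.ofReal (hi2.ofReal.mul_const _)]
  apply setIntegral_congr_fun measurableSet_ball
  intro ξ _
  simp only
  conv_rhs => rw [← Complex.re_add_im (G ξ)]
  push_cast
  ring

variable {E : Type*} [NormedAddCommGroup E] [NormedSpace ℂ E] [FiniteDimensional ℂ E]
  {M : Type*} [TopologicalSpace M] [ChartedSpace E M] [IsManifold 𝓘(ℂ, E) ω M]
  [CompactSpace M] [T2Space M]

/-- the density of the pulled back metric -/
noncomputable def sg (κ : Form11 E M) (φ : ℂ → M) (ξ : ℂ) : ℝ :=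
  (κ.1 (φ ξ) (mfderiv 𝓘(ℂ, ℂ) 𝓘(ℂ, E) φ ξ (1 : ℂ))
    (mfderiv 𝓘(ℂ, ℂ) 𝓘(ℂ, E) φ ξ (1 : ℂ))).re

open Pool.Agent.H95.Nev in
/-- the pull back of a form in terms of its density -/
lemma pullback_eq {F : SingFoliation E M} {κ : Form11 E M} (hκ : IsHermitianMetric κ)
    (θ : Form11 E M) {x : M} (hx : x ∉ F.sing) {v : TangentSpace 𝓘(ℂ, E) x}
    (hv : F.Tangent x v) :
    θ.1 x v v = ((κ.1 x v v).re : ℂ) * dens F κ θ x := by
  obtain ⟨c, hc⟩ := tangent_iff hx hv
  have h1 : ∀ η : Form11 E M, η.1 x v v = c * (starRingEnd ℂ) c * ev η.1 x (gn F x) (gn F x) := by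
    intro η
    have : η.1 x v v = ev η.1 x v v := rfl
    rw [this, hc, ev_smul_left, ev_smul_right]
    ring
  have h2 : ((κ.1 x v v).re : ℂ) = κ.1 x v v := (metric_eq hκ (x := x) v).symm
  rw [h2, h1 θ, h1 κ, dens_def hx]
  have hne := metric_ne hκ (x := x) (gen_ne_zero (F := F) hx)
  field_simp

variable [MeasurableSpace M] [BorelSpace M]

/-- The Nevanlinna integrals in terms of leafwise densities. -/
theorem nevInt_eq {F : SingFoliation E M} {κ : Form11 E M} (hκ : IsHermitianMetric κ)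
    {m : ℕ} {Λ : Lam M (Fin m → ℂ)} (hΛ : GoodBoxes F κ Λ) {φ : ℂ → M}
    (hφ : F.IsUniversalCovering φ) (θ : Form11 E M) {s : ℝ} (hs : s ∈ Ioo (0 : ℝ) 1) :
    nevInt φ θ s = ∫ ξ in ball (0 : ℂ) s, (Real.log (s / ‖ξ‖) : ℂ) *
      ((sg κ φ ξ : ℂ) * dens F κ θ (φ ξ)) := by
  classical
  have hd := Pool.Agent.H82.Nev.isDisc_of F κ hκ Λ hΛ φ hφ.toIsLeafDisc hφ.unramified
  obtain ⟨C', hC'0, hC'⟩ := hd.σ_bdd hs.2
  obtain ⟨hm, C, hC⟩ := Pool.Agent.H95.Nev.dens_meas F κ hκ θ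
  set G : ℂ → ℂ := (ball (0 : ℂ) 1).indicator
    (fun ξ => (sg κ φ ξ : ℂ) * dens F κ θ (φ ξ)) with hGdef
  have hGe : ∀ ξ ∈ ball (0 : ℂ) 1, G ξ = (sg κ φ ξ : ℂ) * dens F κ θ (φ ξ) := fun ξ hξ =>
    indicator_of_mem hξ _
  have hGm : Measurable G := by
    have h1 : Measurable ((ball (0 : ℂ) 1).piecewise φ (fun _ => φ 0)) :=
      hd.continuousOn.measurable_piecewise continuousOn_const measurableSet_ball
    have h2 : Measurable ((ball (0 : ℂ) 1).piecewise (sg κ φ) (fun _ => 0)) :=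
      hd.continuousOn_σ.measurable_piecewise continuousOn_const measurableSet_ball
    have h3 : G = (ball (0 : ℂ) 1).indicator (fun ξ =>
        (((ball (0 : ℂ) 1).piecewise (sg κ φ) (fun _ => 0) ξ : ℝ) : ℂ) *
          dens F κ θ ((ball (0 : ℂ) 1).piecewise φ (fun _ => φ 0) ξ)) := by
      ext ξ
      by_cases h : ξ ∈ ball (0 : ℂ) 1
      · rw [hGe ξ h, indicator_of_mem h, piecewise_eq_of_mem _ _ _ h, piecewise_eq_of_mem _ _ _ h]
      · rw [indicator_of_notMem h, hGdef, indicator_of_notMem h]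
    rw [h3]
    exact ((Complex.measurable_ofReal.comp h2).mul (hm.comp h1)).indicator measurableSet_ball
  have hK : ∀ ξ ∈ ball (0 : ℂ) s, ‖G ξ‖ ≤ C' * C := by
    intro ξ hξ
    have hξ1 : ξ ∈ ball (0 : ℂ) 1 := ball_subset_ball hs.2.le hξ
    have hp : 0 ≤ sg κ φ ξ := (hd.σ_pos hξ1).le
    rw [hGe ξ hξ1, norm_mul, Complex.norm_real, Real.norm_of_nonneg hp]
    exact mul_le_mul (hC' ξ hξ) (hC _) (norm_nonneg _) hC'0.le
  have h1 := nev_complex hGm hs.2 hK
  have h2 : nevInt φ θ s = ∫ t in Ioo (0 : ℝ) s, (∫ ξ in ball (0 : ℂ) t, G ξ) / t := by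
    unfold nevInt
    apply setIntegral_congr_fun measurableSet_Ioo
    intro t ht
    simp only
    congr 1
    apply setIntegral_congr_fun measurableSet_ball
    intro ξ hξ
    have hξ1 : ξ ∈ ball (0 : ℂ) 1 := ball_subset_ball (ht.2.trans hs.2).le hξ
    simp only
    rw [hGe ξ hξ1]
    exact pullback_eq hκ θ (hφ.notMem ξ hξ1) (hφ.tangent ξ hξ1)
  rw [h2, h1]
  apply setIntegral_congr_fun measurableSet_ball
  intro ξ hξ
  simp only
  rw [hGe ξ (ball_subset_ball hs.2.le hξ)]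

end Pool.Agent.H45.Nev
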