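import Mathlib

/-!
# Basic definitions on the plane: the flat Laplacian and the Nevanlinna double integral
-/

open MeasureTheory Set Metric Filter Topology
open scoped ContDiff

namespace Pool.Agent.H45.Nev

/-- flat Laplacian of a real function on `ℂ` -/
noncomputable def lap (f : ℂ → ℝ) (z : ℂ) : ℝ :=
  fderiv ℝ (fderiv ℝ f) z 1 1 + fderiv ℝ (fderiv ℝ f) z Complex.I Complex.I

/-- the double integral `∫₀ˢ (∫_{|ξ|<t} f) dt / t` of Nevanlinna theory -/
noncomputable def nev (f : ℂ → ℝ) (s : ℝ) : ℝ :=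
  ∫ t in Ioo (0 : ℝ) s, (∫ ξ in ball (0 : ℂ) t, f ξ) / t

end Pool.Agent.H45.Nev
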