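import Pool.Agent.H63.Nev.AreaLower
import Pool.Agent.H63.Nev.NevInfinite
import Pool.Agent.H45.Nev.MaxIneq
import Pool.Agent.H45.Nev.NevInt
import Pool.Agent.H45.Nev.Fol
import Pool.Agent.H82.Nev.Ddc
import Pool.Agent.H82.Nev.Discs
import Pool.Agent.H11.Nev.Ratio
import Pool.Agent.H11.FB.FlowBox
import Pool.Agent.H42.Nev.TestSysMan
import Pool.Agent.H95.Nev.Erg
import Pool.Agent.H71.Nev343.Separable
import Pool.Agent.H91.Nev.Boxes

/-!
# The geometric ergodic theorem for singular holomorphic foliations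
-/

set_option linter.unusedSectionVars false
set_option linter.style.haveILetI false

open MeasureTheory Set Metric Filter Topology ProbabilityTheory
open scoped ContDiff ENNReal Manifold

namespace Pool.Agent.H45.Nev

open Pool.Agent.H82.Nev (exists_ddc isDisc_of isUniv_of)
open Pool.Agent.H11.Nev (ratio_ergodic)
open Pool.Agent.H63.Nev (area_lower nev_infinite)

variable {E : Type*} [NormedAddCommGroup E] [NormedSpace ℂ E] [FiniteDimensional ℂ E]
  {M : Type*} [TopologicalSpace M] [ChartedSpace E M] [IsManifold 𝓘(ℂ, E) ω M]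
  [CompactSpace M] [T2Space M]

/-- the density of `dd^c u` is the leafwise Laplacian -/
lemma dens_ddc_re {F : SingFoliation E M} {κ : Form11 E M} (hκ : IsHermitianMetric κ)
    {u : M → ℝ} (hu : IsSmooth E u) {θ : Form11 E M}
    (h : IsDdc u θ) (x : M) : (dens F κ θ x).re = 1 / (2 * Real.pi) * leafLap F κ u x := by
  obtain ⟨θ', h', hf⟩ := exists_ddc u hu
  have h1 : dens F κ θ x = dens F κ θ' x := by
    by_cases hx : x ∈ F.sing
    · rw [Pool.Agent.H95.Nev.dens_sing hx, Pool.Agent.H95.Nev.dens_sing hx]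
    · rw [Pool.Agent.H95.Nev.dens_def hx, Pool.Agent.H95.Nev.dens_def hx]
      congr 1
      have he : chartAt E x ∈ IsManifold.maximalAtlas 𝓘(ℂ, E) ω M := chartAt_mem_max x
      have hxs : x ∈ (chartAt E x).source := mem_chart_source E x
      have hy := (chartAt E x).map_source hxs
      rw [Pool.Agent.H95.Nev.ev_eq_inChart he hxs, Pool.Agent.H95.Nev.ev_eq_inChart he hxs,
        h _ he _ hy, h' _ he _ hy]
  rw [h1, Pool.Agent.H42.Nev.leafLap_eq_dens hκ hf]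
  have hpi := Real.pi_ne_zero
  field_simp

/-- the density of the metric -/
lemma dens_self {F : SingFoliation E M} {κ : Form11 E M} (hκ : IsHermitianMetric κ)
    {x : M} (hx : x ∉ F.sing) : dens F κ κ x = 1 := by
  rw [Pool.Agent.H95.Nev.dens_def hx]
  exact div_self (Pool.Agent.H95.Nev.metric_ne hκ (Pool.Agent.H95.Nev.gen_ne_zero hx))

lemma dens_sub {F : SingFoliation E M} {κ : Form11 E M} (θ η : Form11 E M) (x : M) :
    dens F κ (θ - η) x = dens F κ θ x - dens F κ η x := by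
  by_cases hx : x ∈ F.sing
  · simp [Pool.Agent.H95.Nev.dens_sing hx]
  · rw [Pool.Agent.H95.Nev.dens_def hx, Pool.Agent.H95.Nev.dens_def hx,
      Pool.Agent.H95.Nev.dens_def hx, ← sub_div]
    rfl

/-- bound for the density -/
lemma dens_le {F : SingFoliation E M} {κ : Form11 E M} (hκ : IsHermitianMetric κ)
    {θ : Form11 E M} {ε : ℝ} (hε : 0 ≤ ε)
    (h : ∀ (x : M) (v : TangentSpace 𝓘(ℂ, E) x), ‖θ.1 x v v‖ ≤ ε * (κ.1 x v v).re) (x : M) :
    ‖dens F κ θ x‖ ≤ ε := by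
  by_cases hx : x ∈ F.sing
  · rw [Pool.Agent.H95.Nev.dens_sing hx, norm_zero]; exact hε
  · rw [Pool.Agent.H95.Nev.dens_def hx, norm_div]
    have h1 := Pool.Agent.H95.Nev.metric_pos hκ (x := x) (Pool.Agent.H95.Nev.gen_ne_zero hx)
    have h2 : ‖Pool.Agent.H95.Nev.ev κ.1 x (Pool.Agent.H95.Nev.gn F x)
        (Pool.Agent.H95.Nev.gn F x)‖ = (Pool.Agent.H95.Nev.ev κ.1 x (Pool.Agent.H95.Nev.gn F x)
        (Pool.Agent.H95.Nev.gn F x)).re := by
      rw [Pool.Agent.H95.Nev.metric_eq hκ (Pool.Agent.H95.Nev.gn F x), Complex.ofReal_re,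
        Complex.norm_real, Real.norm_of_nonneg h1.le]
    rw [h2, div_le_iff₀ h1]
    exact h x (F.gen x)

variable [MeasurableSpace M] [BorelSpace M]

section disc

variable {F : SingFoliation E M} {κ : Form11 E M} {m : ℕ} {Λ : Lam M (Fin m → ℂ)}

lemma sg_continuousOn (hκ : IsHermitianMetric κ) (hΛ : GoodBoxes F κ Λ) {φ : ℂ → M}
    (hφ : F.IsUniversalCovering φ) : ContinuousOn (sg κ φ) (ball 0 1) :=
  (isDisc_of F κ hκ Λ hΛ φ hφ.toIsLeafDisc hφ.unramified).continuousOn_σ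

lemma sg_pos (hκ : IsHermitianMetric κ) (hΛ : GoodBoxes F κ Λ) {φ : ℂ → M}
    (hφ : F.IsUniversalCovering φ) {ξ : ℂ} (hξ : ξ ∈ ball (0 : ℂ) 1) : 0 < sg κ φ ξ :=
  (isDisc_of F κ hκ Λ hΛ φ hφ.toIsLeafDisc hφ.unramified).σ_pos hξ

/-- integrability of the Nevanlinna kernel against bounded functions -/
lemma nev_integrable (hκ : IsHermitianMetric κ) (hΛ : GoodBoxes F κ Λ) {φ : ℂ → M}
    (hφ : F.IsUniversalCovering φ) {g : M → ℂ} (hg : Measurable g) {C : ℝ}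
    (hC : ∀ x, ‖g x‖ ≤ C) {s : ℝ} (hs : s ∈ Ioo (0 : ℝ) 1) :
    IntegrableOn (fun ξ : ℂ => (Real.log (s / ‖ξ‖) : ℂ) * ((sg κ φ ξ : ℂ) * g (φ ξ)))
      (ball 0 s) := by
  have hd := isDisc_of F κ hκ Λ hΛ φ hφ.toIsLeafDisc hφ.unramified
  obtain ⟨C', hC'0, hC'⟩ := hd.σ_bdd hs.2
  have hsub : ball (0 : ℂ) s ⊆ ball 0 1 := ball_subset_ball hs.2.le
  have hφm : AEMeasurable φ (volume.restrict (ball (0 : ℂ) s)) :=
    (hd.continuousOn.mono hsub).aemeasurable measurableSet_ball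
  have hσm : AEMeasurable (sg κ φ) (volume.restrict (ball (0 : ℂ) s)) :=
    (hd.continuousOn_σ.mono hsub).aemeasurable measurableSet_ball
  have hC0 : 0 ≤ C := (norm_nonneg _).trans (hC (φ 0))
  refine Integrable.mono' ((kernel_integrableOn hs.2).norm.mul_const (C' * C)) ?_ ?_
  · apply AEMeasurable.aestronglyMeasurable
    refine (Complex.measurable_ofReal.comp (measurable_kernel s)).aemeasurable.mul ?_
    exact (Complex.measurable_ofReal.comp_aemeasurable hσm).mul (hg.comp_aemeasurable hφm)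
  · filter_upwards [ae_restrict_mem measurableSet_ball] with ξ hξ
    rw [norm_mul, norm_mul, Complex.norm_real, Complex.norm_real]
    have hp : 0 ≤ sg κ φ ξ := (hd.σ_pos (hsub hξ)).le
    have h1 : ‖sg κ φ ξ‖ ≤ C' := by
      rw [Real.norm_of_nonneg hp]; exact hC' ξ hξ
    gcongr
    exact hC _

/-- the Nevanlinna integral of the metric -/
lemma nevInt_metric (hκ : IsHermitianMetric κ) (hΛ : GoodBoxes F κ Λ) {φ : ℂ → M}
    (hφ : F.IsUniversalCovering φ) {s : ℝ} (hs : s ∈ Ioo (0 : ℝ) 1) :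
    nevInt φ κ s = ((∫ ξ in ball (0 : ℂ) s, Real.log (s / ‖ξ‖) * sg κ φ ξ : ℝ) : ℂ) := by
  rw [nevInt_eq hκ hΛ hφ κ hs, ← integral_complex_ofReal]
  apply setIntegral_congr_fun measurableSet_ball
  intro ξ hξ
  simp only
  rw [dens_self hκ (hφ.notMem ξ (ball_subset_ball hs.2.le hξ)), mul_one, Complex.ofReal_mul]

/-- real and imaginary parts of the Nevanlinna integrals -/
lemma nevInt_parts (hκ : IsHermitianMetric κ) (hΛ : GoodBoxes F κ Λ) {φ : ℂ → M}
    (hφ : F.IsUniversalCovering φ) (θ : Form11 E M) {s : ℝ} (hs : s ∈ Ioo (0 : ℝ) 1) :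
    nevInt φ θ s =
      ((∫ ξ in ball (0 : ℂ) s, Real.log (s / ‖ξ‖) * (sg κ φ ξ * (dens F κ θ (φ ξ)).re) : ℝ) : ℂ) +
      ((∫ ξ in ball (0 : ℂ) s, Real.log (s / ‖ξ‖) * (sg κ φ ξ * (dens F κ θ (φ ξ)).im) : ℝ) : ℂ) *
        Complex.I := by
  obtain ⟨hm, C, hC⟩ := Pool.Agent.H95.Nev.dens_meas F κ hκ θ
  rw [nevInt_eq hκ hΛ hφ θ hs]
  have hint := nev_integrable hκ hΛ hφ hm hC hs
  have h := integral_re_add_im hint
  rw [← h]
  congr 1
  · congr 2
    ext ξ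
    simp only [RCLike.re_to_complex]
    rw [Complex.re_ofReal_mul, Complex.re_ofReal_mul]
  · congr 2
    congr 1
    ext ξ
    simp only [RCLike.im_to_complex]
    rw [Complex.im_ofReal_mul, Complex.im_ofReal_mul]

end disc

/-- The geometric ergodic theorem. -/
theorem geometric_ergodic (F : SingFoliation E M) (κ : Form11 E M) (hκ : IsHermitianMetric κ)
    (T : Form11 E M →ₗ[ℂ] ℂ) (hT : F.IsExtremal T) (μ : Measure M) [IsFiniteMeasure μ]
    (hμ : IsTraceMeasure T κ μ)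
    (hhyp : ∀ᵐ a ∂μ, ∃ φ : ℂ → M, F.IsUniversalCovering φ ∧ φ 0 = a) :
    ∀ᵐ a ∂μ, ∀ φ : ℂ → M, F.IsUniversalCovering φ → φ 0 = a → ∀ θ : Form11 E M,
      Tendsto (fun r => nevCurrent κ φ r θ) (𝓝[<] 1) (𝓝 (T θ / T κ)) := by
  by_cases hμ0 : μ = 0
  · rw [hμ0]; simp
  have hne : Nonempty M := by
    by_contra h
    rw [not_nonempty_iff] at h
    exact hμ0 (Measure.eq_zero_of_isEmpty μ)
  -- the singular set is null
  have hsing : μ F.sing = 0 := by
    refine measure_mono_null ?_ (ae_iff.1 hhyp)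
    rintro a ha ⟨φ, hφ, rfl⟩
    exact hφ.notMem 0 (mem_ball_self one_pos) ha
  have hTH := hT.1
  have hcf : ∀ θ : Form11 E M, T θ = ∫ x, dens F κ θ x ∂μ := fun θ =>
    Pool.Agent.H95.Nev.current_formula F κ hκ μ hsing T hTH.1 hTH.2.2 hμ θ
  -- mass
  have hmass : T κ = (μ.real univ : ℂ) := by
    rw [hcf]
    have : (fun x => dens F κ κ x) =ᵐ[μ] fun _ => (1 : ℂ) := by
      have h1 : ∀ᵐ x ∂μ, x ∉ F.sing := by rw [ae_iff]; simpa using hsing
      filter_upwards [h1] with x hx using dens_self hκ hx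
    rw [integral_congr_ae this, integral_const]
    simp
  have hmpos : 0 < μ.real univ := by
    rw [Measure.real]
    exact ENNReal.toReal_pos (by simpa using hμ0) (measure_ne_top _ _)
  -- the lamination
  obtain ⟨m, Λ, hreg, hpl, hsm, hsms⟩ := Pool.Agent.H91.Nev.exists_boxes F κ hκ
  have hΛ : GoodBoxes F κ Λ := ⟨hreg, hpl, hsm, hsms⟩
  obtain ⟨TS, hD, hL⟩ := Pool.Agent.H42.Nev.exists_testSys F κ hκ μ hsing T hTH hμ Λ hΛ
    exists_ddc
  have hmax : MaxStmt Λ μ := maximal Λ μ TS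
  have hinf : InfStmt Λ μ := nev_infinite Λ μ TS hmax (area_lower Λ)
  have herg : ∀ γ : M → ℝ, Measurable γ → (∃ C, ∀ x, |γ x| ≤ C) →
      (∀ u ∈ TS.D, ∫ x, γ x * TS.L u x ∂μ = 0) → ∃ c : ℝ, γ =ᵐ[μ] fun _ => c := by
    intro γ hγ hb h
    apply Pool.Agent.H95.Nev.ergodic_of_extremal F κ hκ μ hsing T hT hμ γ hγ hb
    intro u hu θ hθ
    have h1 := h u (by rw [hD]; exact hu)
    rw [hL] at h1
    have h2 : (fun x => γ x * (dens F κ θ x).re) =
        fun x => 1 / (2 * Real.pi) * (γ x * leafLap F κ u x) := by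
      ext x
      rw [dens_ddc_re hκ hu hθ]; ring
    rw [h2, integral_const_mul, h1, mul_zero]
  -- countably many forms
  obtain ⟨S, hS, hSd⟩ := Pool.Agent.H71.Nev343.form_separable κ hκ
  have hlim : ∀ f : M → ℝ, Measurable f → (∃ B, ∀ x, |f x| ≤ B) →
      ∀ᵐ a ∂μ, ∀ (φ : ℂ → M) (σ : ℂ → ℝ), Λ.IsUniv φ σ → φ 0 = a →
      Tendsto (fun s : ℝ => (∫ ξ in ball (0 : ℂ) s, Real.log (s / ‖ξ‖) * (σ ξ * f (φ ξ))) /
        ∫ ξ in ball (0 : ℂ) s, Real.log (s / ‖ξ‖) * σ ξ) (𝓝[<] 1)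
        (𝓝 ((∫ x, f x ∂μ) / μ.real univ)) := fun f hf hB =>
    ratio_ergodic Λ μ hμ0 TS hmax hinf herg f hf hB
  have hall : ∀ᵐ a ∂μ, ∀ θ ∈ S,
      (∀ (φ : ℂ → M) (σ : ℂ → ℝ), Λ.IsUniv φ σ → φ 0 = a →
      Tendsto (fun s : ℝ => (∫ ξ in ball (0 : ℂ) s, Real.log (s / ‖ξ‖) *
        (σ ξ * (dens F κ θ (φ ξ)).re)) /
        ∫ ξ in ball (0 : ℂ) s, Real.log (s / ‖ξ‖) * σ ξ) (𝓝[<] 1)
        (𝓝 ((∫ x, (dens F κ θ x).re ∂μ) / μ.real univ))) ∧
      (∀ (φ : ℂ → M) (σ : ℂ → ℝ), Λ.IsUniv φ σ → φ 0 = a →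
      Tendsto (fun s : ℝ => (∫ ξ in ball (0 : ℂ) s, Real.log (s / ‖ξ‖) *
        (σ ξ * (dens F κ θ (φ ξ)).im)) /
        ∫ ξ in ball (0 : ℂ) s, Real.log (s / ‖ξ‖) * σ ξ) (𝓝[<] 1)
        (𝓝 ((∫ x, (dens F κ θ x).im ∂μ) / μ.real univ))) := by
    rw [ae_ball_iff hS]
    intro θ _
    obtain ⟨hm, C, hC⟩ := Pool.Agent.H95.Nev.dens_meas F κ hκ θ
    filter_upwards [hlim (fun x => (dens F κ θ x).re) (Complex.measurable_re.comp hm)
        ⟨C, fun x => (Complex.abs_re_le_norm _).trans (hC x)⟩,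
      hlim (fun x => (dens F κ θ x).im) (Complex.measurable_im.comp hm)
        ⟨C, fun x => (Complex.abs_im_le_norm _).trans (hC x)⟩] with a h1 h2
    exact ⟨h1, h2⟩
  filter_upwards [hall, hinf] with a ha hia φ hφ hφa θ
  have hU : Λ.IsUniv φ (sg κ φ) := isUniv_of F κ hκ Λ hΛ φ hφ
  have hIoo : ∀ᶠ s in 𝓝[<] (1 : ℝ), s ∈ Ioo (0 : ℝ) 1 := by
    exact Ioo_mem_nhdsLT one_pos
  have hNinf := hia φ (sg κ φ) hU hφa
  have hNpos : ∀ᶠ s in 𝓝[<] (1 : ℝ),
      0 < ∫ ξ in ball (0 : ℂ) s, Real.log (s / ‖ξ‖) * sg κ φ ξ :=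
    hNinf.eventually (eventually_gt_atTop 0)
  -- convergence for the countable family
  have hconv : ∀ η ∈ S, Tendsto (fun r => nevCurrent κ φ r η) (𝓝[<] 1) (𝓝 (T η / T κ)) := by
    intro η hη
    obtain ⟨h1, h2⟩ := ha η hη
    have h3 := h1 φ _ hU hφa
    have h4 := h2 φ _ hU hφa
    have h5 : Tendsto (fun s : ℝ =>
        (((∫ ξ in ball (0 : ℂ) s, Real.log (s / ‖ξ‖) * (sg κ φ ξ * (dens F κ η (φ ξ)).re)) /
          ∫ ξ in ball (0 : ℂ) s, Real.log (s / ‖ξ‖) * sg κ φ ξ : ℝ) : ℂ) +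
        (((∫ ξ in ball (0 : ℂ) s, Real.log (s / ‖ξ‖) * (sg κ φ ξ * (dens F κ η (φ ξ)).im)) /
          ∫ ξ in ball (0 : ℂ) s, Real.log (s / ‖ξ‖) * sg κ φ ξ : ℝ) : ℂ) * Complex.I)
        (𝓝[<] 1) (𝓝 ((((∫ x, (dens F κ η x).re ∂μ) / μ.real univ : ℝ) : ℂ) +
          (((∫ x, (dens F κ η x).im ∂μ) / μ.real univ : ℝ) : ℂ) * Complex.I)) :=
      ((Complex.continuous_ofReal.tendsto _).comp h3).add
        (((Complex.continuous_ofReal.tendsto _).comp h4).mul_const _)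
    have h6 : (((∫ x, (dens F κ η x).re ∂μ) / μ.real univ : ℝ) : ℂ) +
          (((∫ x, (dens F κ η x).im ∂μ) / μ.real univ : ℝ) : ℂ) * Complex.I = T η / T κ := by
      obtain ⟨hm, C, hC⟩ := Pool.Agent.H95.Nev.dens_meas F κ hκ η
      have hint : Integrable (dens F κ η) μ :=
        Integrable.of_bound hm.aestronglyMeasurable C (Eventually.of_forall hC)
      rw [hcf η, hmass]
      have h7 := integral_re_add_im hint
      simp only [RCLike.re_to_complex, RCLike.im_to_complex, RCLike.I_to_complex] at h7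
      rw [← h7, Complex.ofReal_div, Complex.ofReal_div]
      have e1 : ∀ y : ℝ, ((y : ℝ) : ℂ) = (RCLike.ofReal y : ℂ) := fun y => rfl
      simp only [e1]
      ring
    rw [h6] at h5
    refine h5.congr' ?_
    filter_upwards [hIoo, hNpos] with s hs hN
    unfold nevCurrent
    rw [nevInt_parts hκ hΛ hφ η hs, nevInt_metric hκ hΛ hφ hs]
    push_cast
    field_simp
  -- all forms
  rw [Metric.tendsto_nhds]
  intro ε hε
  obtain ⟨η, hη, hηθ⟩ := hSd θ (ε / 4) (by positivity)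
  have h1 := Metric.tendsto_nhds.1 (hconv η hη) (ε / 4) (by positivity)
  have hdb : ∀ x, ‖dens F κ (θ - η) x‖ ≤ ε / 4 := dens_le hκ (by positivity) hηθ
  obtain ⟨hmd, -⟩ := Pool.Agent.H95.Nev.dens_meas F κ hκ (θ - η)
  have hTd : ‖T θ / T κ - T η / T κ‖ ≤ ε / 4 := by
    rw [← sub_div, hcf θ, hcf η, hmass, norm_div, Complex.norm_real, Real.norm_of_nonneg hmpos.le,
      div_le_iff₀ hmpos]
    obtain ⟨hm1, C1, hC1⟩ := Pool.Agent.H95.Nev.dens_meas F κ hκ θ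
    obtain ⟨hm2, C2, hC2⟩ := Pool.Agent.H95.Nev.dens_meas F κ hκ η
    rw [← integral_sub (Integrable.of_bound hm1.aestronglyMeasurable C1 (Eventually.of_forall hC1))
      (Integrable.of_bound hm2.aestronglyMeasurable C2 (Eventually.of_forall hC2))]
    have : ∀ x, ‖dens F κ θ x - dens F κ η x‖ ≤ ε / 4 := by
      intro x; rw [← dens_sub]; exact hdb x
    exact norm_integral_le_of_norm_le_const (Eventually.of_forall this)
  filter_upwards [h1, hIoo, hNpos] with s h2 hs hN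
  -- the difference of the Nevanlinna integrals
  have h3 : ‖nevInt φ θ s - nevInt φ η s‖ ≤
      ε / 4 * ∫ ξ in ball (0 : ℂ) s, Real.log (s / ‖ξ‖) * sg κ φ ξ := by
    obtain ⟨hm1, C1, hC1⟩ := Pool.Agent.H95.Nev.dens_meas F κ hκ θ
    obtain ⟨hm2, C2, hC2⟩ := Pool.Agent.H95.Nev.dens_meas F κ hκ η
    have hi1 := nev_integrable hκ hΛ hφ hm1 hC1 hs
    have hi2 := nev_integrable hκ hΛ hφ hm2 hC2 hs
    have e1 := nevInt_eq hκ hΛ hφ θ hs
    have e2 := nevInt_eq hκ hΛ hφ η hs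
    rw [e1, e2, ← integral_sub hi1 hi2, ← integral_const_mul]
    apply norm_integral_le_of_norm_le
    · have hd := isDisc_of F κ hκ Λ hΛ φ hφ.toIsLeafDisc hφ.unramified
      have h9 := nev_integrable hκ hΛ hφ (g := fun _ => (1 : ℂ)) measurable_const (C := 1)
        (by simp) hs
      have h10 := h9.re
      refine (h10.const_mul (ε / 4)).congr ?_
      filter_upwards with ξ
      simp only [mul_one, RCLike.re_to_complex]
      rw [Complex.re_ofReal_mul, Complex.ofReal_re]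
    · filter_upwards [ae_restrict_mem measurableSet_ball] with ξ hξ
      have h4 : (Real.log (s / ‖ξ‖) : ℂ) * ((sg κ φ ξ : ℂ) * dens F κ θ (φ ξ)) -
          (Real.log (s / ‖ξ‖) : ℂ) * ((sg κ φ ξ : ℂ) * dens F κ η (φ ξ)) =
          (Real.log (s / ‖ξ‖) : ℂ) * ((sg κ φ ξ : ℂ) * dens F κ (θ - η) (φ ξ)) := by
        rw [dens_sub]; ring
      rw [h4, norm_mul, norm_mul, Complex.norm_real, Complex.norm_real,
        Real.norm_of_nonneg (kernel_nonneg hξ),
        Real.norm_of_nonneg (sg_pos hκ hΛ hφ (ball_subset_ball hs.2.le hξ)).le]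
      have h5 := kernel_nonneg hξ
      have h6 := (sg_pos hκ hΛ hφ (ball_subset_ball hs.2.le hξ)).le
      calc Real.log (s / ‖ξ‖) * (sg κ φ ξ * ‖dens F κ (θ - η) (φ ξ)‖)
          ≤ Real.log (s / ‖ξ‖) * (sg κ φ ξ * (ε / 4)) := by
            gcongr; exact hdb _
        _ = ε / 4 * (Real.log (s / ‖ξ‖) * sg κ φ ξ) := by ring
  have h7 : ‖nevCurrent κ φ s θ - nevCurrent κ φ s η‖ ≤ ε / 4 := by
    unfold nevCurrent
    rw [← sub_div, nevInt_metric hκ hΛ hφ hs, norm_div, Complex.norm_real,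
      Real.norm_of_nonneg hN.le, div_le_iff₀ hN]
    exact h3
  rw [dist_eq_norm] at h2 ⊢
  calc ‖nevCurrent κ φ s θ - T θ / T κ‖
      = ‖(nevCurrent κ φ s θ - nevCurrent κ φ s η) + (nevCurrent κ φ s η - T η / T κ) -
          (T θ / T κ - T η / T κ)‖ := by congr 1; ring
    _ ≤ ‖(nevCurrent κ φ s θ - nevCurrent κ φ s η) + (nevCurrent κ φ s η - T η / T κ)‖ +
          ‖T θ / T κ - T η / T κ‖ := norm_sub_le _ _
    _ ≤ ‖nevCurrent κ φ s θ - nevCurrent κ φ s η‖ + ‖nevCurrent κ φ s η - T η / T κ‖ +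
          ‖T θ / T κ - T η / T κ‖ := by gcongr; exact norm_add_le _ _
    _ < ε := by linarith

/-- the holomorphic flow-box theorem -/
lemma fbStmt : FBStmt E := by
  intro X s hs hX x hx h0
  obtain ⟨e, h1, h2, h3, h4, v, h5, h6⟩ := Pool.Agent.H11.FB.exists_flowBox hs hX hx h0
  exact ⟨e, v, h1, h2, h5, h3, h4, h6⟩

/-- The geometric ergodic theorem for foliations given by local vector fields. -/
theorem hol_geometric_ergodic (F : HolFoliation E M) (κ : Form11 E M)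
    (hκ : IsHermitianMetric κ)
    (T : Form11 E M →ₗ[ℂ] ℂ) (hT : F.IsExtremal T) (μ : Measure M) [IsFiniteMeasure μ]
    (hμ : IsTraceMeasure T κ μ)
    (hhyp : ∀ᵐ a ∂μ, ∃ φ : ℂ → M, F.IsUniversalCovering φ ∧ φ 0 = a) :
    ∀ᵐ a ∂μ, ∀ φ : ℂ → M, F.IsUniversalCovering φ → φ 0 = a → ∀ θ : Form11 E M,
      Tendsto (fun r => nevCurrent κ φ r θ) (𝓝[<] 1) (𝓝 (T θ / T κ)) := by
  have h := geometric_ergodic (F.toSing fbStmt) κ hκ T (toSing_isExtremal hT) μ hμ (by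
    filter_upwards [hhyp] with a ⟨φ, hφ, hφa⟩
    exact ⟨φ, toSing_isUniversalCovering hφ, hφa⟩)
  filter_upwards [h] with a ha φ hφ
  exact ha φ (toSing_isUniversalCovering hφ)

end Pool.Agent.H45.Nev
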