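import Pool.Agent.H45.Nev.Defs

/-!
# Singular holomorphic foliations given by local vector fields

The same notions as in `Defs.lean`, without the flow boxes (which exist by the holomorphic
flow-box theorem).
-/

open MeasureTheory Set Metric Filter Topology
open scoped Manifold ContDiff

namespace Pool.Agent.H45.Nev

section Foliation

variable (E : Type*) [NormedAddCommGroup E] [NormedSpace ℂ E]
  (M : Type*) [TopologicalSpace M] [ChartedSpace E M]

/-- A singular holomorphic foliation by Riemann surfaces: an open cover `U i` with holomorphic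
vector fields `X i` on `U i` (they may vanish somewhere), such that `X i = g i j • X j` on
overlaps with nowhere vanishing holomorphic functions `g i j`. -/
structure HolFoliation where
  /-- index set of the cover -/
  ι : Type
  /-- the cover -/
  U : ι → Set M
  isOpen_U : ∀ i, IsOpen (U i)
  cover : ∀ x, ∃ i, x ∈ U i
  /-- the generating vector fields -/
  X : ι → (x : M) → TangentSpace 𝓘(ℂ, E) x
  /-- they are holomorphic -/
  holo : ∀ i, ∀ e ∈ IsManifold.maximalAtlas 𝓘(ℂ, E) ω M,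
    DifferentiableOn ℂ (fun y : E => (mfderiv 𝓘(ℂ, E) 𝓘(ℂ, E) e (e.symm y) (X i (e.symm y)) : E))
      (e.target ∩ e.symm ⁻¹' U i)
  /-- the transition functions -/
  g : ι → ι → M → ℂ
  g_holo : ∀ i j, MDifferentiableOn 𝓘(ℂ, E) 𝓘(ℂ, ℂ) (g i j) (U i ∩ U j)
  g_ne : ∀ i j, ∀ x ∈ U i ∩ U j, g i j x ≠ 0
  X_eq : ∀ i j, ∀ x ∈ U i ∩ U j, X i x = g i j x • X j x

variable {E M}

/-- The singular set of the foliation: the common zeros of the generating vector fields. -/
def HolFoliation.sing (F : HolFoliation E M) : Set M :=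
  {x | ∃ i, x ∈ F.U i ∧ F.X i x = 0}

/-- `v` is tangent to the foliation at `x`. -/
def HolFoliation.Tangent (F : HolFoliation E M) (x : M) (v : TangentSpace 𝓘(ℂ, E) x) : Prop :=
  ∃ i, x ∈ F.U i ∧ ∃ c : ℂ, v = c • F.X i x

/-- `T` is directed by the foliation: `T ∧ α = 0` for all smooth `(1,0)`-forms `α` vanishing on
the leaves; equivalently `T(θ) = 0` for each smooth `(1,1)`-form `θ` with `θ(v, ·) = 0` for
all vectors `v` tangent to the leaves (locally `θ` is a combination of forms `α ∧ β̄`). -/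
def HolFoliation.IsDirected (F : HolFoliation E M) (T : Form11 E M →ₗ[ℂ] ℂ) : Prop :=
  ∀ θ : Form11 E M, (∀ x ∉ F.sing, ∀ v w, F.Tangent x v → θ.1 x v w = 0) → T θ = 0

/-- Positive `dd^c`-closed currents directed by the foliation. -/
def HolFoliation.IsHarmonicCurrent (F : HolFoliation E M) (T : Form11 E M →ₗ[ℂ] ℂ) : Prop :=
  IsPositive T ∧ IsDdcClosed T ∧ F.IsDirected T

/-- `T` is extremal among the positive `dd^c`-closed currents directed by the foliation. -/
def HolFoliation.IsExtremal (F : HolFoliation E M) (T : Form11 E M →ₗ[ℂ] ℂ) : Prop :=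
  F.IsHarmonicCurrent T ∧ ∀ T₁ T₂ : Form11 E M →ₗ[ℂ] ℂ,
    F.IsHarmonicCurrent T₁ → F.IsHarmonicCurrent T₂ → T = T₁ + T₂ → ∃ c : ℝ, T₁ = (c : ℂ) • T

/-- A holomorphic map from the unit disc to a leaf of the foliation on the complement of the
singular set (only the values of `φ` on the unit disc matter). -/
structure HolFoliation.IsLeafDisc (F : HolFoliation E M) (φ : ℂ → M) : Prop where
  holo : MDifferentiableOn 𝓘(ℂ, ℂ) 𝓘(ℂ, E) φ (ball 0 1)
  notMem : ∀ ξ ∈ ball (0 : ℂ) 1, φ ξ ∉ F.sing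
  tangent : ∀ ξ ∈ ball (0 : ℂ) 1, F.Tangent (φ ξ) (mfderiv 𝓘(ℂ, ℂ) 𝓘(ℂ, E) φ ξ (1 : ℂ))

/-- `φ : 𝔻 → L` is a universal covering of a leaf `L`: it is an unramified holomorphic map to
the leaf through which all holomorphic maps from the disc to the leaf lift, with any prescribed
initial value of the lift. -/
structure HolFoliation.IsUniversalCovering (F : HolFoliation E M) (φ : ℂ → M) : Prop
    extends F.IsLeafDisc φ where
  unramified : ∀ ξ ∈ ball (0 : ℂ) 1, mfderiv 𝓘(ℂ, ℂ) 𝓘(ℂ, E) φ ξ (1 : ℂ) ≠ 0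
  lift : ∀ ψ : ℂ → M, F.IsLeafDisc ψ → ∀ ξ ∈ ball (0 : ℂ) 1, ψ 0 = φ ξ →
    ∃ h : ℂ → ℂ, DifferentiableOn ℂ h (ball 0 1) ∧ MapsTo h (ball 0 1) (ball 0 1) ∧ h 0 = ξ ∧
      ∀ ζ ∈ ball (0 : ℂ) 1, φ (h ζ) = ψ ζ

end Foliation

end Pool.Agent.H45.Nev
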