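import Pool.Agent.H45.Nev.Polar

/-!
# The Nevanlinna double integral as an integral against `log (s / |ξ|)`
-/

open MeasureTheory Set Metric Filter Topology
open scoped ContDiff ENNReal

namespace Pool.Agent.H45.Nev

lemma lintegral_inv_Ioo {a s : ℝ} (ha : 0 < a) (has : a < s) :
    ∫⁻ t in Ioo a s, ENNReal.ofReal t⁻¹ = ENNReal.ofReal (Real.log (s / a)) := by
  have hs : 0 < s := ha.trans has
  have hint : IntegrableOn (fun t : ℝ => t⁻¹) (Ioo a s) := by
    have : ContinuousOn (fun t : ℝ => t⁻¹) (Icc a s) := by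
      apply continuousOn_inv₀.mono
      intro x hx
      simpa using (ha.trans_le hx.1).ne'
    exact (this.integrableOn_Icc).mono_set Ioo_subset_Icc_self
  rw [← ofReal_integral_eq_lintegral_ofReal hint, ← integral_Ioc_eq_integral_Ioo,
    ← intervalIntegral.integral_of_le has.le, integral_inv_of_pos ha hs]
  filter_upwards [ae_restrict_mem measurableSet_Ioo] with t ht
  exact inv_nonneg.2 (ha.trans ht.1).le

/-- the joint integrand -/
noncomputable def nevK (f : ℂ → ℝ) (t : ℝ) (ξ : ℂ) : ℝ :=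
  (ball (0 : ℂ) t).indicator (fun _ => t⁻¹ * f ξ) ξ

lemma measurable_mem_ball : MeasurableSet {p : ℝ × ℂ | p.2 ∈ ball (0 : ℂ) p.1} := by
  have : {p : ℝ × ℂ | p.2 ∈ ball (0 : ℂ) p.1} = {p : ℝ × ℂ | ‖p.2‖ < p.1} := by
    ext p; simp
  rw [this]
  exact measurableSet_lt (measurable_snd.norm) measurable_fst

lemma inner_kernel {s : ℝ} (ξ : ℂ) (hξ : ξ ∈ ball (0 : ℂ) s) (hξ0 : ξ ≠ 0) :
    ∫⁻ t in Ioo (0 : ℝ) s, (ball (0 : ℂ) t).indicator (fun _ => ENNReal.ofReal t⁻¹) ξ =
      ENNReal.ofReal (Real.log (s / ‖ξ‖)) := by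
  rw [← lintegral_inv_Ioo (norm_pos_iff.2 hξ0) (by simpa using hξ)]
  have : ∀ t ∈ Ioo (0 : ℝ) s, (ball (0 : ℂ) t).indicator (fun _ => ENNReal.ofReal t⁻¹) ξ =
      (Ioi ‖ξ‖).indicator (fun t => ENNReal.ofReal t⁻¹) t := by
    intro t _
    by_cases h : ‖ξ‖ < t
    · rw [indicator_of_mem (by simpa using h), indicator_of_mem (by simpa using h)]
    · rw [indicator_of_notMem (by simpa using h), indicator_of_notMem (by simpa using h)]
  rw [setLIntegral_congr_fun measurableSet_Ioo this, lintegral_indicator measurableSet_Ioi,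
    Measure.restrict_restrict measurableSet_Ioi]
  congr 2
  ext x
  simp only [mem_inter_iff, mem_Ioi, mem_Ioo]
  constructor
  · rintro ⟨h1, h2, h3⟩; exact ⟨h1, h3⟩
  · rintro ⟨h1, h3⟩; exact ⟨h1, (norm_nonneg ξ).trans_lt h1, h3⟩

lemma inner_kernel_real {s : ℝ} (ξ : ℂ) (hξ : ξ ∈ ball (0 : ℂ) s) (hξ0 : ξ ≠ 0) :
    ∫ t in Ioo (0 : ℝ) s, (ball (0 : ℂ) t).indicator (fun _ => t⁻¹) ξ =
      Real.log (s / ‖ξ‖) := by
  have hpos : 0 < ‖ξ‖ := norm_pos_iff.2 hξ0
  have hlt : ‖ξ‖ < s := by simpa using hξ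
  have h0 : ∀ t ∈ Ioo (0 : ℝ) s, (ball (0 : ℂ) t).indicator (fun _ => t⁻¹) ξ =
      (Ioi ‖ξ‖).indicator (fun t => t⁻¹) t := by
    intro t _
    by_cases h : ‖ξ‖ < t
    · rw [indicator_of_mem (by simpa using h), indicator_of_mem (by simpa using h)]
    · rw [indicator_of_notMem (by simpa using h), indicator_of_notMem (by simpa using h)]
  rw [setIntegral_congr_fun measurableSet_Ioo h0, integral_indicator measurableSet_Ioi,
    Measure.restrict_restrict measurableSet_Ioi]
  have : Ioi ‖ξ‖ ∩ Ioo 0 s = Ioo ‖ξ‖ s := by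
    ext x
    simp only [mem_inter_iff, mem_Ioi, mem_Ioo]
    constructor
    · rintro ⟨h1, h2, h3⟩; exact ⟨h1, h3⟩
    · rintro ⟨h1, h3⟩; exact ⟨h1, hpos.trans h1, h3⟩
  rw [this, ← integral_Ioc_eq_integral_Ioo, ← intervalIntegral.integral_of_le hlt.le,
    integral_inv_of_pos hpos (hpos.trans hlt)]

lemma lintegral_nev (f : ℂ → ℝ≥0∞) (hf : Measurable f) (s : ℝ) :
    ∫⁻ t in Ioo (0 : ℝ) s, ENNReal.ofReal t⁻¹ * (∫⁻ ξ in ball (0 : ℂ) t, f ξ) =
      ∫⁻ ξ in ball (0 : ℂ) s, ENNReal.ofReal (Real.log (s / ‖ξ‖)) * f ξ := by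
  have h1 : ∀ t ∈ Ioo (0 : ℝ) s, ENNReal.ofReal t⁻¹ * (∫⁻ ξ in ball (0 : ℂ) t, f ξ) =
      ∫⁻ ξ in ball (0 : ℂ) s, (ball (0 : ℂ) t).indicator (fun _ => ENNReal.ofReal t⁻¹) ξ * f ξ := by
    intro t ht
    rw [← lintegral_const_mul _ hf, ← lintegral_indicator measurableSet_ball,
      ← lintegral_indicator measurableSet_ball]
    apply lintegral_congr
    intro ξ
    by_cases h : ξ ∈ ball (0 : ℂ) t
    · have h' : ξ ∈ ball (0 : ℂ) s := ball_subset_ball ht.2.le h
      simp only [indicator_of_mem h, indicator_of_mem h']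
    · rw [indicator_of_notMem h]
      by_cases h' : ξ ∈ ball (0 : ℂ) s
      · rw [indicator_of_mem h', indicator_of_notMem h, zero_mul]
      · rw [indicator_of_notMem h']
  rw [setLIntegral_congr_fun measurableSet_Ioo h1]
  have hm : Measurable (fun p : ℝ × ℂ =>
      (ball (0 : ℂ) p.1).indicator (fun _ => ENNReal.ofReal p.1⁻¹) p.2 * f p.2) := by
    apply Measurable.mul _ (hf.comp measurable_snd)
    have : (fun p : ℝ × ℂ => (ball (0 : ℂ) p.1).indicator (fun _ => ENNReal.ofReal p.1⁻¹) p.2) =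
        {p : ℝ × ℂ | p.2 ∈ ball (0 : ℂ) p.1}.indicator (fun p => ENNReal.ofReal p.1⁻¹) := by
      ext p
      by_cases h : p.2 ∈ ball (0 : ℂ) p.1
      · rw [indicator_of_mem h, indicator_of_mem (by exact h)]
      · rw [indicator_of_notMem h, indicator_of_notMem (by exact h)]
    rw [this]
    exact (ENNReal.measurable_ofReal.comp measurable_fst.inv).indicator measurable_mem_ball
  rw [lintegral_lintegral_swap hm.aemeasurable]
  rw [← lintegral_indicator measurableSet_ball, ← lintegral_indicator measurableSet_ball]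
  apply lintegral_congr_ae
  have hne : ∀ᵐ ξ : ℂ, ξ ≠ 0 := by
    have : ({0} : Set ℂ)ᶜ ∈ ae (volume : Measure ℂ) := by
      rw [compl_mem_ae_iff]; simp
    filter_upwards [this] with ξ hξ using hξ
  filter_upwards [hne] with ξ hξ0
  by_cases h : ξ ∈ ball (0 : ℂ) s
  · rw [indicator_of_mem h, indicator_of_mem h, lintegral_mul_const, inner_kernel ξ h hξ0]
    have : (fun t : ℝ => (ball (0 : ℂ) t).indicator (fun _ => ENNReal.ofReal t⁻¹) ξ) =
        (Ioi ‖ξ‖).indicator (fun t => ENNReal.ofReal t⁻¹) := by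
      ext t
      by_cases h : ‖ξ‖ < t
      · rw [indicator_of_mem (by simpa using h), indicator_of_mem (by simpa using h)]
      · rw [indicator_of_notMem (by simpa using h), indicator_of_notMem (by simpa using h)]
    rw [this]
    exact (ENNReal.measurable_ofReal.comp measurable_inv).indicator measurableSet_Ioi
  · rw [indicator_of_notMem h, indicator_of_notMem h]

/-- the Nevanlinna double integral is the integral against the kernel `log (s / |ξ|)` -/
theorem nev_eq_kernel (f : ℂ → ℝ) (hf : Measurable f) (s : ℝ)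
    (hfin : ∫⁻ ξ in ball (0 : ℂ) s, ENNReal.ofReal (Real.log (s / ‖ξ‖)) * ‖f ξ‖ₑ < ⊤) :
    IntegrableOn (fun ξ => Real.log (s / ‖ξ‖) * f ξ) (ball (0 : ℂ) s) ∧
    nev f s = ∫ ξ in ball (0 : ℂ) s, Real.log (s / ‖ξ‖) * f ξ := by
  have hlogpos : ∀ ξ ∈ ball (0 : ℂ) s, 0 ≤ Real.log (s / ‖ξ‖) := by
    intro ξ hξ
    by_cases h0 : ξ = 0
    · simp [h0]
    · apply Real.log_nonneg
      rw [le_div_iff₀ (norm_pos_iff.2 h0), one_mul]
      exact (by simpa using hξ : ‖ξ‖ < s).le
  have hne : ∀ᵐ ξ : ℂ, ξ ≠ 0 := by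
    have : ({0} : Set ℂ)ᶜ ∈ ae (volume : Measure ℂ) := by
      rw [compl_mem_ae_iff]; simp
    filter_upwards [this] with ξ hξ using hξ
  have hmlog : Measurable (fun ξ : ℂ => Real.log (s / ‖ξ‖)) :=
    Real.measurable_log.comp (measurable_const.div measurable_norm)
  have hm : Measurable (fun p : ℝ × ℂ => nevK f p.1 p.2) := by
    have : (fun p : ℝ × ℂ => nevK f p.1 p.2) =
        {p : ℝ × ℂ | p.2 ∈ ball (0 : ℂ) p.1}.indicator (fun p => p.1⁻¹ * f p.2) := by
      ext p
      unfold nevK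
      by_cases h : p.2 ∈ ball (0 : ℂ) p.1
      · rw [indicator_of_mem h, indicator_of_mem (by exact h)]
      · rw [indicator_of_notMem h, indicator_of_notMem (by exact h)]
    rw [this]
    exact (measurable_fst.inv.mul (hf.comp measurable_snd)).indicator measurable_mem_ball
  constructor
  · refine ⟨(hmlog.mul hf).aestronglyMeasurable, ?_⟩
    unfold HasFiniteIntegral
    refine lt_of_le_of_lt (le_of_eq ?_) hfin
    apply setLIntegral_congr_fun measurableSet_ball
    intro ξ hξ
    simp only [enorm_mul]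
    rw [Real.enorm_eq_ofReal (hlogpos ξ hξ)]
  · have hint : Integrable (fun p : ℝ × ℂ => nevK f p.1 p.2)
        ((volume.restrict (Ioo (0:ℝ) s)).prod (volume.restrict (ball (0:ℂ) s))) := by
      refine ⟨hm.aestronglyMeasurable, ?_⟩
      unfold HasFiniteIntegral
      rw [lintegral_prod _ hm.enorm.aemeasurable]
      refine lt_of_le_of_lt (le_of_eq ?_) hfin
      rw [← lintegral_nev _ hf.enorm]
      apply setLIntegral_congr_fun measurableSet_Ioo
      intro t ht
      simp only
      rw [← lintegral_const_mul _ hf.enorm, ← lintegral_indicator measurableSet_ball,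
        ← lintegral_indicator measurableSet_ball]
      apply lintegral_congr
      intro ξ
      unfold nevK
      by_cases h : ξ ∈ ball (0 : ℂ) t
      · have h' : ξ ∈ ball (0 : ℂ) s := ball_subset_ball ht.2.le h
        simp only [indicator_of_mem h, indicator_of_mem h', enorm_mul]
        rw [Real.enorm_eq_ofReal (inv_nonneg.2 ht.1.le)]
      · rw [indicator_of_notMem h]
        by_cases h' : ξ ∈ ball (0 : ℂ) s
        · rw [indicator_of_mem h', indicator_of_notMem h]; simp
        · rw [indicator_of_notMem h']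
    have h1 : nev f s = ∫ t in Ioo (0:ℝ) s, ∫ ξ in ball (0:ℂ) s, nevK f t ξ := by
      unfold nev
      apply setIntegral_congr_fun measurableSet_Ioo
      intro t ht
      simp only
      rw [div_eq_inv_mul, ← integral_const_mul, ← integral_indicator measurableSet_ball,
        ← integral_indicator measurableSet_ball]
      congr 1
      ext ξ
      unfold nevK
      by_cases h : ξ ∈ ball (0 : ℂ) t
      · have h' : ξ ∈ ball (0 : ℂ) s := ball_subset_ball ht.2.le h
        simp only [indicator_of_mem h, indicator_of_mem h']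
      · rw [indicator_of_notMem h]
        by_cases h' : ξ ∈ ball (0 : ℂ) s
        · rw [indicator_of_mem h', indicator_of_notMem h]
        · rw [indicator_of_notMem h']
    rw [h1, integral_integral_swap hint]
    apply setIntegral_congr_ae measurableSet_ball
    filter_upwards [hne] with ξ hξ0 hξ
    rw [← inner_kernel_real ξ hξ hξ0, ← integral_mul_const]
    apply setIntegral_congr_fun measurableSet_Ioo
    intro t _
    unfold nevK
    by_cases h : ξ ∈ ball (0 : ℂ) t
    · simp only [indicator_of_mem h]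
    · simp only [indicator_of_notMem h, zero_mul]

end Pool.Agent.H45.Nev
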