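import Pool.Agent.H45.Nev.Plane0

/-!
# Abstract laminations by plane discs with a leafwise metric
-/

open MeasureTheory Set Metric Filter Topology
open scoped ContDiff

namespace Pool.Agent.H45.Nev

/-- A countable atlas of flow boxes `box i : source ≃ 𝔻 × W i` with leafwise metric densities
`ρ i`, bounded above and below. -/
structure Lam (M : Type*) [TopologicalSpace M] (Y : Type*) [TopologicalSpace Y] where
  ι : Type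
  cι : Countable ι
  box : ι → OpenPartialHomeomorph M (ℂ × Y)
  W : ι → Set Y
  target_eq : ∀ i, (box i).target = ball (0 : ℂ) 1 ×ˢ W i
  ρ : ι → ℂ × Y → ℝ
  lo : ι → ℝ
  hi : ι → ℝ
  lo_pos : ∀ i, 0 < lo i
  ρ_cont : ∀ i, ContinuousOn (ρ i) (box i).target
  ρ_lo : ∀ i, ∀ p ∈ (box i).target, lo i ≤ ρ i p
  ρ_hi : ∀ i, ∀ p ∈ (box i).target, ρ i p ≤ hi i
  compat : ∀ i j, ∀ p ∈ (box j).target, (box j).symm p ∈ (box i).source →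
    ∀ᶠ z in 𝓝 p.1, (box i ((box j).symm (z, p.2))).2 = (box i ((box j).symm p)).2

attribute [instance] Lam.cι

variable {M : Type*} [TopologicalSpace M] {Y : Type*} [TopologicalSpace Y]

/-- the regular set -/
def Lam.reg (Λ : Lam M Y) : Set M := ⋃ i, (Λ.box i).source

/-- a (locally injective) holomorphic disc in a leaf, `σ` is the density of the pulled back
metric -/
structure Lam.IsDisc (Λ : Lam M Y) (φ : ℂ → M) (σ : ℂ → ℝ) : Prop where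
  loc : ∀ ξ ∈ ball (0 : ℂ) 1, ∃ i, ∃ t ∈ Λ.W i, ∃ h : ℂ → ℂ, AnalyticAt ℂ h ξ ∧ deriv h ξ ≠ 0 ∧
    h ξ ∈ ball (0 : ℂ) 1 ∧ ∀ᶠ ζ in 𝓝 ξ, φ ζ = (Λ.box i).symm (h ζ, t) ∧
      σ ζ = Λ.ρ i (h ζ, t) * ‖deriv h ζ‖ ^ 2

/-- a disc through which all discs of plaques lift -/
structure Lam.IsUniv (Λ : Lam M Y) (φ : ℂ → M) (σ : ℂ → ℝ) : Prop extends Λ.IsDisc φ σ where
  lift : ∀ i, ∀ t ∈ Λ.W i, ∀ z₀ : ℂ, ∀ δ : ℝ, 0 < δ → ball z₀ δ ⊆ ball 0 1 →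
    ∀ ξ ∈ ball (0 : ℂ) 1, φ ξ = (Λ.box i).symm (z₀, t) →
      ∃ h : ℂ → ℂ, DifferentiableOn ℂ h (ball 0 1) ∧ MapsTo h (ball 0 1) (ball 0 1) ∧ h 0 = ξ ∧
        ∀ ζ ∈ ball (0 : ℂ) 1, φ (h ζ) = (Λ.box i).symm (z₀ + δ * ζ, t) ∧
          σ (h ζ) * ‖deriv h ζ‖ ^ 2 = Λ.ρ i (z₀ + δ * ζ, t) * δ ^ 2

end Pool.Agent.H45.Nev
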