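import Pool.Agent.H45.Nev.Base3
import Pool.Agent.H45.Nev.LamDefs

/-!
# Leafwise quantities on a foliated manifold
-/

open MeasureTheory Set Metric Filter Topology
open scoped ContDiff Manifold

namespace Pool.Agent.H45.Nev

variable {E : Type*} [NormedAddCommGroup E] [NormedSpace ℂ E]
  {M : Type*} [TopologicalSpace M] [ChartedSpace E M]

/-- a generator of the foliation at `x` (zero iff `x` is singular) -/
noncomputable def SingFoliation.gen (F : SingFoliation E M) (x : M) : TangentSpace 𝓘(ℂ, E) x :=
  F.X (F.cover x).choose x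

open Classical in
/-- the leafwise density `θ|_F / κ|_F` of a `(1,1)`-form -/
noncomputable def dens (F : SingFoliation E M) (κ θ : Form11 E M) (x : M) : ℂ :=
  if x ∈ F.sing then 0 else θ.1 x (F.gen x) (F.gen x) / κ.1 x (F.gen x) (F.gen x)

open Classical in
/-- the leafwise Laplacian of a function w.r.t. the metric `κ` -/
noncomputable def leafLap (F : SingFoliation E M) (κ : Form11 E M) (u : M → ℝ) (x : M) : ℝ :=
  if x ∈ F.sing then 0 else mLevS u x (F.gen x) (F.gen x) / (κ.1 x (F.gen x) (F.gen x)).re

open Classical in
/-- the squared leafwise gradient of a function w.r.t. the metric `κ` -/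
noncomputable def leafGrd (F : SingFoliation E M) (κ : Form11 E M) (u : M → ℝ) (x : M) : ℝ :=
  if x ∈ F.sing then 0 else mGrd u x (F.gen x) / (κ.1 x (F.gen x) (F.gen x)).re

end Pool.Agent.H45.Nev
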