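import Pool.Agent.H45.Nev.Jensen

/-!
# Passing to the limit in Jensen's formula
-/

set_option linter.unusedSectionVars false
set_option linter.style.haveILetI false

open MeasureTheory Set Metric Filter Topology
open scoped ContDiff ENNReal

namespace Pool.Agent.H45.Nev

lemma circle_ae {P : ℂ → Prop} (h : ∀ᵐ ξ ∂(volume.restrict (ball (0 : ℂ) 1)), P ξ) :
    ∀ᵐ s ∂(volume.restrict (Ioo (0 : ℝ) 1)),
      ∀ᵐ θ ∂(volume.restrict (Ioo 0 (2 * Real.pi))), P (circleMap 0 s θ) := by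
  have h0 : (volume.restrict (ball (0 : ℂ) 1)) {ξ | ¬ P ξ} = 0 := h
  obtain ⟨N, hN1, hN2, hN3⟩ := exists_measurable_superset_of_null h0
  have hint : ∫⁻ ξ in ball (0 : ℂ) 1, N.indicator 1 ξ = 0 := by
    rw [lintegral_indicator_one hN2]; exact hN3
  rw [lintegral_ball_polar _ (measurable_one.indicator hN2)] at hint
  have hmi : Measurable (fun p : ℝ × ℝ => N.indicator (1 : ℂ → ℝ≥0∞) (circleMap 0 p.1 p.2)) := by
    have hc : Continuous (fun x : ℝ × ℝ => circleMap 0 x.1 x.2) := by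
      unfold circleMap; fun_prop
    exact (measurable_one.indicator hN2).comp hc.measurable
  have hm : Measurable (fun r : ℝ => ENNReal.ofReal r *
      ∫⁻ θ in Ioo 0 (2 * Real.pi), N.indicator (1 : ℂ → ℝ≥0∞) (circleMap 0 r θ)) := by
    apply ENNReal.measurable_ofReal.mul
    exact hmi.lintegral_prod_right'
  rw [lintegral_eq_zero_iff hm] at hint
  filter_upwards [hint, ae_restrict_mem measurableSet_Ioo] with s hs hs1
  simp only [Pi.zero_apply, mul_eq_zero, ENNReal.ofReal_eq_zero, not_le.2 hs1.1, false_or] at hs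
  have hs' : Measurable (fun θ : ℝ => N.indicator (1 : ℂ → ℝ≥0∞) (circleMap 0 s θ)) :=
    hmi.comp measurable_prodMk_left
  rw [lintegral_eq_zero_iff hs'] at hs
  filter_upwards [hs] with θ hθ
  by_contra hP
  have : circleMap 0 s θ ∈ N := hN1 hP
  simp [this] at hθ

lemma circle_fin {H : ℂ → ℝ≥0∞} (hH : Measurable H)
    (hfin : ∀ s < (1 : ℝ), ∫⁻ ξ in ball (0 : ℂ) s, H ξ < ⊤) :
    ∀ᵐ s ∂(volume.restrict (Ioo (0 : ℝ) 1)),
      ∫⁻ θ in Ioo 0 (2 * Real.pi), H (circleMap 0 s θ) < ⊤ := by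
  have hmi : Measurable (fun p : ℝ × ℝ => H (circleMap 0 p.1 p.2)) := by
    have hc : Continuous (fun x : ℝ × ℝ => circleMap 0 x.1 x.2) := by
      unfold circleMap; fun_prop
    exact hH.comp hc.measurable
  have hm : Measurable (fun r : ℝ => ENNReal.ofReal r *
      ∫⁻ θ in Ioo 0 (2 * Real.pi), H (circleMap 0 r θ)) :=
    ENNReal.measurable_ofReal.mul hmi.lintegral_prod_right'
  have h1 : ∀ n : ℕ, ∀ᵐ s : ℝ, s ∈ Ioo (0 : ℝ) (1 - 1 / ((n : ℝ) + 2)) →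
      ENNReal.ofReal s * ∫⁻ θ in Ioo 0 (2 * Real.pi), H (circleMap 0 s θ) < ⊤ := by
    intro n
    have hlt : 1 - 1 / ((n : ℝ) + 2) < 1 := by
      have : (0 : ℝ) < 1 / ((n : ℝ) + 2) := by positivity
      linarith
    have := hfin _ hlt
    rw [lintegral_ball_polar _ hH] at this
    have h2 := ae_lt_top hm this.ne
    rwa [ae_restrict_iff' measurableSet_Ioo] at h2
  rw [ae_restrict_iff' measurableSet_Ioo]
  filter_upwards [ae_all_iff.2 h1] with s hs hs1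
  obtain ⟨n, hn⟩ := exists_nat_gt (1 / (1 - s))
  have hpos : 0 < 1 - s := by linarith [hs1.2]
  have hs2 : s ∈ Ioo (0 : ℝ) (1 - 1 / ((n : ℝ) + 2)) := by
    refine ⟨hs1.1, ?_⟩
    have h3 : 1 / ((n : ℝ) + 2) < 1 - s := by
      rw [div_lt_iff₀ (by positivity)]
      rw [div_lt_iff₀ hpos] at hn
      nlinarith
    linarith
  have h4 := hs n hs2
  by_contra h5
  rw [not_lt, top_le_iff] at h5
  rw [h5, ENNReal.mul_top (by simpa using hs1.1)] at h4
  exact lt_irrefl _ h4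

lemma kernel_le {s : ℝ} (hs0 : 0 < s) (hs1 : s < 1) (ξ : ℂ) :
    Real.log (s / ‖ξ‖) ≤ Real.log (1 / ‖ξ‖) := by
  by_cases h : ξ = 0
  · simp [h]
  · have hn : 0 < ‖ξ‖ := norm_pos_iff.2 h
    apply Real.log_le_log (by positivity)
    gcongr

lemma kernel_nonneg {s : ℝ} {ξ : ℂ} (hξ : ξ ∈ ball (0 : ℂ) s) : 0 ≤ Real.log (s / ‖ξ‖) := by
  by_cases h0 : ξ = 0
  · simp [h0]
  · apply Real.log_nonneg
    rw [le_div_iff₀ (norm_pos_iff.2 h0), one_mul]
    exact (by simpa using hξ : ‖ξ‖ < s).le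

lemma measurable_kernel (s : ℝ) : Measurable (fun ξ : ℂ => Real.log (s / ‖ξ‖)) :=
  Real.measurable_log.comp (measurable_const.div measurable_norm)

/-- integrability against the kernel -/
lemma kernel_fin {H : ℂ → ℝ≥0∞} {s : ℝ} (hs0 : 0 < s) (hs1 : s < 1)
    (hfin : ∫⁻ ξ in ball (0 : ℂ) s, (1 + ENNReal.ofReal (Real.log (1 / ‖ξ‖))) * H ξ < ⊤) :
    ∫⁻ ξ in ball (0 : ℂ) s, ENNReal.ofReal (Real.log (s / ‖ξ‖)) * H ξ < ⊤ := by
  refine lt_of_le_of_lt (lintegral_mono fun ξ => ?_) hfin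
  gcongr
  exact (ENNReal.ofReal_le_ofReal (kernel_le hs0 hs1 ξ)).trans le_add_self

lemma kernel_integrable {H : ℂ → ℝ≥0∞} {F : ℂ → ℝ} (hF : Measurable F) {C : ℝ≥0∞}
    (hC : C ≠ ⊤) {s : ℝ} (hs0 : 0 < s) (hs1 : s < 1)
    (hb : ∀ ξ ∈ ball (0 : ℂ) s, ‖F ξ‖ₑ ≤ C * H ξ)
    (hfin : ∫⁻ ξ in ball (0 : ℂ) s, (1 + ENNReal.ofReal (Real.log (1 / ‖ξ‖))) * H ξ < ⊤) :
    ∫⁻ ξ in ball (0 : ℂ) s, ENNReal.ofReal (Real.log (s / ‖ξ‖)) * ‖F ξ‖ₑ < ⊤ := by
  have h1 := kernel_fin hs0 hs1 hfin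
  calc ∫⁻ ξ in ball (0 : ℂ) s, ENNReal.ofReal (Real.log (s / ‖ξ‖)) * ‖F ξ‖ₑ
      ≤ ∫⁻ ξ in ball (0 : ℂ) s, C * (ENNReal.ofReal (Real.log (s / ‖ξ‖)) * H ξ) := by
        apply setLIntegral_mono' measurableSet_ball
        intro ξ hξ
        calc _ ≤ ENNReal.ofReal (Real.log (s / ‖ξ‖)) * (C * H ξ) := by
              gcongr; exact hb ξ hξ
          _ = _ := by ring
    _ = C * ∫⁻ ξ in ball (0 : ℂ) s, (ENNReal.ofReal (Real.log (s / ‖ξ‖)) * H ξ) := by
        rw [lintegral_const_mul' _ _ hC]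
    _ < ⊤ := ENNReal.mul_lt_top hC.lt_top h1

/-- Jensen's formula passes to limits. -/
theorem jensen_limit (w F : ℕ → ℂ → ℝ) (w' F' : ℂ → ℝ) (c : ℕ → ℝ) (c' : ℝ)
    (H : ℂ → ℝ≥0∞) (hH : Measurable H) (hw : ∀ j, Measurable (w j)) (hF : ∀ j, Measurable (F j))
    (hw' : Measurable w') (hF' : Measurable F')
    (hfin : ∀ s < (1 : ℝ), ∫⁻ ξ in ball (0 : ℂ) s,
      (1 + ENNReal.ofReal (Real.log (1 / ‖ξ‖))) * H ξ < ⊤)
    (hwb : ∀ j, ∀ ξ ∈ ball (0 : ℂ) 1, ‖w j ξ‖ₑ ≤ H ξ)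
    (hFb : ∀ s < (1 : ℝ), ∃ C : ℝ≥0∞, C ≠ ⊤ ∧ ∀ j, ∀ ξ ∈ ball (0 : ℂ) s, ‖F j ξ‖ₑ ≤ C * H ξ)
    (hlimw : ∀ᵐ ξ ∂(volume.restrict (ball (0 : ℂ) 1)), Tendsto (fun j => w j ξ) atTop (𝓝 (w' ξ)))
    (hlimF : ∀ᵐ ξ ∂(volume.restrict (ball (0 : ℂ) 1)), Tendsto (fun j => F j ξ) atTop (𝓝 (F' ξ)))
    (hc : Tendsto c atTop (𝓝 c'))
    (hJ : ∀ j, ∀ s ∈ Ioo (0 : ℝ) 1, Real.circleAverage (w j) 0 s - c j =
      1 / (2 * Real.pi) * ∫ ξ in ball (0 : ℂ) s, Real.log (s / ‖ξ‖) * F j ξ) :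
    ∀ᵐ s ∂(volume.restrict (Ioo (0 : ℝ) 1)), Real.circleAverage w' 0 s - c' =
      1 / (2 * Real.pi) * ∫ ξ in ball (0 : ℂ) s, Real.log (s / ‖ξ‖) * F' ξ := by
  have hfin1 : ∀ s < (1 : ℝ), ∫⁻ ξ in ball (0 : ℂ) s, H ξ < ⊤ := by
    intro s hs
    refine lt_of_le_of_lt (lintegral_mono fun ξ => ?_) (hfin s hs)
    calc H ξ = 1 * H ξ := (one_mul _).symm
      _ ≤ _ := by gcongr; exact le_self_add
  filter_upwards [circle_ae hlimw, circle_fin hH hfin1, ae_restrict_mem measurableSet_Ioo] with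
    s h1 h2 hs
  -- the area integrals
  have hsb : ball (0 : ℂ) s ⊆ ball 0 1 := ball_subset_ball hs.2.le
  obtain ⟨C, hC, hCb⟩ := hFb s hs.2
  have hK := kernel_fin hs.1 hs.2 (hfin s hs.2)
  have hlimA : Tendsto (fun j => ∫ ξ in ball (0 : ℂ) s, Real.log (s / ‖ξ‖) * F j ξ) atTop
      (𝓝 (∫ ξ in ball (0 : ℂ) s, Real.log (s / ‖ξ‖) * F' ξ)) := by
    apply tendsto_integral_of_dominated_convergence
      (fun ξ => (C * (ENNReal.ofReal (Real.log (s / ‖ξ‖)) * H ξ)).toReal)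
    · intro j
      exact ((measurable_kernel s).mul (hF j)).aestronglyMeasurable
    · have hm : Measurable (fun ξ => C * (ENNReal.ofReal (Real.log (s / ‖ξ‖)) * H ξ)) :=
        measurable_const.mul ((measurable_kernel s).ennreal_ofReal.mul hH)
      apply integrable_toReal_of_lintegral_ne_top hm.aemeasurable
      rw [lintegral_const_mul' _ _ hC]
      exact (ENNReal.mul_lt_top hC.lt_top hK).ne
    · intro j
      have hlt : ∀ᵐ ξ ∂(volume.restrict (ball (0 : ℂ) s)),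
          ENNReal.ofReal (Real.log (s / ‖ξ‖)) * H ξ < ⊤ :=
        ae_lt_top ((measurable_kernel s).ennreal_ofReal.mul hH) hK.ne
      filter_upwards [hlt, ae_restrict_mem measurableSet_ball] with ξ hξ1 hξ2
      have h3 : ‖Real.log (s / ‖ξ‖) * F j ξ‖ₑ ≤ C * (ENNReal.ofReal (Real.log (s / ‖ξ‖)) * H ξ) := by
        rw [enorm_mul, Real.enorm_eq_ofReal (kernel_nonneg hξ2)]
        calc _ ≤ ENNReal.ofReal (Real.log (s / ‖ξ‖)) * (C * H ξ) := by
              gcongr; exact hCb j ξ hξ2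
          _ = _ := by ring
      rw [← toReal_enorm]
      exact ENNReal.toReal_mono (ENNReal.mul_lt_top hC.lt_top hξ1).ne h3
    · have : ∀ᵐ ξ ∂(volume.restrict (ball (0 : ℂ) s)), Tendsto (fun j => F j ξ) atTop (𝓝 (F' ξ)) :=
        ae_restrict_of_ae_restrict_of_subset hsb hlimF
      filter_upwards [this] with ξ hξ
      exact hξ.const_mul _
  -- the circle averages
  have hlimC : Tendsto (fun j => Real.circleAverage (w j) 0 s) atTop
      (𝓝 (Real.circleAverage w' 0 s)) := by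
    simp only [Real.circleAverage_def, smul_eq_mul]
    apply Tendsto.const_mul
    have hpi : (0 : ℝ) ≤ 2 * Real.pi := by positivity
    simp only [intervalIntegral.integral_of_le hpi, integral_Ioc_eq_integral_Ioo]
    have hcm : Measurable (fun θ : ℝ => circleMap (0 : ℂ) s θ) := measurable_circleMap 0 s
    apply tendsto_integral_of_dominated_convergence
      (fun θ => (H (circleMap 0 s θ)).toReal)
    · intro j
      exact ((hw j).comp hcm).aestronglyMeasurable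
    · exact integrable_toReal_of_lintegral_ne_top (hH.comp hcm).aemeasurable h2.ne
    · intro j
      have hlt := ae_lt_top (hH.comp hcm) h2.ne
      filter_upwards [hlt] with θ hθ
      rw [← toReal_enorm]
      apply ENNReal.toReal_mono hθ.ne
      apply hwb j
      simp [abs_of_pos hs.1, hs.2]
    · exact h1
  have hl1 := hlimC.sub hc
  have hl2 := hlimA.const_mul (1 / (2 * Real.pi))
  have : (fun j => Real.circleAverage (w j) 0 s - c j) =
      fun j => 1 / (2 * Real.pi) * ∫ ξ in ball (0 : ℂ) s, Real.log (s / ‖ξ‖) * F j ξ := by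
    ext j; exact hJ j s hs
  rw [this] at hl1
  exact tendsto_nhds_unique hl1 hl2

end Pool.Agent.H45.Nev
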