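import Pool.Agent.H45.Nev.Plane0

/-!
# Polar coordinates on discs
-/

open MeasureTheory Set Metric Filter Topology
open scoped ContDiff ENNReal

namespace Pool.Agent.H45.Nev

lemma polar_symm_eq (p : ℝ × ℝ) : Complex.polarCoord.symm p = circleMap 0 p.1 p.2 := by
  rw [Complex.polarCoord_symm_apply, circleMap_zero, Complex.exp_mul_I]
  push_cast
  ring

/-- shifting the interval of angles -/
lemma integral_angle (g : ℂ → ℝ) (r : ℝ) :
    ∫ θ in Ioo (-Real.pi) Real.pi, g (circleMap 0 r θ) =
      2 * Real.pi * Real.circleAverage g 0 r := by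
  have hper : Function.Periodic (fun θ => g (circleMap 0 r θ)) (2 * Real.pi) := fun θ => by
    simp only [periodic_circleMap 0 r θ]
  rw [Real.circleAverage_def, smul_eq_mul, ← mul_assoc, mul_inv_cancel₀ (by positivity), one_mul,
    ← integral_Ioc_eq_integral_Ioo, ← intervalIntegral.integral_of_le (by linarith [Real.pi_pos])]
  have h := hper.intervalIntegral_add_eq (-Real.pi) 0
  rw [show -Real.pi + 2 * Real.pi = Real.pi by ring, zero_add] at h
  exact h

lemma lintegral_angle (g : ℂ → ℝ≥0∞) (r : ℝ) :
    ∫⁻ θ in Ioo (-Real.pi) Real.pi, g (circleMap 0 r θ) =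
      ∫⁻ θ in Ioo 0 (2 * Real.pi), g (circleMap 0 r θ) := by
  have hper : Function.Periodic (fun θ => g (circleMap 0 r θ)) (2 * Real.pi) := fun θ => by
    simp only [periodic_circleMap 0 r θ]
  rw [setLIntegral_congr (Ioo_ae_eq_Ioc (μ := volume)), setLIntegral_congr (Ioo_ae_eq_Ioc (μ := volume))]
  have h1 := (isAddFundamentalDomain_Ioc (by positivity : (0:ℝ) < 2 * Real.pi) (-Real.pi))
  have h2 := (isAddFundamentalDomain_Ioc (by positivity : (0:ℝ) < 2 * Real.pi) 0)
  have h := h1.setLIntegral_eq h2 (fun θ => g (circleMap 0 r θ)) (by
    intro x y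
    exact hper.map_vadd_zmultiples x y)
  rw [show -Real.pi + 2 * Real.pi = Real.pi by ring, zero_add] at h
  exact h

/-- Polar coordinates for nonnegative functions. -/
lemma lintegral_ball_polar (f : ℂ → ℝ≥0∞) (hf : Measurable f) (s : ℝ) :
    ∫⁻ z in ball (0 : ℂ) s, f z =
      ∫⁻ r in Ioo (0 : ℝ) s, ENNReal.ofReal r *
        ∫⁻ θ in Ioo 0 (2 * Real.pi), f (circleMap 0 r θ) := by
  rw [← lintegral_indicator measurableSet_ball, ← Complex.lintegral_comp_polarCoord_symm,
    polarCoord_target, Measure.volume_eq_prod, setLIntegral_prod]
  · have : ∀ x ∈ Ioi (0 : ℝ), (∫⁻ y in Ioo (-Real.pi) Real.pi,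
        ENNReal.ofReal ((x, y) : ℝ × ℝ).1 • (ball (0 : ℂ) s).indicator (fun z => f z)
          (Complex.polarCoord.symm (x, y))) =
        (Iio s).indicator (fun r => ENNReal.ofReal r *
          ∫⁻ θ in Ioo 0 (2 * Real.pi), f (circleMap 0 r θ)) x := by
      intro x hx
      simp only [smul_eq_mul, polar_symm_eq]
      rw [lintegral_const_mul']
      · rw [lintegral_angle ((ball (0 : ℂ) s).indicator (fun z => f z))]
        by_cases hxs : x < s
        · rw [indicator_of_mem (show x ∈ Iio s from hxs)]
          congr 1
          apply lintegral_congr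
          intro θ
          rw [indicator_of_mem]
          simp [abs_of_pos (show (0:ℝ) < x from hx), hxs]
        · rw [indicator_of_notMem (by simpa using hxs)]
          have : ∀ θ : ℝ, (ball (0 : ℂ) s).indicator (fun z => f z) (circleMap 0 x θ) = 0 := by
            intro θ
            rw [indicator_of_notMem]
            simp [abs_of_pos (show (0:ℝ) < x from hx)]
            linarith
          simp [this]
      · exact ENNReal.ofReal_ne_top
    rw [setLIntegral_congr_fun measurableSet_Ioi this, lintegral_indicator measurableSet_Iio,
      Measure.restrict_restrict measurableSet_Iio]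
    congr 2
    ext x; simp [and_comm]
  · apply Measurable.aemeasurable
    simp only [smul_eq_mul, polar_symm_eq]
    apply Measurable.mul
    · exact ENNReal.measurable_ofReal.comp measurable_fst
    · apply Measurable.comp (hf.indicator measurableSet_ball)
      have : Continuous (fun x : ℝ × ℝ => circleMap 0 x.1 x.2) := by
        unfold circleMap
        fun_prop
      exact this.measurable

/-- Polar coordinates for integrable functions. -/
lemma integral_ball_polar (f : ℂ → ℝ) (hf : Measurable f) (s : ℝ)
    (hi : IntegrableOn f (ball (0 : ℂ) s)) :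
    ∫ z in ball (0 : ℂ) s, f z =
      ∫ r in Ioo (0 : ℝ) s, 2 * Real.pi * r * Real.circleAverage f 0 r := by
  have hmap : Measurable (fun x : ℝ × ℝ => circleMap 0 x.1 x.2) := by
    have : Continuous (fun x : ℝ × ℝ => circleMap 0 x.1 x.2) := by
      unfold circleMap
      fun_prop
    exact this.measurable
  rw [← integral_indicator measurableSet_ball, ← Complex.integral_comp_polarCoord_symm,
    polarCoord_target, Measure.volume_eq_prod, setIntegral_prod]
  · have : ∀ x ∈ Ioi (0 : ℝ), (∫ y in Ioo (-Real.pi) Real.pi,
        ((x, y) : ℝ × ℝ).1 • (ball (0 : ℂ) s).indicator (fun z => f z)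
          (Complex.polarCoord.symm (x, y))) =
        (Iio s).indicator (fun r => 2 * Real.pi * r * Real.circleAverage f 0 r) x := by
      intro x hx
      simp only [smul_eq_mul, polar_symm_eq]
      rw [integral_const_mul, integral_angle ((ball (0 : ℂ) s).indicator (fun z => f z))]
      by_cases hxs : x < s
      · rw [indicator_of_mem (show x ∈ Iio s from hxs)]
        have : Real.circleAverage ((ball (0 : ℂ) s).indicator (fun z => f z)) 0 x =
            Real.circleAverage f 0 x := by
          apply Real.circleAverage_congr_sphere
          intro z hz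
          rw [indicator_of_mem]
          simp only [mem_sphere_iff_norm, sub_zero] at hz
          simp [hz, abs_of_pos (show (0:ℝ) < x from hx), hxs]
        rw [this]; ring
      · rw [indicator_of_notMem (by simpa using hxs)]
        have : Real.circleAverage ((ball (0 : ℂ) s).indicator (fun z => f z)) 0 x =
            Real.circleAverage (fun _ => (0:ℝ)) 0 x := by
          apply Real.circleAverage_congr_sphere
          intro z hz
          rw [indicator_of_notMem]
          simp only [mem_sphere_iff_norm, sub_zero] at hz
          simp [hz, abs_of_pos (show (0:ℝ) < x from hx)]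
          linarith
        rw [this, Real.circleAverage_const]; simp
    rw [setIntegral_congr_fun measurableSet_Ioi this, integral_indicator measurableSet_Iio,
      Measure.restrict_restrict measurableSet_Iio]
    congr 2
    ext x; simp [and_comm]
  · have hm : Measurable (fun z : ℝ × ℝ => z.1 • (ball (0 : ℂ) s).indicator (fun z => f z)
        (Complex.polarCoord.symm z)) := by
      simp only [smul_eq_mul, polar_symm_eq]
      exact measurable_fst.mul ((hf.indicator measurableSet_ball).comp hmap)
    refine ⟨hm.aestronglyMeasurable, ?_⟩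
    have h2 := hi.2
    unfold HasFiniteIntegral at h2 ⊢
    rw [← lintegral_indicator measurableSet_ball, ← Complex.lintegral_comp_polarCoord_symm,
      polarCoord_target, Measure.volume_eq_prod] at h2
    refine lt_of_le_of_lt ?_ h2
    apply setLIntegral_mono' (measurableSet_Ioi.prod measurableSet_Ioo)
    rintro ⟨x, y⟩ ⟨hx, hy⟩
    simp only [mem_Ioi] at hx
    simp only [smul_eq_mul, enorm_mul]
    have : ‖x‖ₑ = ENNReal.ofReal x := by
      rw [Real.enorm_eq_ofReal hx.le]
    rw [this]
    gcongr
    rw [enorm_indicator_eq_indicator_enorm]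

end Pool.Agent.H45.Nev
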