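import Pool.Agent.H45.Nev.TestSys
import Pool.Agent.H45.Nev.LeafDefs

/-!
# Statements of the main steps
-/

open MeasureTheory Set Metric Filter Topology ProbabilityTheory
open scoped ContDiff ENNReal Manifold

namespace Pool.Agent.H45.Nev

section lam

variable {M : Type*} [TopologicalSpace M] [MeasurableSpace M]
  {Y : Type*} [NormedAddCommGroup Y] [NormedSpace ℝ Y]

/-- maximal inequality -/
def MaxStmt (Λ : Lam M Y) (μ : Measure M) : Prop :=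
  ∀ f : M → ℝ, Measurable f → (∃ B, ∀ x, |f x| ≤ B) →
    ∃ A : Set M, MeasurableSet A ∧ 0 ≤ ∫ x in A, f x ∂μ ∧
      ∀ᵐ a ∂μ, a ∉ A → ∀ (φ : ℂ → M) (σ : ℂ → ℝ), Λ.IsDisc φ σ → φ 0 = a →
        ∀ s ∈ Ioo (0 : ℝ) 1,
          ∫ ξ in ball (0 : ℂ) s, Real.log (s / ‖ξ‖) * (σ ξ * f (φ ξ)) ≤ 0

omit [MeasurableSpace M] in
/-- area of hyperbolic balls in universal discs centred in a compact set -/
def AreaStmt (Λ : Lam M Y) : Prop :=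
  ∀ K : Set M, IsCompact K → K ⊆ Λ.reg → ∃ c : ℝ, 0 < c ∧
    ∀ (φ : ℂ → M) (σ : ℂ → ℝ), Λ.IsUniv φ σ → ∀ ξ ∈ ball (0 : ℂ) 1, φ ξ ∈ K →
      ENNReal.ofReal c ≤
        ∫⁻ ζ in ball (0 : ℂ) 1 ∩ {ζ | ‖ζ - ξ‖ ≤ 1 / 2 * ‖1 - (starRingEnd ℂ) ξ * ζ‖},
          ENNReal.ofReal (σ ζ)

/-- the Nevanlinna characteristic tends to infinity -/
def InfStmt (Λ : Lam M Y) (μ : Measure M) : Prop :=
  ∀ᵐ a ∂μ, ∀ (φ : ℂ → M) (σ : ℂ → ℝ), Λ.IsUniv φ σ → φ 0 = a →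
    Tendsto (fun s : ℝ => ∫ ξ in ball (0 : ℂ) s, Real.log (s / ‖ξ‖) * σ ξ) (𝓝[<] 1) atTop

end lam

section man

variable {E : Type*} [NormedAddCommGroup E] [NormedSpace ℂ E]
  {M : Type*} [TopologicalSpace M] [ChartedSpace E M]

/-- the properties of the flow boxes provided by `exists_boxes` -/
structure GoodBoxes (F : SingFoliation E M) (κ : Form11 E M) {m : ℕ}
    (Λ : Lam M (Fin m → ℂ)) : Prop where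
  reg_eq : Λ.reg = F.singᶜ
  plaque : ∀ i, ∀ t ∈ Λ.W i, ∀ z ∈ ball (0 : ℂ) 1,
        MDifferentiableAt 𝓘(ℂ, ℂ) 𝓘(ℂ, E) (fun z => (Λ.box i).symm (z, t)) z ∧
        F.Tangent ((Λ.box i).symm (z, t))
          (mfderiv 𝓘(ℂ, ℂ) 𝓘(ℂ, E) (fun z => (Λ.box i).symm (z, t)) z (1 : ℂ)) ∧
        mfderiv 𝓘(ℂ, ℂ) 𝓘(ℂ, E) (fun z => (Λ.box i).symm (z, t)) z (1 : ℂ) ≠ 0 ∧
        Λ.ρ i (z, t) = (κ.1 ((Λ.box i).symm (z, t))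
          (mfderiv 𝓘(ℂ, ℂ) 𝓘(ℂ, E) (fun z => (Λ.box i).symm (z, t)) z (1 : ℂ))
          (mfderiv 𝓘(ℂ, ℂ) 𝓘(ℂ, E) (fun z => (Λ.box i).symm (z, t)) z (1 : ℂ))).re
  smooth : ∀ i, ContMDiffOn 𝓘(ℝ, E) 𝓘(ℝ, ℂ × (Fin m → ℂ)) ∞ (Λ.box i) (Λ.box i).source
  smooth_symm : ∀ i, ContMDiffOn 𝓘(ℝ, ℂ × (Fin m → ℂ)) 𝓘(ℝ, E) ∞ (Λ.box i).symm
    (Λ.box i).target

end man

end Pool.Agent.H45.Nev
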