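import Pool.Agent.H45.Nev.LamDefs

/-!
# Systems of test functions on a lamination
-/

open MeasureTheory Set Metric Filter Topology ProbabilityTheory
open scoped ContDiff ENNReal

namespace Pool.Agent.H45.Nev

variable {M : Type*} [TopologicalSpace M] [MeasurableSpace M]
  {Y : Type*} [NormedAddCommGroup Y] [NormedSpace ℝ Y]

/-- A system of test functions with leafwise Laplacian `L`, for which `μ` is harmonic. -/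
structure TestSys (Λ : Lam M Y) (μ : Measure M) where
  D : Set (M → ℝ)
  L : (M → ℝ) → M → ℝ
  cont : ∀ u ∈ D, Continuous u
  bdd : ∀ u ∈ D, ∃ C, ∀ x, |u x| ≤ C
  L_meas : ∀ u ∈ D, Measurable (L u)
  L_bdd : ∀ u ∈ D, ∃ C, ∀ x, |L u x| ≤ C
  smooth_leaf : ∀ u ∈ D, ∀ i, ∀ t ∈ Λ.W i,
    ContDiffOn ℝ ∞ (fun z => u ((Λ.box i).symm (z, t))) (ball 0 1)
  L_eq : ∀ u ∈ D, ∀ i, ∀ t ∈ Λ.W i, ∀ z ∈ ball (0 : ℂ) 1,
    lap (fun z => u ((Λ.box i).symm (z, t))) z = Λ.ρ i (z, t) * L u ((Λ.box i).symm (z, t))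
  L_zero : ∀ u ∈ D, ∀ x ∉ Λ.reg, L u x = 0
  one_mem : (fun _ => (1 : ℝ)) ∈ D
  lin : ∀ u ∈ D, ∀ v ∈ D, ∀ c : ℝ, (fun x => u x + c * v x) ∈ D
  mul : ∀ u ∈ D, ∀ v ∈ D, (fun x => u x * v x) ∈ D
  comp : ∀ u ∈ D, ∀ F : ℝ → ℝ, ContDiff ℝ ∞ F → (fun x => F (u x)) ∈ D
  integral_L : ∀ u ∈ D, ∫ x, L u x ∂μ = 0
  /-- product test functions in flow boxes -/
  prod : ∀ i, ∀ v : ℂ → ℝ, ContDiff ℝ ∞ v → HasCompactSupport v → tsupport v ⊆ ball 0 1 →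
    ∀ w : Y → ℝ, ContDiff ℝ ∞ w → HasCompactSupport w → tsupport w ⊆ Λ.W i →
      ∃ u ∈ D, (∀ x ∈ (Λ.box i).source, u x = v (Λ.box i x).1 * w (Λ.box i x).2) ∧
        ∀ x ∉ (Λ.box i).source, u x = 0
  /-- partitions of unity -/
  pou : ∀ K : Set M, IsCompact K → K ⊆ Λ.reg → ∃ (n : ℕ) (η : Fin n → M → ℝ) (j : Fin n → Λ.ι),
    (∀ k, η k ∈ D ∧ (∀ x, 0 ≤ η k x) ∧ IsCompact (tsupport (η k)) ∧
      tsupport (η k) ⊆ (Λ.box (j k)).source) ∧ ∀ x ∈ K, ∑ k, η k x = 1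
  /-- the complement of the regular set has zero capacity -/
  χ : ℕ → M → ℝ
  χ_mem : ∀ n, χ n ∈ D
  χ_range : ∀ n x, 0 ≤ χ n x ∧ χ n x ≤ 1
  χ_supp : ∀ n, ∃ K, IsCompact K ∧ K ⊆ Λ.reg ∧ ∀ x ∉ K, χ n x = 0
  χ_tendsto : ∀ x ∈ Λ.reg, Tendsto (fun n => χ n x) atTop (𝓝 1)
  χ_int : Tendsto (fun n => ∫ x, |L (χ n) x| ∂μ) atTop (𝓝 0)
  reg_full : μ Λ.regᶜ = 0

/-- Disintegration of `μ` along the plaques of the box `i` -/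
structure Disint (Λ : Lam M Y) (μ : Measure M) [MeasurableSpace Y] (i : Λ.ι) where
  ν : Measure Y
  ν_fin : IsFiniteMeasure ν
  κ : Kernel Y ℂ
  κ_markov : IsMarkovKernel κ
  h : Y → ℂ → ℝ
  good : ∀ᵐ t ∂ν, t ∈ Λ.W i ∧ Measurable (h t) ∧ ContinuousOn (h t) (ball 0 1) ∧
    (∀ z ∈ ball (0 : ℂ) 1, 0 < h t z) ∧
    κ t = (volume.restrict (ball (0 : ℂ) 1)).withDensity
      (fun z => ENNReal.ofReal (Λ.ρ i (z, t) * h t z))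
  lintegral_eq : ∀ f : M → ℝ≥0∞, Measurable f →
    ∫⁻ x in (Λ.box i).source, f x ∂μ = ∫⁻ t, ∫⁻ z, f ((Λ.box i).symm (z, t)) ∂κ t ∂ν
  /-- measurability of the fibre integrals -/
  meas_fibre : ∀ f : M → ℝ≥0∞, Measurable f →
    AEMeasurable (fun t => ∫⁻ z, f ((Λ.box i).symm (z, t)) ∂κ t) ν
  integral_eq : ∀ f : M → ℝ, Measurable f → (∃ C, ∀ x, |f x| ≤ C) →
    ∫ x in (Λ.box i).source, f x ∂μ = ∫ t, ∫ z, f ((Λ.box i).symm (z, t)) ∂κ t ∂ν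

end Pool.Agent.H45.Nev
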